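import Pool.Agent.HA.Stmts

/-!
# Module BOX: the box event for the lower bound
-/

namespace Pool.Agent.HA

open MeasureTheory ProbabilityTheory Filter Topology Pool.Agent.GH

universe u

namespace BOX

theorem exp_bd (t : ℝ) (h0 : 0 ≤ t) (h1 : t ≤ 1) : t / 2 ≤ 1 - Real.exp (-t) := by
  have h2 : 1 + t ≤ Real.exp t := by
    have := Real.add_one_le_exp t
    linarith
  have h3 : Real.exp (-t) ≤ 1 / (1 + t) := by
    rw [Real.exp_neg, ← one_div]
    exact one_div_le_one_div_of_le (by linarith) h2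
  have h4 : 1 / (1 + t) ≤ 1 - t / 2 := by
    rw [div_le_iff₀ (by linarith)]
    nlinarith
  linarith

end BOX

open BOX in
/-- The box event for the lower bound. -/
theorem BOX_thm (h1 : GSB_Stmt) (h2 : Pool.Agent.GH.INDT_Stmt.{u}) : BOX_Stmt.{u} := by
  classical
  intro Ω _ P ξ hG m N c hmN hc
  obtain ⟨-, -, hball, hout, -⟩ := h1
  have hP := hG.prob
  set B : ℕ → Set ℂ := fun n => if n = m then {w : ℂ | 1 ≤ ‖w‖} else Metric.closedBall 0 (c n)
    with hB
  have hBm : ∀ n, MeasurableSet (B n) := by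
    intro n
    simp only [hB]
    split_ifs
    · exact measurableSet_le measurable_const measurable_norm
    · exact Metric.isClosed_closedBall.measurableSet
  set S : Set (Fin (N + 1) → ℂ) := Set.univ.pi fun k => B k with hS
  have hSm : MeasurableSet S := MeasurableSet.univ_pi fun k => hBm k
  have h3 := h2 P ξ hG N S hSm
  -- the product formula
  have h4 : {ω | (fun k : Fin (N + 1) => ξ (k : ℕ) ω) ∈ S} =
      ⋂ i ∈ Finset.range (N + 1), ξ i ⁻¹' B i := by
    ext ω
    simp only [hS, Set.mem_ofPred_eq, Set.mem_pi, Set.mem_univ, true_implies, Set.mem_iInter,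
      Finset.mem_range, Set.mem_preimage]
    constructor
    · intro h i hi
      exact h ⟨i, hi⟩
    · intro h k
      exact h k k.2
  have h5 : P (⋂ i ∈ Finset.range (N + 1), ξ i ⁻¹' B i) =
      ∏ i ∈ Finset.range (N + 1), P (ξ i ⁻¹' B i) :=
    hG.indep.measure_inter_preimage_eq_mul (Finset.range (N + 1)) fun i _ => hBm i
  have h6 : ∀ i, P (ξ i ⁻¹' B i) = stdC (B i) := by
    intro i
    rw [← hG.law i, Measure.map_apply (hG.meas i) (hBm i)]
  have h7 : (P {ω | (fun k : Fin (N + 1) => ξ (k : ℕ) ω) ∈ S}).toReal =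
      ∏ i ∈ Finset.range (N + 1), (stdC (B i)).toReal := by
    rw [h4, h5, ENNReal.toReal_prod]
    exact Finset.prod_congr rfl fun i _ => by rw [h6]
  have h8 : Real.exp (-1) * ∏ n ∈ (Finset.range (N + 1)).erase m, (c n ^ 2 / 2) ≤
      ∏ i ∈ Finset.range (N + 1), (stdC (B i)).toReal := by
    rw [← Finset.mul_prod_erase (Finset.range (N + 1)) (fun i => (stdC (B i)).toReal)
      (Finset.mem_range.2 (Nat.lt_succ_of_le hmN))]
    have h9 : (stdC (B m)).toReal = Real.exp (-1) := by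
      have : B m = {w : ℂ | 1 ≤ ‖w‖} := by simp [hB]
      rw [this, hout 1 zero_le_one]
      norm_num
    rw [h9]
    refine mul_le_mul_of_nonneg_left ?_ (Real.exp_pos _).le
    refine Finset.prod_le_prod (fun n _ => by positivity) fun n hn => ?_
    have h10 : B n = Metric.closedBall 0 (c n) := by
      simp [hB, Finset.ne_of_mem_erase hn]
    rw [h10, hball (c n) (hc n).1.le]
    refine exp_bd _ (by positivity) ?_
    have := hc n
    exact pow_le_one₀ this.1.le this.2
  rw [h7] at h3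
  have h9 : (P {ω | (fun k : Fin (N + 1) => ξ (k : ℕ) ω) ∈ S ∧
        ∀ k : ℕ, N < k → ‖ξ k ω‖ ≤ (k : ℝ)}).toReal ≤
      (P {ω | 1 ≤ ‖ξ m ω‖ ∧ (∀ n, n ≤ N → n ≠ m → ‖ξ n ω‖ ≤ c n) ∧
        ∀ n, N < n → ‖ξ n ω‖ ≤ (n : ℝ)}).toReal := by
    refine ENNReal.toReal_mono (measure_ne_top P _) (measure_mono ?_)
    rintro ω ⟨ha, hb⟩
    have hk : ∀ n, n ≤ N → ξ n ω ∈ B n := fun n hn => ha ⟨n, Nat.lt_succ_of_le hn⟩ (Set.mem_univ _)
    refine ⟨?_, ?_, hb⟩
    · have := hk m hmN
      simpa [hB] using this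
    · intro n hn hne
      have := hk n hn
      simpa [hB, hne] using this
  calc 1 / 2 * Real.exp (-1) * ∏ n ∈ (Finset.range (N + 1)).erase m, (c n ^ 2 / 2)
      = 1 / 2 * (Real.exp (-1) * ∏ n ∈ (Finset.range (N + 1)).erase m, (c n ^ 2 / 2)) := by ring
    _ ≤ 1 / 2 * ∏ i ∈ Finset.range (N + 1), (stdC (B i)).toReal := by linarith
    _ ≤ _ := h3.trans h9

end Pool.Agent.HA
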