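import Pool.Agent.HA.Stmts

/-!
CMP: comparison of the exponent of an annulus with that of the disk.
-/

set_option autoImplicit false

namespace Pool.Agent.HA

open MeasureTheory ProbabilityTheory Filter Topology Pool.Agent.GH

universe u

namespace CMP

theorem phi_eq {t x : ℝ} (ht : 0 < t) (hx : 0 < x) :
    phi t x = x / 2 * (1 + Real.log (t ^ 2 / x)) := by
  rw [phi, Real.log_div (by positivity) hx.ne', Real.log_pow]
  push_cast
  ring

theorem phi_le {t x : ℝ} (ht : 0 < t) (hx : 0 ≤ x) : phi t x ≤ t ^ 2 / 2 := by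
  rcases hx.eq_or_lt with rfl | hx
  · simp only [phi, zero_mul, sub_zero, zero_div]
    positivity
  · rw [phi_eq ht hx]
    have h1 : Real.log (t ^ 2 / x) ≤ t ^ 2 / x - 1 := Real.log_le_sub_one_of_pos (by positivity)
    have h2 : x / 2 * (1 + Real.log (t ^ 2 / x)) ≤ x / 2 * (t ^ 2 / x) := by
      apply mul_le_mul_of_nonneg_left _ (by positivity)
      linarith
    have h3 : x / 2 * (t ^ 2 / x) = t ^ 2 / 2 := by field_simp
    linarith

theorem phi_sq {t : ℝ} (ht : 0 < t) : phi t (t ^ 2) = t ^ 2 / 2 := by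
  rw [phi_eq ht (by positivity), div_self (by positivity), Real.log_one]
  ring

theorem phi_pos {b x : ℝ} (hb : 0 < b) (hx : 0 < x) (hxb : x ≤ b ^ 2) : 0 < phi b x := by
  rw [phi_eq hb hx]
  have h1 : 0 ≤ Real.log (b ^ 2 / x) := Real.log_nonneg (by rwa [le_div_iff₀ hx, one_mul])
  positivity

theorem phi_nonneg {b x : ℝ} (hb : 0 < b) (hx : 0 ≤ x) (hxb : x ≤ Real.exp 1 * b ^ 2) :
    0 ≤ phi b x := by
  rcases hx.eq_or_lt with rfl | hx
  · simp [phi]
  · rw [phi_eq hb hx]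
    have h1 : -1 ≤ Real.log (b ^ 2 / x) := by
      rw [Real.le_log_iff_exp_le (by positivity), Real.exp_neg, le_div_iff₀ hx]
      rw [inv_mul_le_iff₀ (Real.exp_pos 1)]
      exact hxb
    have : 0 ≤ 1 + Real.log (b ^ 2 / x) := by linarith
    positivity

theorem phi_nonpos {b x : ℝ} (hb : 0 < b) (hxb : Real.exp 1 * b ^ 2 ≤ x) :
    phi b x ≤ 0 := by
  have hx : 0 < x := lt_of_lt_of_le (by positivity) hxb
  rw [phi_eq hb hx]
  have h1 : Real.log (b ^ 2 / x) ≤ -1 := by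
    rw [Real.log_le_iff_le_exp (by positivity), Real.exp_neg, div_le_iff₀ hx]
    rw [← div_eq_inv_mul, le_div_iff₀ (Real.exp_pos 1), mul_comm]
    exact hxb
  have : 1 + Real.log (b ^ 2 / x) ≤ 0 := by linarith
  exact mul_nonpos_of_nonneg_of_nonpos (by positivity) this

theorem int_phi {b X : ℝ} (hb : 0 < b) (hX : 0 ≤ X) (hc : Continuous (phi b)) :
    ∫ x in (0 : ℝ)..X, phi b x =
      X * (X * (Real.log b / 2 + 3 / 8)) - X * (X * Real.log X) / 4 := by
  have h := intervalIntegral.integral_eq_sub_of_hasDerivAt_of_le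
    (f := fun x : ℝ => x * (x * (Real.log b / 2 + 3 / 8)) - x * (x * Real.log x) / 4)
    (f' := phi b) hX ?_ ?_ (hc.intervalIntegrable _ _)
  · rw [h]
    simp
  · apply Continuous.continuousOn
    have := Real.continuous_mul_log
    fun_prop
  · intro x hx
    have hx0 : x ≠ 0 := hx.1.ne'
    have h1 : HasDerivAt (fun x : ℝ => x * Real.log x) (Real.log x + 1) x :=
      Real.hasDerivAt_mul_log hx0
    have h2 : HasDerivAt (fun x : ℝ => x * (x * Real.log x))
        (1 * (x * Real.log x) + x * (Real.log x + 1)) x := (hasDerivAt_id x).mul h1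
    have h3 : HasDerivAt (fun x : ℝ => x * (Real.log b / 2 + 3 / 8))
        (1 * (Real.log b / 2 + 3 / 8)) x := (hasDerivAt_id x).mul_const _
    have h4 : HasDerivAt (fun x : ℝ => x * (x * (Real.log b / 2 + 3 / 8)))
        (1 * (x * (Real.log b / 2 + 3 / 8)) + x * (1 * (Real.log b / 2 + 3 / 8))) x :=
      (hasDerivAt_id x).mul h3
    have h5 := h4.sub (h2.div_const 4)
    have h6 : phi b x = 1 * (x * (Real.log b / 2 + 3 / 8)) + x * (1 * (Real.log b / 2 + 3 / 8)) -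
        (1 * (x * Real.log x) + x * (Real.log x + 1)) / 4 := by
      unfold phi
      ring
    rw [h6]
    exact h5

theorem int_disk {b : ℝ} (hb : 0 < b) (hc : Continuous (phi b)) :
    ∫ x in (0 : ℝ)..(3 * b ^ 2), max (phi b x) 0 = Real.exp 2 / 8 * b ^ 4 := by
  have he : Real.exp 1 * b ^ 2 ≤ 3 * b ^ 2 := by
    have := Real.exp_one_lt_d9
    nlinarith [sq_nonneg b]
  have h0 : 0 ≤ Real.exp 1 * b ^ 2 := by positivity
  have hcm : Continuous fun x => max (phi b x) 0 := hc.max continuous_const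
  rw [← intervalIntegral.integral_add_adjacent_intervals (b := Real.exp 1 * b ^ 2)
    (hcm.intervalIntegrable _ _) (hcm.intervalIntegrable _ _)]
  have h1 : ∫ x in (0 : ℝ)..(Real.exp 1 * b ^ 2), max (phi b x) 0 =
      ∫ x in (0 : ℝ)..(Real.exp 1 * b ^ 2), phi b x := by
    apply intervalIntegral.integral_congr
    intro x hx
    rw [Set.uIcc_of_le h0] at hx
    exact max_eq_left (phi_nonneg hb hx.1 hx.2)
  have h2 : ∫ x in (Real.exp 1 * b ^ 2)..(3 * b ^ 2), max (phi b x) 0 =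
      ∫ x in (Real.exp 1 * b ^ 2)..(3 * b ^ 2), (0 : ℝ) := by
    apply intervalIntegral.integral_congr
    intro x hx
    rw [Set.uIcc_of_le he] at hx
    exact max_eq_right (phi_nonpos hb hx.1)
  rw [h1, h2, int_phi hb h0 hc, intervalIntegral.integral_zero,
    Real.log_mul (Real.exp_ne_zero 1) (by positivity), Real.log_exp, Real.log_pow]
  have h3 : Real.exp 2 = Real.exp 1 * Real.exp 1 := by
    rw [← Real.exp_add]; norm_num
  rw [h3]
  push_cast
  ring

theorem first_zero {a : ℝ} (ha : 0 < a) :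
    ∫ x in (0 : ℝ)..(a ^ 2), max (phi a x - phi a (a ^ 2)) 0 = 0 := by
  have h : ∫ x in (0 : ℝ)..(a ^ 2), max (phi a x - phi a (a ^ 2)) 0 =
      ∫ x in (0 : ℝ)..(a ^ 2), (0 : ℝ) := by
    apply intervalIntegral.integral_congr
    intro x hx
    rw [Set.uIcc_of_le (by positivity)] at hx
    have := phi_le ha hx.1
    rw [phi_sq ha]
    exact max_eq_right (by linarith)
  rw [h, intervalIntegral.integral_zero]

theorem Phi_sq (h1 : PHS_Stmt) {a b : ℝ} (ha : 0 < a) (hab : a < b) :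
    Phi a b (a ^ 2) = 2 * ∫ x in (a ^ 2)..(3 * b ^ 2), max (phi b x - phi b (a ^ 2)) 0 := by
  have hb : 0 < b := ha.trans hab
  have hm : max (a ^ 2) (3 * b ^ 2) = 3 * b ^ 2 := by
    apply max_eq_right
    nlinarith
  rw [Phi, first_zero ha, (h1.2.2.2 b (a ^ 2) hb (by positivity)).2, hm]
  ring

theorem part1 {a b μ : ℝ} (hμ : 0 ≤ μ) : 0 ≤ Phi a b μ := by
  rw [Phi]
  have h1 : 0 ≤ ∫ x in (0 : ℝ)..μ, max (phi a x - phi a μ) 0 :=
    intervalIntegral.integral_nonneg hμ fun _ _ => le_max_right _ _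
  have h2 : 0 ≤ ∫ x in Set.Ioi μ, max (phi b x - phi b μ) 0 :=
    MeasureTheory.integral_nonneg fun _ => le_max_right _ _
  linarith

theorem part2 (h1 : PHS_Stmt) {a b : ℝ} (ha : 0 < a) (hab : a < b) :
    Phi a b (a ^ 2) < Real.exp 2 / 4 * b ^ 4 := by
  have hb : 0 < b := ha.trans hab
  have hc : Continuous (phi b) := h1.1 b
  have hcm : Continuous fun x => max (phi b x) 0 := hc.max continuous_const
  have hcm' : Continuous fun x => max (phi b x - phi b (a ^ 2)) 0 :=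
    (hc.sub continuous_const).max continuous_const
  have ha2 : a ^ 2 ≤ b ^ 2 := by nlinarith
  have ha3 : a ^ 2 ≤ 3 * b ^ 2 := by nlinarith
  have ha0 : 0 < a ^ 2 := by positivity
  rw [Phi_sq h1 ha hab]
  have e1 := intervalIntegral.integral_add_adjacent_intervals (b := a ^ 2)
    (hcm.intervalIntegrable (μ := volume) 0 (a ^ 2))
    (hcm.intervalIntegrable (μ := volume) (a ^ 2) (3 * b ^ 2))
  rw [int_disk hb hc] at e1
  have e2 : ∫ x in (a ^ 2)..(3 * b ^ 2), max (phi b x - phi b (a ^ 2)) 0 ≤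
      ∫ x in (a ^ 2)..(3 * b ^ 2), max (phi b x) 0 := by
    apply intervalIntegral.integral_mono_on ha3 (hcm'.intervalIntegrable _ _)
      (hcm.intervalIntegrable _ _)
    intro x _
    have := phi_pos hb ha0 ha2
    exact max_le_max (by linarith) le_rfl
  have e3 : 0 < ∫ x in (0 : ℝ)..(a ^ 2), max (phi b x) 0 := by
    apply intervalIntegral.intervalIntegral_pos_of_pos_on (hcm.intervalIntegrable _ _) _ ha0
    intro x hx
    exact lt_max_of_lt_left (phi_pos hb hx.1 (hx.2.le.trans ha2))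
  linarith

theorem part3 (h1 : PHS_Stmt) {ε : ℝ} (hε : 0 < ε) :
    ∃ a : ℝ, 0 < a ∧ a < 1 ∧ Phi a 1 (a ^ 2) < ε := by
  have hc : Continuous (phi 1) := h1.1 1
  have hcf : Continuous fun a : ℝ => 1 / 2 - phi 1 (a ^ 2) :=
    continuous_const.sub (hc.comp (continuous_pow 2))
  have h0 : 1 / 2 - phi 1 (1 ^ 2) = 0 := by
    rw [phi_sq (t := 1) one_pos]; norm_num
  have hev : ∀ᶠ a : ℝ in 𝓝[<] 1, 1 / 2 - phi 1 (a ^ 2) < ε / 6 := by
    have ht : Tendsto (fun a : ℝ => 1 / 2 - phi 1 (a ^ 2)) (𝓝[<] 1) (𝓝 0) := by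
      have := (hcf.tendsto 1).mono_left (nhdsWithin_le_nhds (s := Set.Iio (1 : ℝ)))
      rwa [h0] at this
    exact ht.eventually (gt_mem_nhds (by positivity))
  have hev2 : ∀ᶠ a : ℝ in 𝓝[<] 1, a ∈ Set.Ioo (0 : ℝ) 1 := Ioo_mem_nhdsLT one_pos
  obtain ⟨a, ha1, ha2⟩ := (hev.and hev2).exists
  refine ⟨a, ha2.1, ha2.2, ?_⟩
  rw [Phi_sq h1 ha2.1 ha2.2]
  have hcm' : Continuous fun x => max (phi 1 x - phi 1 (a ^ 2)) 0 :=
    (hc.sub continuous_const).max continuous_const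
  have ha3 : a ^ 2 ≤ 3 * 1 ^ 2 := by nlinarith [ha2.1, ha2.2]
  have hd0 : 0 ≤ 1 / 2 - phi 1 (a ^ 2) := by
    have := phi_le (t := 1) one_pos (sq_nonneg a)
    linarith
  have e2 : ∫ x in (a ^ 2)..(3 * 1 ^ 2), max (phi 1 x - phi 1 (a ^ 2)) 0 ≤
      ∫ x in (a ^ 2)..(3 * 1 ^ 2), (1 / 2 - phi 1 (a ^ 2)) := by
    apply intervalIntegral.integral_mono_on ha3 (hcm'.intervalIntegrable _ _)
      (continuous_const.intervalIntegrable _ _)
    intro x hx
    have h3 : phi 1 x ≤ 1 ^ 2 / 2 := phi_le one_pos ((sq_nonneg a).trans hx.1)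
    exact max_le (by linarith) hd0
  rw [intervalIntegral.integral_const, smul_eq_mul] at e2
  have e4 : (3 * 1 ^ 2 - a ^ 2) * (1 / 2 - phi 1 (a ^ 2)) ≤ 3 * (1 / 2 - phi 1 (a ^ 2)) := by
    apply mul_le_mul_of_nonneg_right _ hd0
    nlinarith [sq_nonneg a]
  calc 2 * ∫ x in (a ^ 2)..(3 * 1 ^ 2), max (phi 1 x - phi 1 (a ^ 2)) 0
      ≤ 2 * (3 * (1 / 2 - phi 1 (a ^ 2))) := by
        apply mul_le_mul_of_nonneg_left (e2.trans e4) (by norm_num)
    _ < ε := by linarith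

end CMP

theorem CMP_thm (h1 : PHS_Stmt) : CMP_Stmt :=
  ⟨fun _ _ _ _ _ hμ => CMP.part1 hμ, fun _ _ ha hab => CMP.part2 h1 ha hab,
    fun _ hε => CMP.part3 h1 hε⟩

end Pool.Agent.HA
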