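import Pool.Agent.HA.Stmts
import Pool.Agent.GH.CAPA

/-!
Module CPA: the capacity of the annulus is its outer radius.
-/

set_option autoImplicit false

namespace Pool.Agent.HA

open MeasureTheory ProbabilityTheory Filter Topology Pool.Agent.GH

universe u

namespace CPA

theorem isCompact_ann (a b : ℝ) : IsCompact (ann a b) := by
  refine (isCompact_closedBall (0 : ℂ) b).of_isClosed_subset ?_ ?_
  · exact (isClosed_le continuous_const continuous_norm).inter
      (isClosed_le continuous_norm continuous_const)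
  · intro z hz
    rw [mem_closedBall_zero_iff]
    exact hz.2

theorem norm_det {n : ℕ} (z : Fin n → ℂ) : ‖(Matrix.vandermonde z).det‖ = vdm z := by
  rw [Matrix.det_vandermonde, norm_prod, vdm]
  refine Finset.prod_congr rfl fun i _ => ?_
  rw [norm_prod]
  exact Finset.prod_congr rfl fun j _ => norm_sub_rev _ _

theorem sum_fin (n : ℕ) : (∑ i : Fin n, (i : ℕ)) = n * (n - 1) / 2 := by
  rw [Fin.sum_univ_eq_sum_range (fun i => i) n, Finset.sum_range_id]

/-- Bound of the product of distances. -/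
theorem vdm_le {n : ℕ} {b : ℝ} (z : Fin n → ℂ) (hz : ∀ i, ‖z i‖ ≤ b) :
    vdm z ≤ (n.factorial : ℝ) * b ^ (n * (n - 1) / 2) := by
  rw [← norm_det, Matrix.det_apply]
  refine (norm_sum_le _ _).trans ?_
  have h1 : ∀ σ : Equiv.Perm (Fin n),
      ‖Equiv.Perm.sign σ • ∏ i, Matrix.vandermonde z (σ i) i‖ ≤ b ^ (n * (n - 1) / 2) := by
    intro σ
    have h2 : ‖Equiv.Perm.sign σ • ∏ i, Matrix.vandermonde z (σ i) i‖ =
        ‖∏ i, Matrix.vandermonde z (σ i) i‖ := by
      rcases Int.units_eq_one_or (Equiv.Perm.sign σ) with h | h <;> rw [h] <;> simp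
    rw [h2, norm_prod, ← sum_fin, ← Finset.prod_pow_eq_pow_sum]
    refine Finset.prod_le_prod (fun i _ => norm_nonneg _) fun i _ => ?_
    rw [Matrix.vandermonde_apply, norm_pow]
    exact pow_le_pow_left₀ (norm_nonneg _) (hz _) _
  refine (Finset.sum_le_sum fun σ _ => h1 σ).trans ?_
  rw [Finset.sum_const, Finset.card_univ, Fintype.card_perm, Fintype.card_fin, nsmul_eq_mul]

theorem two_mul_half (n : ℕ) : 2 * (n * (n - 1) / 2) = n * (n - 1) := by
  have : Even (n * (n - 1)) := Nat.even_mul_pred_self n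
  exact Nat.mul_div_cancel' this.two_dvd

theorem half_mul {N : ℕ} (hN : 2 ≤ N) :
    ((N * (N - 1) / 2 : ℕ) : ℝ) * (2 / ((N : ℝ) * ((N : ℝ) - 1))) = 1 := by
  have hN2 : (2 : ℝ) ≤ N := by exact_mod_cast hN
  have h2 : (0 : ℝ) < (N : ℝ) - 1 := by linarith
  have h9 : 0 < (N : ℝ) * ((N : ℝ) - 1) := by positivity
  have h8 : (2 : ℝ) * ((N * (N - 1) / 2 : ℕ) : ℝ) = (N : ℝ) * ((N : ℝ) - 1) := by
    have := congrArg (Nat.cast : ℕ → ℝ) (two_mul_half N)
    push_cast [Nat.cast_sub (by omega : 1 ≤ N)] at this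
    exact this
  rw [← mul_div_assoc, mul_comm _ (2 : ℝ), h8, div_self h9.ne']

/-- Lower bound of the diameters. -/
theorem le_dn (h2 : ROU_Stmt) {a b : ℝ} (ha : 0 < a) (hab : a < b) {N : ℕ} (hN : 2 ≤ N) :
    b ≤ dn (ann a b) N := by
  have hb : 0 < b := ha.trans hab
  obtain ⟨z, -, hz, -, hv⟩ := h2 0 b N hb (by omega)
  have hzm : ∀ i, z i ∈ ann a b := by
    intro i
    have := hz i
    rw [sub_zero] at this
    exact ⟨by rw [this]; exact hab.le, by rw [this]⟩
  have hN2 : (2 : ℝ) ≤ N := by exact_mod_cast hN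
  have h3 : (b ^ (N * (N - 1) / 2)) ^ 2 ≤ vdm z ^ 2 := by
    rw [hv, ← pow_mul, mul_comm _ 2, two_mul_half, mul_comm N, pow_mul]
    refine pow_le_pow_left₀ (by positivity) ?_ N
    have : 0 < b ^ (N - 1) := by positivity
    nlinarith
  have h4 : b ^ (N * (N - 1) / 2) ≤ vdm z :=
    le_of_sq_le_sq h3 (CAPA.vdm_nonneg z)
  have h5 : b ^ (N * (N - 1) / 2) ≤ vmax (ann a b) N :=
    h4.trans (CAPA.vdm_le_vmax (isCompact_ann a b) hzm)
  unfold dn
  have h6 : b = (b ^ (N * (N - 1) / 2)) ^ (2 / ((N : ℝ) * ((N : ℝ) - 1))) := by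
    rw [← Real.rpow_natCast, ← Real.rpow_mul hb.le]
    rw [half_mul hN, Real.rpow_one]
  conv_lhs => rw [h6]
  exact Real.rpow_le_rpow (by positivity) h5 (CAPA.expo_nonneg N)

/-- Upper bound of the diameters. -/
theorem dn_le {a b : ℝ} (ha : 0 < a) (hab : a < b) {N : ℕ} (hN : 2 ≤ N) :
    dn (ann a b) N ≤ (N : ℝ) ^ (2 / (1 * (N : ℝ) + -1)) * b := by
  have hb : 0 < b := ha.trans hab
  have hN2 : (2 : ℝ) ≤ N := by exact_mod_cast hN
  have h1 : vmax (ann a b) N ≤ (N : ℝ) ^ N * b ^ (N * (N - 1) / 2) := by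
    refine csSup_le (CAPA.ne ⟨(b : ℂ), ?_⟩ N) ?_
    · have : ‖(b : ℂ)‖ = b := by rw [Complex.norm_real, Real.norm_of_nonneg hb.le]
      exact ⟨by rw [this]; exact hab.le, by rw [this]⟩
    · rintro _ ⟨z, hz, rfl⟩
      refine (vdm_le z fun i => (hz i).2).trans ?_
      refine mul_le_mul_of_nonneg_right ?_ (by positivity)
      exact_mod_cast Nat.factorial_le_pow N
  unfold dn
  have h2 : (0 : ℝ) < (N : ℝ) - 1 := by linarith
  have h9 : 0 < (N : ℝ) * ((N : ℝ) - 1) := by positivity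
  refine (Real.rpow_le_rpow (CAPA.vmax_nonneg _ _) h1 (CAPA.expo_nonneg N)).trans (le_of_eq ?_)
  rw [Real.mul_rpow (by positivity) (by positivity)]
  congr 1
  · rw [← Real.rpow_natCast, ← Real.rpow_mul (by positivity)]
    congr 1
    rw [one_mul, ← sub_eq_add_neg]
    field_simp
  · rw [← Real.rpow_natCast, ← Real.rpow_mul hb.le]
    rw [half_mul hN, Real.rpow_one]

end CPA

open CPA in
theorem CPA_thm (h1 : Pool.Agent.GH.CAPA_Stmt) (h2 : Pool.Agent.GH.ROU_Stmt) : CPA_Stmt := by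
  intro a b ha hab
  have hb : 0 < b := ha.trans hab
  have hne : (ann a b).Nonempty := by
    refine ⟨(b : ℂ), ?_⟩
    have : ‖(b : ℂ)‖ = b := by rw [Complex.norm_real, Real.norm_of_nonneg hb.le]
    exact ⟨by rw [this]; exact hab.le, by rw [this]⟩
  obtain ⟨ht, -, -, -⟩ := h1.1 (ann a b) (isCompact_ann a b) hne
  refine le_antisymm ?_ ?_
  · have h3 : Tendsto (fun N : ℕ => (N : ℝ) ^ (2 / (1 * (N : ℝ) + -1)) * b) atTop (𝓝 (1 * b)) :=
      ((tendsto_rpow_div_mul_add 2 1 (-1) (by norm_num)).comp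
        tendsto_natCast_atTop_atTop).mul_const b
    rw [one_mul] at h3
    refine le_of_tendsto_of_tendsto ht h3 ?_
    filter_upwards [eventually_ge_atTop 2] with N hN
    exact dn_le ha hab hN
  · refine ge_of_tendsto ht ?_
    filter_upwards [eventually_ge_atTop 2] with N hN
    exact le_dn h2 ha hab hN

end Pool.Agent.HA
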