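import Pool.Agent.HA.Stmts

/-!
Module CRT: rotation of the points.
-/

namespace Pool.Agent.HA

universe u

theorem CRT_thm : CRT_Stmt := by
  intro n0 k z θ
  have h1 : VM n0 k (fun j => z j * Complex.exp (θ * Complex.I)) =
      Matrix.of fun (j i : Fin k) => Complex.exp (θ * Complex.I) ^ (n0 + (i : ℕ)) * VM n0 k z j i := by
    ext j i
    simp only [VM, Matrix.of_apply]
    rw [mul_pow]
    ring
  rw [h1, Matrix.det_mul_row, norm_mul, norm_prod]
  have h2 : ∀ i : Fin k, ‖Complex.exp (θ * Complex.I) ^ (n0 + (i : ℕ))‖ = 1 := by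
    intro i
    rw [norm_pow, Complex.norm_exp_ofReal_mul_I, one_pow]
  simp [h2]

end Pool.Agent.HA
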