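import Pool.Agent.HA.Stmts

/-!
DOM: a power series with one dominating coefficient has no zeros in the annulus.
-/

namespace Pool.Agent.HA

open MeasureTheory ProbabilityTheory Filter Topology Pool.Agent.GH

universe u

namespace DOM

theorem sqrt_fac_pos (n : ℕ) : 0 < Real.sqrt (n.factorial : ℝ) :=
  Real.sqrt_pos.2 (by exact_mod_cast Nat.factorial_pos n)

theorem exp_Lg (n : ℕ) {ρ : ℝ} (hρ : 0 < ρ) :
    Real.exp (Lg n ρ) = ρ ^ n / Real.sqrt (n.factorial : ℝ) := by
  unfold Lg
  rw [Real.exp_sub, ← Real.log_sqrt (by positivity), Real.exp_log (sqrt_fac_pos n),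
    Real.exp_nat_mul, Real.exp_log hρ]

theorem Lg_diff_le {n m : ℕ} (h : n ≤ m) {A ρ : ℝ} (hA : 0 < A) (hAρ : A ≤ ρ) :
    Lg n ρ - Lg m ρ ≤ Lg n A - Lg m A := by
  unfold Lg
  have h1 : Real.log A ≤ Real.log ρ := Real.log_le_log hA hAρ
  have h2 : (n : ℝ) ≤ m := by exact_mod_cast h
  nlinarith [mul_nonneg (sub_nonneg.2 h1) (sub_nonneg.2 h2)]

theorem Lg_diff_le' {n m : ℕ} (h : m ≤ n) {B ρ : ℝ} (hρ : 0 < ρ) (hρB : ρ ≤ B) :
    Lg n ρ - Lg m ρ ≤ Lg n B - Lg m B := by
  unfold Lg
  have h1 : Real.log ρ ≤ Real.log B := Real.log_le_log hρ hρB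
  have h2 : (m : ℝ) ≤ n := by exact_mod_cast h
  nlinarith [mul_nonneg (sub_nonneg.2 h1) (sub_nonneg.2 h2)]

/-- The bound for one term. -/
theorem term_le {n m N : ℕ} {ρ C a : ℝ} (h : Lg n ρ - Lg m ρ ≤ C)
    (ha : a ≤ Real.exp (-(max C 0)) / (4 * ((N : ℝ) + 1))) :
    a * Real.exp (Lg n ρ) ≤ Real.exp (Lg m ρ) / (4 * ((N : ℝ) + 1)) := by
  have h1 : Real.exp (-(max C 0)) * Real.exp (Lg n ρ) ≤ Real.exp (Lg m ρ) := by
    rw [← Real.exp_add, Real.exp_le_exp]
    have := le_max_left C 0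
    linarith
  calc a * Real.exp (Lg n ρ) ≤ Real.exp (-(max C 0)) / (4 * ((N : ℝ) + 1)) * Real.exp (Lg n ρ) :=
        mul_le_mul_of_nonneg_right ha (Real.exp_pos _).le
    _ = Real.exp (-(max C 0)) * Real.exp (Lg n ρ) / (4 * ((N : ℝ) + 1)) := by ring
    _ ≤ _ := div_le_div_of_nonneg_right h1 (by positivity)

end DOM

open DOM in
theorem DOM_thm (h1 : GRO_Stmt) : DOM_Stmt := by
  intro x A B m N hA hAB hmN hxm hlow hmid hhigh htail z hAz hzB hz0
  obtain ⟨ρ, hρ⟩ : ∃ ρ : ℝ, ρ = ‖z‖ := ⟨_, rfl⟩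
  rw [← hρ] at hAz hzB
  have hρ0 : 0 < ρ := hA.trans_le hAz
  have hB0 : 0 < B := hρ0.trans_le hzB
  obtain ⟨E, hE⟩ : ∃ E : ℝ, E = Real.exp (Lg m ρ) := ⟨_, rfl⟩
  have hE0 : 0 < E := by rw [hE]; exact Real.exp_pos _
  have hN : (0 : ℝ) < 4 * ((N : ℝ) + 1) := by positivity
  -- the terms
  let T : ℕ → ℂ := fun n => x n * z ^ n / (Real.sqrt (n.factorial : ℝ) : ℂ)
  have hTn : ∀ n, ‖T n‖ = ‖x n‖ * Real.exp (Lg n ρ) := by
    intro n
    show ‖x n * z ^ n / (Real.sqrt (n.factorial : ℝ) : ℂ)‖ = _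
    rw [norm_div, norm_mul, norm_pow, Complex.norm_real, Real.norm_of_nonneg (sqrt_fac_pos n).le,
      ← hρ, exp_Lg n hρ0, mul_div_assoc]
  let g : ℕ → ℝ := fun k => if N < k then (k : ℝ) * B ^ k / Real.sqrt (k.factorial : ℝ) else 0
  let v : ℕ → ℝ := fun n => if n ∈ Finset.range (N + 1) then E / (4 * ((N : ℝ) + 1)) else 0
  let w : ℕ → ℝ := fun n => (ρ / B) ^ m * g n
  have hg0 : ∀ k, 0 ≤ g k := by
    intro k
    show 0 ≤ if N < k then (k : ℝ) * B ^ k / Real.sqrt (k.factorial : ℝ) else 0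
    split_ifs
    · positivity
    · exact le_rfl
  have hgs : Summable g := by
    refine Summable.of_nonneg_of_le hg0 (fun k => ?_) (h1.1 B)
    show (if N < k then (k : ℝ) * B ^ k / Real.sqrt (k.factorial : ℝ) else 0) ≤ _
    split_ifs
    · apply div_le_div_of_nonneg_right _ (sqrt_fac_pos k).le
      apply mul_le_mul_of_nonneg_right _ (by positivity)
      linarith
    · positivity
  have hvs : HasSum v (∑ n ∈ Finset.range (N + 1), v n) :=
    hasSum_sum_of_ne_finset_zero fun n hn => if_neg hn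
  have hvsum : ∑ n ∈ Finset.range (N + 1), v n = E / 4 := by
    have : ∀ n ∈ Finset.range (N + 1), v n = E / (4 * ((N : ℝ) + 1)) := fun n hn => if_pos hn
    rw [Finset.sum_congr rfl this, Finset.sum_const, Finset.card_range, nsmul_eq_mul]
    push_cast
    field_simp
  have hws : Summable w := hgs.mul_left _
  have hwsum : ∑' n, w n ≤ E / 4 := by
    show ∑' n, (ρ / B) ^ m * g n ≤ E / 4
    rw [tsum_mul_left]
    have h2 : (ρ / B) ^ m * (Real.exp (Lg m B) / 4) = E / 4 := by
      rw [hE, exp_Lg m hρ0, exp_Lg m hB0, div_pow]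
      have := sqrt_fac_pos m
      field_simp
    rw [← h2]
    exact mul_le_mul_of_nonneg_left htail (by positivity)
  -- the bound for the terms
  have hb : ∀ n, n ≠ m → ‖T n‖ ≤ v n + w n := by
    intro n hn
    rw [hTn]
    rcases lt_or_gt_of_ne hn with h | h
    · have h2 : n ∈ Finset.range (N + 1) := Finset.mem_range.2 (by omega)
      have h3 := term_le (N := N) (Lg_diff_le h.le hA hAz) (hlow n h)
      rw [← hE] at h3
      have h4 : v n = E / (4 * ((N : ℝ) + 1)) := if_pos h2
      have h5 : 0 ≤ w n := mul_nonneg (by positivity) (hg0 n)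
      linarith
    · rcases le_or_gt n N with h' | h'
      · have h2 : n ∈ Finset.range (N + 1) := Finset.mem_range.2 (by omega)
        have h3 := term_le (N := N) (Lg_diff_le' h.le hρ0 hzB) (hmid n h h')
        rw [← hE] at h3
        have h4 : v n = E / (4 * ((N : ℝ) + 1)) := if_pos h2
        have h5 : 0 ≤ w n := mul_nonneg (by positivity) (hg0 n)
        linarith
      · have h2 : n ∉ Finset.range (N + 1) := fun h => by
          rw [Finset.mem_range] at h
          omega
        have h4 : v n = 0 := if_neg h2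
        have h5 : w n = (ρ / B) ^ m * ((n : ℝ) * B ^ n / Real.sqrt (n.factorial : ℝ)) := by
          show (ρ / B) ^ m * (if N < n then (n : ℝ) * B ^ n / Real.sqrt (n.factorial : ℝ) else 0) = _
          rw [if_pos h']
        rw [h4, h5, zero_add, exp_Lg n hρ0]
        have h6 : (ρ / B) ^ n ≤ (ρ / B) ^ m :=
          pow_le_pow_of_le_one (by positivity) ((div_le_one hB0).2 hzB) h.le
        have h7 : ρ ^ n / Real.sqrt (n.factorial : ℝ) =
            (ρ / B) ^ n * (B ^ n / Real.sqrt (n.factorial : ℝ)) := by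
          rw [div_pow]
          field_simp
        rw [h7]
        have h8 := hhigh n h'
        calc ‖x n‖ * ((ρ / B) ^ n * (B ^ n / Real.sqrt (n.factorial : ℝ)))
            ≤ (n : ℝ) * ((ρ / B) ^ m * (B ^ n / Real.sqrt (n.factorial : ℝ))) := by
              apply mul_le_mul h8 _ (by positivity) (by positivity)
              exact mul_le_mul_of_nonneg_right h6 (by positivity)
          _ = _ := by ring
  -- the remainder
  let T' : ℕ → ℂ := fun n => if n = m then 0 else T n
  have hb' : ∀ n, ‖T' n‖ ≤ v n + w n := by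
    intro n
    show ‖if n = m then 0 else T n‖ ≤ _
    by_cases h : n = m
    · rw [if_pos h, norm_zero]
      have h5 : 0 ≤ w n := mul_nonneg (by positivity) (hg0 n)
      have h6 : 0 ≤ v n := by
        show 0 ≤ if n ∈ Finset.range (N + 1) then E / (4 * ((N : ℝ) + 1)) else 0
        split_ifs
        · positivity
        · exact le_rfl
      linarith
    · rw [if_neg h]
      exact hb n h
  have hvw : Summable fun n => v n + w n := hvs.summable.add hws
  have hT'n : Summable fun n => ‖T' n‖ :=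
    Summable.of_nonneg_of_le (fun _ => norm_nonneg _) hb' hvw
  have hT' : Summable T' := hT'n.of_norm
  have hTs : Summable T := by
    have h2 : Summable fun n => if n = m then T n else 0 :=
      (hasSum_ite_eq m (T m)).summable.congr fun n => by
        by_cases h : n = m
        · rw [if_pos h, if_pos h, h]
        · rw [if_neg h, if_neg h]
    refine (hT'.add h2).congr fun n => ?_
    show (if n = m then 0 else T n) + (if n = m then T n else 0) = T n
    by_cases h : n = m
    · rw [if_pos h, if_pos h, zero_add]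
    · rw [if_neg h, if_neg h, add_zero]
  have hsum : ser x z = T m + ∑' n, T' n := hTs.tsum_eq_add_tsum_ite m
  have hrem : ‖∑' n, T' n‖ ≤ E / 2 := by
    calc ‖∑' n, T' n‖ ≤ ∑' n, ‖T' n‖ := norm_tsum_le_tsum_norm hT'n
      _ ≤ ∑' n, (v n + w n) := hT'n.tsum_le_tsum hb' hvw
      _ = ∑' n, v n + ∑' n, w n := hvs.summable.tsum_add hws
      _ ≤ E / 4 + E / 4 := by
          rw [hvs.tsum_eq, hvsum]
          linarith
      _ = E / 2 := by ring
  have hmain : E ≤ ‖T m‖ := by
    rw [hTn, ← hE]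
    nlinarith
  rw [hsum] at hz0
  have h3 : T m = -∑' n, T' n := eq_neg_of_add_eq_zero_left hz0
  rw [h3, norm_neg] at hmain
  linarith

end Pool.Agent.HA
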