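import Pool.Agent.HA.Stmts

/-!
Module EXI: existence of an independent sequence of standard complex Gaussians.
-/

namespace Pool.Agent.HA

open MeasureTheory ProbabilityTheory Filter Topology Pool.Agent.GH

/-- Existence of an independent sequence of standard complex Gaussians. -/
theorem EXI_thm (h1 : GSB_Stmt) : EXI_Stmt := by
  have hp : IsProbabilityMeasure stdC := h1.1
  refine ⟨ℕ → ℂ, inferInstance, Measure.infinitePi (fun _ : ℕ => stdC), fun n x => x n, ?_⟩
  refine ⟨inferInstance, fun n => measurable_pi_apply n, ?_, fun n => ?_⟩
  · exact iIndepFun_infinitePi (X := fun (_ : ℕ) (w : ℂ) => w) (fun _ => measurable_id)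
  · exact (measurePreserving_eval_infinitePi (fun _ : ℕ => stdC) n).map_eq

end Pool.Agent.HA
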