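import Pool.Agent.HA.Stmts

/-!
Module GRO (MP_629fb1_pr): growth of the series with coefficients `‖x n‖ ≤ H (n + 1)`.
-/

namespace Pool.Agent.HA

open MeasureTheory ProbabilityTheory Filter Topology Pool.Agent.GH

universe u

namespace GRO

/-- Polynomial times geometric. -/
theorem summable_sq_geo {q : ℝ} (hq : 1 < q) :
    Summable (fun n : ℕ => (((n : ℝ) + 1) / q ^ n) ^ 2) := by
  have hq0 : 0 < q := by linarith
  have hr : ‖(1 / q ^ 2 : ℝ)‖ < 1 := by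
    rw [Real.norm_of_nonneg (by positivity), div_lt_one (by positivity)]
    nlinarith
  have h2 := summable_pow_mul_geometric_of_norm_lt_one 2 hr
  have h1 := summable_pow_mul_geometric_of_norm_lt_one 1 hr
  have h0 := summable_pow_mul_geometric_of_norm_lt_one 0 hr
  have h := (h2.add (h1.mul_left 2)).add h0
  refine h.congr fun n => ?_
  have hq' : (1 / q ^ 2 : ℝ) ^ n = 1 / (q ^ n) ^ 2 := by
    rw [div_pow, one_pow, ← pow_mul, ← pow_mul, mul_comm 2 n]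
  rw [hq', div_pow]
  ring

/-- The elementary identity for the terms. -/
theorem term_eq {q : ℝ} (hq : 0 < q) (ρ : ℝ) (n : ℕ) :
    ((n : ℝ) + 1) * ρ ^ n / Real.sqrt (n.factorial : ℝ) =
      (((n : ℝ) + 1) / q ^ n) * ((q * ρ) ^ n / Real.sqrt (n.factorial : ℝ)) := by
  have h1 : q ^ n ≠ 0 := by positivity
  have h2 : Real.sqrt (n.factorial : ℝ) ≠ 0 := by
    have : (0 : ℝ) < (n.factorial : ℝ) := by exact_mod_cast n.factorial_pos
    positivity
  rw [mul_pow]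
  field_simp

/-- The square of the second factor. -/
theorem sq_eq (y : ℝ) (n : ℕ) :
    (y ^ n / Real.sqrt (n.factorial : ℝ)) ^ 2 = (y ^ 2) ^ n / (n.factorial : ℝ) := by
  rw [div_pow, Real.sq_sqrt (by positivity), ← pow_mul, ← pow_mul, mul_comm n 2]

theorem summable_base (ρ : ℝ) :
    Summable (fun n : ℕ => ((n : ℝ) + 1) * ρ ^ n / Real.sqrt (n.factorial : ℝ)) := by
  have hA := summable_sq_geo (q := 2) (by norm_num)
  have hB : Summable (fun n : ℕ => ((2 * ρ) ^ n / Real.sqrt (n.factorial : ℝ)) ^ 2) := by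
    refine (Real.summable_pow_div_factorial ((2 * ρ) ^ 2)).congr fun n => ?_
    rw [sq_eq]
  refine Summable.of_norm_bounded ((hA.add hB).mul_left (1 / 2)) fun n => ?_
  rw [term_eq (q := 2) (by norm_num) ρ n, Real.norm_eq_abs, abs_le]
  constructor
  · nlinarith [sq_nonneg ((((n : ℝ) + 1) / 2 ^ n) + ((2 * ρ) ^ n / Real.sqrt (n.factorial : ℝ)))]
  · nlinarith [sq_nonneg ((((n : ℝ) + 1) / 2 ^ n) - ((2 * ρ) ^ n / Real.sqrt (n.factorial : ℝ)))]

/-- The bound for the partial sums of the majorant. -/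
theorem bound_base {δ : ℝ} (hδ : 0 < δ) :
    ∃ C : ℝ, 0 ≤ C ∧ ∀ (ρ : ℝ) (N : ℕ),
      ∑ n ∈ Finset.range N, ((n : ℝ) + 1) * ρ ^ n / Real.sqrt (n.factorial : ℝ) ≤
        Real.exp (C + (1 / 2 + δ) * ρ ^ 2) := by
  have hq2 : (1 : ℝ) < 1 + 2 * δ := by linarith
  have hq : 1 < Real.sqrt (1 + 2 * δ) := by
    rw [Real.lt_sqrt (by norm_num)]
    linarith
  have hqs : Real.sqrt (1 + 2 * δ) ^ 2 = 1 + 2 * δ := Real.sq_sqrt (by linarith)
  obtain ⟨q, hqdef⟩ : ∃ q, q = Real.sqrt (1 + 2 * δ) := ⟨_, rfl⟩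
  rw [← hqdef] at hq hqs
  have hq0 : 0 < q := by linarith
  have hS := summable_sq_geo hq
  obtain ⟨S, hSdef⟩ : ∃ S, S = ∑' n : ℕ, (((n : ℝ) + 1) / q ^ n) ^ 2 := ⟨_, rfl⟩
  have hS0 : 0 ≤ S := by
    rw [hSdef]
    exact tsum_nonneg fun n => sq_nonneg _
  refine ⟨S, hS0, fun ρ N => ?_⟩
  have h1 : ∑ n ∈ Finset.range N, (((n : ℝ) + 1) / q ^ n) ^ 2 ≤ S := by
    rw [hSdef]
    exact hS.sum_le_tsum _ fun n _ => sq_nonneg _
  have h2 : ∑ n ∈ Finset.range N, ((q * ρ) ^ n / Real.sqrt (n.factorial : ℝ)) ^ 2 ≤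
      Real.exp ((1 + 2 * δ) * ρ ^ 2) := by
    have h3 : ∑ n ∈ Finset.range N, ((q * ρ) ^ n / Real.sqrt (n.factorial : ℝ)) ^ 2 =
        ∑ n ∈ Finset.range N, ((1 + 2 * δ) * ρ ^ 2) ^ n / (n.factorial : ℝ) := by
      refine Finset.sum_congr rfl fun n _ => ?_
      rw [sq_eq, mul_pow q ρ 2, hqs]
    rw [h3]
    exact Real.sum_le_exp_of_nonneg (by positivity) N
  have hCS := Finset.sum_mul_sq_le_sq_mul_sq (Finset.range N)
    (fun n : ℕ => ((n : ℝ) + 1) / q ^ n)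
    (fun n : ℕ => (q * ρ) ^ n / Real.sqrt (n.factorial : ℝ))
  have hsum : ∑ n ∈ Finset.range N, ((n : ℝ) + 1) * ρ ^ n / Real.sqrt (n.factorial : ℝ) =
      ∑ n ∈ Finset.range N, (((n : ℝ) + 1) / q ^ n) *
        ((q * ρ) ^ n / Real.sqrt (n.factorial : ℝ)) :=
    Finset.sum_congr rfl fun n _ => term_eq hq0 ρ n
  rw [hsum]
  have hE : Real.exp (S + (1 / 2 + δ) * ρ ^ 2) ^ 2 =
      Real.exp (2 * S) * Real.exp ((1 + 2 * δ) * ρ ^ 2) := by
    rw [← Real.exp_nat_mul, ← Real.exp_add]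
    congr 1
    push_cast
    ring
  have hSe : S ≤ Real.exp (2 * S) := by
    have := Real.add_one_le_exp (2 * S)
    linarith
  refine abs_le_of_sq_le_sq' ?_ (Real.exp_pos _).le |>.2
  rw [hE]
  refine hCS.trans ?_
  refine mul_le_mul (h1.trans hSe) h2 (Finset.sum_nonneg fun n _ => sq_nonneg _)
    (Real.exp_pos _).le

/-- The terms are bounded by the majorant. -/
theorem norm_term_le {x : ℕ → ℂ} {H : ℝ} (hx : ∀ n : ℕ, ‖x n‖ ≤ H * ((n : ℝ) + 1))
    {z : ℂ} {R : ℝ} (hz : ‖z‖ ≤ R) (n : ℕ) :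
    ‖x n * z ^ n / (Real.sqrt (n.factorial : ℝ) : ℂ)‖ ≤
      H * (((n : ℝ) + 1) * R ^ n / Real.sqrt (n.factorial : ℝ)) := by
  rw [norm_div, norm_mul, norm_pow, Complex.norm_real, Real.norm_of_nonneg (Real.sqrt_nonneg _)]
  have hf : (0 : ℝ) < Real.sqrt (n.factorial : ℝ) := by
    have : (0 : ℝ) < (n.factorial : ℝ) := by exact_mod_cast n.factorial_pos
    positivity
  have h1 : ‖x n‖ * ‖z‖ ^ n ≤ (H * ((n : ℝ) + 1)) * R ^ n :=
    mul_le_mul (hx n) (pow_le_pow_left₀ (norm_nonneg _) hz n) (by positivity)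
      ((norm_nonneg _).trans (hx n))
  calc ‖x n‖ * ‖z‖ ^ n / Real.sqrt (n.factorial : ℝ)
      ≤ (H * ((n : ℝ) + 1)) * R ^ n / Real.sqrt (n.factorial : ℝ) :=
        div_le_div_of_nonneg_right h1 hf.le
    _ = H * (((n : ℝ) + 1) * R ^ n / Real.sqrt (n.factorial : ℝ)) := by ring

end GRO

/-- Growth of the series. -/
theorem GRO_thm : GRO_Stmt := by
  refine ⟨GRO.summable_base, fun δ hδ => ?_⟩
  obtain ⟨C, hC, hbd⟩ := GRO.bound_base hδ
  refine ⟨C, hC, fun x H hH hx => ?_⟩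
  have hsummable : ∀ z : ℂ,
      Summable (fun n : ℕ => x n * z ^ n / (Real.sqrt (n.factorial : ℝ) : ℂ)) := fun z =>
    Summable.of_norm_bounded ((GRO.summable_base ‖z‖).mul_left H)
      fun n => GRO.norm_term_le hx le_rfl n
  have hlim : ∀ z, Tendsto (fun N => serN x N z) atTop (𝓝 (ser x z)) := fun z =>
    (hsummable z).hasSum.tendsto_sum_nat
  have hN : ∀ z N, ‖serN x N z‖ ≤ H * Real.exp (C + (1 / 2 + δ) * ‖z‖ ^ 2) := by
    intro z N
    calc ‖serN x N z‖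
        ≤ ∑ n ∈ Finset.range N, ‖x n * z ^ n / (Real.sqrt (n.factorial : ℝ) : ℂ)‖ :=
          norm_sum_le _ _
      _ ≤ ∑ n ∈ Finset.range N, H * (((n : ℝ) + 1) * ‖z‖ ^ n / Real.sqrt (n.factorial : ℝ)) :=
          Finset.sum_le_sum fun n _ => GRO.norm_term_le hx le_rfl n
      _ = H * ∑ n ∈ Finset.range N, ((n : ℝ) + 1) * ‖z‖ ^ n / Real.sqrt (n.factorial : ℝ) := by
          rw [Finset.mul_sum]
      _ ≤ H * Real.exp (C + (1 / 2 + δ) * ‖z‖ ^ 2) :=
          mul_le_mul_of_nonneg_left (hbd ‖z‖ N) hH.le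
  refine ⟨?_, hlim, hN, fun z => ?_⟩
  · intro z
    have hdiff : DifferentiableOn ℂ
        (fun w : ℂ => ∑' n : ℕ, x n * w ^ n / (Real.sqrt (n.factorial : ℝ) : ℂ))
        (Metric.ball 0 (‖z‖ + 1)) := by
      refine Complex.differentiableOn_tsum_of_summable_norm
        ((GRO.summable_base (‖z‖ + 1)).mul_left H) (fun n => ?_) Metric.isOpen_ball
        (fun n w hw => GRO.norm_term_le hx ?_ n)
      · exact (((differentiable_id.pow n).const_mul (x n)).div_const _).differentiableOn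
      · exact (mem_ball_zero_iff.mp hw).le
    have hz : z ∈ Metric.ball (0 : ℂ) (‖z‖ + 1) := by
      rw [mem_ball_zero_iff]
      linarith
    exact hdiff.differentiableAt (Metric.isOpen_ball.mem_nhds hz)
  · exact le_of_tendsto' (hlim z).norm (hN z)

end Pool.Agent.HA
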