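import Pool.Agent.GH.Defs

/-!
Definitions for the exact hole probability exponent of closed annuli (MP_629fb1_pr).
The Gaussian entire function, the hole probability `holeP` and the capacity `cap` are those of
`Pool.Agent.GH.Defs`.
-/

namespace Pool.Agent.HA

open MeasureTheory ProbabilityTheory Filter Topology Pool.Agent.GH

universe u

/-- The closed annulus with radii `a` and `b`. -/
def ann (a b : ℝ) : Set ℂ := {z | a ≤ ‖z‖ ∧ ‖z‖ ≤ b}

/-- The profile `φ_t(x) = x log t - (x log x - x)/2`, the limit of `r^-2 log ((t r)^n / √n!)`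
for `n = x r^2`. -/
noncomputable def phi (t x : ℝ) : ℝ := x * Real.log t - (x * Real.log x - x) / 2

/-- The exponent for the annulus with `μ r^2` zeros in the inner disk. -/
noncomputable def Phi (a b μ : ℝ) : ℝ :=
  2 * (∫ x in (0 : ℝ)..μ, max (phi a x - phi a μ) 0) +
    2 * ∫ x in Set.Ioi μ, max (phi b x - phi b μ) 0

/-- The exponent of the annulus: the infimum over `μ ≥ 0`. -/
noncomputable def Cexp (a b : ℝ) : ℝ := sInf (Phi a b '' Set.Ici 0)

/-! ### Auxiliary definitions (not used in the final statement) -/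

/-- The series of the Gaussian entire function with coefficients `x`. -/
noncomputable def ser (x : ℕ → ℂ) (z : ℂ) : ℂ :=
  ∑' n : ℕ, x n * z ^ n / (Real.sqrt (n.factorial : ℝ) : ℂ)

/-- Its partial sums. -/
noncomputable def serN (x : ℕ → ℂ) (N : ℕ) (z : ℂ) : ℂ :=
  ∑ n ∈ Finset.range N, x n * z ^ n / (Real.sqrt (n.factorial : ℝ) : ℂ)

/-- The logarithm of `ρ^n / √n!`. -/
noncomputable def Lg (n : ℕ) (ρ : ℝ) : ℝ :=
  (n : ℝ) * Real.log ρ - Real.log (n.factorial : ℝ) / 2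

/-- The finite exponent of the annulus `A ≤ |z| ≤ B` when the term of degree `m` dominates. -/
noncomputable def TT (m N : ℕ) (A B : ℝ) : ℝ :=
  2 * (∑ n ∈ Finset.range m, max (Lg n A - Lg m A) 0) +
    2 * ∑ n ∈ Finset.Ioc m N, max (Lg n B - Lg m B) 0

/-- The mean of `log |f|` on the circle of radius `ρ`. -/
noncomputable def J (x : ℕ → ℂ) (ρ : ℝ) : ℝ :=
  Real.circleAverage (fun z => Real.log ‖ser x z‖) 0 ρ

/-- The function `|w|^(η-2)` cut off outside the disk of radius `R`. -/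
noncomputable def hh (η R : ℝ) (w : ℂ) : ENNReal :=
  if ‖w‖ ≤ R then ENNReal.ofReal (‖w‖ ^ (η - 2)) else 0

/-- The generalised Vandermonde matrix of the window `n0, ..., n0 + k - 1` of coefficients. -/
noncomputable def VM (n0 k : ℕ) (z : Fin k → ℂ) : Matrix (Fin k) (Fin k) ℂ :=
  Matrix.of fun j i => z j ^ (n0 + (i : ℕ)) / (Real.sqrt ((n0 + (i : ℕ)).factorial : ℝ) : ℂ)

/-- The first `Na` points are on the circle of radius `A`, the others on that of radius `B`. -/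
def Two (A B : ℝ) (Na Nb : ℕ) (z : Fin (Na + Nb) → ℂ) : Prop :=
  (∀ j : Fin (Na + Nb), (j : ℕ) < Na → ‖z j‖ = A) ∧
    ∀ j : Fin (Na + Nb), Na ≤ (j : ℕ) → ‖z j‖ = B

/-- The event: no zero in `A ≤ |z| ≤ B`, and moderate coefficients. -/
def Ev {Ω : Type u} (ξ : ℕ → Ω → ℂ) (A B H : ℝ) : Set Ω :=
  {ω | (∀ z : ℂ, A ≤ ‖z‖ → ‖z‖ ≤ B → gef ξ ω z ≠ 0) ∧
    ∀ n : ℕ, ‖ξ n ω‖ ≤ H * ((n : ℝ) + 1)}

/-- The coefficients at `ω`. -/
def co {Ω : Type u} (ξ : ℕ → Ω → ℂ) (ω : Ω) : ℕ → ℂ := fun n => ξ n ω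

end Pool.Agent.HA
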