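import Pool.Agent.GH.Stmts
import Pool.Agent.HA.Defs

/-!
Statements of the modules (see PAPER.md for the proofs).
-/

namespace Pool.Agent.HA

open MeasureTheory ProbabilityTheory Filter Topology Pool.Agent.GH

universe u

/-! ### Part G: Gaussian variables -/

/-- The standard complex Gaussian. -/
def GSB_Stmt : Prop :=
  IsProbabilityMeasure stdC ∧
  (∀ t : ℝ, 0 ≤ t → (stdC (Metric.closedBall (0 : ℂ) t)ᶜ).toReal = Real.exp (-t ^ 2)) ∧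
  (∀ t : ℝ, 0 ≤ t → (stdC (Metric.closedBall (0 : ℂ) t)).toReal = 1 - Real.exp (-t ^ 2)) ∧
  (∀ t : ℝ, 0 ≤ t → (stdC {w : ℂ | t ≤ ‖w‖}).toReal = Real.exp (-t ^ 2)) ∧
  ∀ F : ℂ → ENNReal, Measurable F →
    ∫⁻ w, F w ∂stdC ≤ ENNReal.ofReal (1 / Real.pi) * ∫⁻ w, F w

/-- Existence of an independent sequence of standard complex Gaussians. -/
def EXI_Stmt : Prop := ∃ (Ω : Type) (_ : MeasurableSpace Ω) (P : Measure Ω) (ξ : ℕ → Ω → ℂ),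
  IsGauss P ξ

/-- The box event for the lower bound. -/
def BOX_Stmt : Prop := ∀ {Ω : Type u} [MeasurableSpace Ω] (P : Measure Ω) (ξ : ℕ → Ω → ℂ),
  IsGauss P ξ → ∀ (m N : ℕ) (c : ℕ → ℝ), m ≤ N → (∀ n, 0 < c n ∧ c n ≤ 1) →
    1 / 2 * Real.exp (-1) * ∏ n ∈ (Finset.range (N + 1)).erase m, (c n ^ 2 / 2) ≤
      (P {ω | 1 ≤ ‖ξ m ω‖ ∧ (∀ n, n ≤ N → n ≠ m → ‖ξ n ω‖ ≤ c n) ∧
        ∀ n, N < n → ‖ξ n ω‖ ≤ (n : ℝ)}).toReal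

/-- Large coefficients are improbable. -/
def TLP_Stmt : Prop := ∀ {Ω : Type u} [MeasurableSpace Ω] (P : Measure Ω) (ξ : ℕ → Ω → ℂ),
  IsGauss P ξ → ∀ H : ℝ, 1 ≤ H →
    (P {ω | ¬ ∀ n : ℕ, ‖ξ n ω‖ ≤ H * ((n : ℝ) + 1)}).toReal ≤ 2 * Real.exp (-H ^ 2)

/-! ### Part D: lower bound for the probability -/

/-- Growth of the series. -/
def GRO_Stmt : Prop :=
  (∀ ρ : ℝ, Summable (fun n : ℕ => ((n : ℝ) + 1) * ρ ^ n / Real.sqrt (n.factorial : ℝ))) ∧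
  ∀ δ : ℝ, 0 < δ → ∃ C : ℝ, 0 ≤ C ∧ ∀ (x : ℕ → ℂ) (H : ℝ), 0 < H →
    (∀ n : ℕ, ‖x n‖ ≤ H * ((n : ℝ) + 1)) →
    Differentiable ℂ (ser x) ∧
    (∀ z, Tendsto (fun N => serN x N z) atTop (𝓝 (ser x z))) ∧
    (∀ z N, ‖serN x N z‖ ≤ H * Real.exp (C + (1 / 2 + δ) * ‖z‖ ^ 2)) ∧
    ∀ z, ‖ser x z‖ ≤ H * Real.exp (C + (1 / 2 + δ) * ‖z‖ ^ 2)

/-- One dominating coefficient. -/
def DOM_Stmt : Prop := ∀ (x : ℕ → ℂ) (A B : ℝ) (m N : ℕ), 0 < A → A ≤ B → m ≤ N →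
  1 ≤ ‖x m‖ →
  (∀ n, n < m → ‖x n‖ ≤ Real.exp (-(max (Lg n A - Lg m A) 0)) / (4 * ((N : ℝ) + 1))) →
  (∀ n, m < n → n ≤ N →
    ‖x n‖ ≤ Real.exp (-(max (Lg n B - Lg m B) 0)) / (4 * ((N : ℝ) + 1))) →
  (∀ n, N < n → ‖x n‖ ≤ (n : ℝ)) →
  (∑' k : ℕ, (if N < k then (k : ℝ) * B ^ k / Real.sqrt (k.factorial : ℝ) else 0)) ≤
    Real.exp (Lg m B) / 4 →
  ∀ z : ℂ, A ≤ ‖z‖ → ‖z‖ ≤ B → ser x z ≠ 0

/-- The finite lower bound for the hole probability of an annulus. -/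
def LBF_Stmt : Prop := ∀ {Ω : Type u} [MeasurableSpace Ω] (P : Measure Ω) (ξ : ℕ → Ω → ℂ),
  IsGauss P ξ → ∀ (a b r : ℝ) (m N : ℕ), 0 < a → a ≤ b → 0 < r → m ≤ N →
    (∑' k : ℕ, (if N < k then (k : ℝ) * (r * b) ^ k / Real.sqrt (k.factorial : ℝ) else 0)) ≤
      Real.exp (Lg m (r * b)) / 4 →
    1 / 2 * Real.exp (-1) * (Real.exp (-(TT m N (r * a) (r * b))) /
      (32 * ((N : ℝ) + 1) ^ 2) ^ N) ≤ holeP P ξ (ann a b) r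

/-- The asymptotic lower bound, for every fraction of zeros inside. -/
def LBA_Stmt : Prop := ∀ {Ω : Type u} [MeasurableSpace Ω] (P : Measure Ω) (ξ : ℕ → Ω → ℂ),
  IsGauss P ξ → ∀ a b μ : ℝ, 0 < a → a < b → 0 ≤ μ → HoleLB P ξ (ann a b) (Phi a b μ)

/-! ### Part R: Riemann sums -/

/-- Asymptotics of `Lg`. -/
def LGA_Stmt : Prop := ∀ (t r : ℝ) (n : ℕ), 0 < t → 0 < r →
  |Lg n (r * t) - r ^ 2 * phi t ((n : ℝ) / r ^ 2)| ≤ 1 + Real.log ((n : ℝ) + 1)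

/-- Where the profile and its discrete version are small; integrability; continuity. -/
def PHS_Stmt : Prop :=
  (∀ t : ℝ, Continuous (phi t)) ∧
  (∀ b μ x : ℝ, 0 < b → 0 ≤ μ → μ < x → 3 * b ^ 2 ≤ x → phi b x ≤ phi b μ) ∧
  (∀ (B : ℝ) (m n : ℕ), 0 < B → m < n → 3 * B ^ 2 ≤ (n : ℝ) → Lg n B ≤ Lg m B) ∧
  ∀ b μ : ℝ, 0 < b → 0 ≤ μ →
    IntegrableOn (fun x => max (phi b x - phi b μ) 0) (Set.Ioi μ) ∧
    ∫ x in Set.Ioi μ, max (phi b x - phi b μ) 0 =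
      ∫ x in μ..(max μ (3 * b ^ 2)), max (phi b x - phi b μ) 0

/-- Uniform Riemann sums for the profile. -/
def RSU_Stmt : Prop := ∀ t X ε : ℝ, 0 < t → 0 < X → 0 < ε → ∀ᶠ r : ℝ in atTop,
  ∀ m p q : ℕ, p ≤ q → (q : ℝ) ≤ X * r ^ 2 → (m : ℝ) ≤ X * r ^ 2 →
    |(∑ n ∈ Finset.Ico p q, max (phi t ((n : ℝ) / r ^ 2) - phi t ((m : ℝ) / r ^ 2)) 0) -
      r ^ 2 * ∫ x in ((p : ℝ) / r ^ 2)..((q : ℝ) / r ^ 2),
        max (phi t x - phi t ((m : ℝ) / r ^ 2)) 0| ≤ ε * r ^ 2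

/-- The finite exponent is `r^4 Phi`, uniformly. -/
def RIE_Stmt : Prop := ∀ a b M ε : ℝ, 0 < a → a < b → 0 < M → 0 < ε →
  ∀ᶠ r : ℝ in atTop, ∀ m N : ℕ, (m : ℝ) ≤ M * r ^ 2 → 3 * b ^ 2 * r ^ 2 ≤ (N : ℝ) →
    |TT m N (r * a) (r * b) - r ^ 4 * Phi a b ((m : ℝ) / r ^ 2)| ≤ ε * r ^ 4

/-- Continuity of `Phi`. -/
def PHC_Stmt : Prop := ∀ a b : ℝ, 0 < a → 0 < b → ContinuousOn (Phi a b) (Set.Ici 0)

/-- Comparison of the exponent with that of the disk; small exponents; positivity. -/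
def CMP_Stmt : Prop :=
  (∀ a b μ : ℝ, 0 < a → a < b → 0 ≤ μ → 0 ≤ Phi a b μ) ∧
  (∀ a b : ℝ, 0 < a → a < b → Phi a b (a ^ 2) < Real.exp 2 / 4 * b ^ 4) ∧
  ∀ ε : ℝ, 0 < ε → ∃ a : ℝ, 0 < a ∧ a < 1 ∧ Phi a 1 (a ^ 2) < ε

/-- The exponent is positive. -/
def POS_Stmt : Prop := ∀ a b : ℝ, 0 < a → a < b → 0 < Cexp a b

/-! ### Part J: Jensen's formula -/

/-- Circle means of a function without zeros in an annulus. -/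
def JEN_Stmt : Prop := ∀ (f : ℂ → ℂ) (A B : ℝ), Differentiable ℂ f → 0 < A → A ≤ B →
  (∀ z : ℂ, A ≤ ‖z‖ → ‖z‖ ≤ B → f z ≠ 0) → ∃ (m : ℕ) (c : ℝ),
    (∀ ρ : ℝ, A ≤ ρ → ρ ≤ B →
      Real.circleAverage (fun z => Real.log ‖f z‖) 0 ρ = (m : ℝ) * Real.log ρ + c) ∧
    ∀ ρ : ℝ, 0 < ρ →
      (m : ℝ) * Real.log ρ + c ≤ Real.circleAverage (fun z => Real.log ‖f z‖) 0 ρ

/-- Upper bounds for the means at both radii. -/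
def JEB_Stmt : Prop := ∀ δ : ℝ, 0 < δ → ∃ C : ℝ, 0 ≤ C ∧ ∀ (x : ℕ → ℂ) (A B H : ℝ), 1 ≤ H →
  (∀ n : ℕ, ‖x n‖ ≤ H * ((n : ℝ) + 1)) → 0 < A → A ≤ B →
  (∀ z : ℂ, A ≤ ‖z‖ → ‖z‖ ≤ B → ser x z ≠ 0) → ∃ m : ℕ,
    J x A ≤ Lg m A + (Real.log H + C + δ * m + Real.log ((m : ℝ) + 1)) ∧
    J x B ≤ Lg m B + (Real.log H + C + δ * m + Real.log ((m : ℝ) + 1))

/-- Jensen's inequality over a common rotation of the points. -/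
def ROT_Stmt : Prop := ∀ (f : ℂ → ℂ) (A B s : ℝ) (Na Nb : ℕ) (z : Fin (Na + Nb) → ℂ),
  Continuous f → 0 < A → A ≤ B → (∀ w : ℂ, A ≤ ‖w‖ → ‖w‖ ≤ B → f w ≠ 0) → 0 < s →
  Two A B Na Nb z →
    Real.exp (-(s * ((Na : ℝ) * Real.circleAverage (fun w => Real.log ‖f w‖) 0 A +
      (Nb : ℝ) * Real.circleAverage (fun w => Real.log ‖f w‖) 0 B))) ≤
    (2 * Real.pi)⁻¹ * ∫ θ in (0 : ℝ)..(2 * Real.pi),
      ∏ j, ‖f (z j * Complex.exp (θ * Complex.I))‖ ^ (-s)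

/-! ### Part F: negative moments -/

/-- Integral of the cut off power. -/
def HIN_Stmt : Prop := ∀ η R : ℝ, 0 < η → 0 < R → Measurable (hh η R) ∧
  ∫⁻ w : ℂ, hh η R w = ENNReal.ofReal (2 * Real.pi * R ^ η / η)

/-- Complex linear change of variables. -/
def RJC_Stmt : Prop := ∀ (k : ℕ) (M : Matrix (Fin k) (Fin k) ℂ), M.det ≠ 0 →
  ∀ F : (Fin k → ℂ) → ENNReal, Measurable F → ∀ c : Fin k → ℂ,
    ∫⁻ x, F (M.mulVec x + c) = ENNReal.ofReal (1 / ‖M.det‖ ^ 2) * ∫⁻ w, F w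

/-- Negative moments of the values of a partial sum at `k` points. -/
def FIN_Stmt : Prop := ∀ {Ω : Type u} [MeasurableSpace Ω] (P : Measure Ω) (ξ : ℕ → Ω → ℂ),
  IsGauss P ξ → ∀ (n0 k N : ℕ) (z : Fin k → ℂ) (η R : ℝ), n0 + k ≤ N → 0 < η → 0 < R →
    (VM n0 k z).det ≠ 0 →
    ∫⁻ ω, ∏ j, hh η R (serN (co ξ ω) N (z j)) ∂P ≤
      ENNReal.ofReal ((2 * R ^ η / η) ^ k / ‖(VM n0 k z).det‖ ^ 2)

/-- Rotation of the points. -/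
def CRT_Stmt : Prop := ∀ (n0 k : ℕ) (z : Fin k → ℂ) (θ : ℝ),
  ‖(VM n0 k (fun j => z j * Complex.exp (θ * Complex.I))).det‖ = ‖(VM n0 k z).det‖

/-- Markov's inequality for the rotation average. -/
def MKV_Stmt : Prop := ∀ {Ω : Type u} [MeasurableSpace Ω] (P : Measure Ω) (ξ : ℕ → Ω → ℂ),
  IsGauss P ξ → ∀ (A B H R η γ : ℝ) (n0 Na Nb : ℕ) (z : Fin (Na + Nb) → ℂ), 0 < A → A ≤ B →
    0 < H → 0 < η → η < 2 → 0 < R → Two A B Na Nb z → (VM n0 (Na + Nb) z).det ≠ 0 →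
    (∀ x : ℕ → ℂ, (∀ n : ℕ, ‖x n‖ ≤ H * ((n : ℝ) + 1)) → Continuous (ser x) ∧
      (∀ w, Tendsto (fun N => serN x N w) atTop (𝓝 (ser x w))) ∧
      ∀ w : ℂ, ‖w‖ ≤ B → ∀ N, ‖serN x N w‖ ≤ R) →
    (P {ω | ω ∈ Ev ξ A B H ∧ (Na : ℝ) * J (co ξ ω) A + (Nb : ℝ) * J (co ξ ω) B ≤ γ}).toReal ≤
      Real.exp ((2 - η) * γ) *
        ((2 * R ^ η / η) ^ (Na + Nb) / ‖(VM n0 (Na + Nb) z).det‖ ^ 2)

/-- Regular polygons on two circles. -/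
def VDT_Stmt : Prop := ∀ (A B : ℝ) (n0 Na Nb : ℕ), 0 < A → A < B →
  ∃ z : Fin (Na + Nb) → ℂ, Two A B Na Nb z ∧
    Real.exp ((∑ n ∈ Finset.Ico n0 (n0 + Na), Lg n A) +
      ∑ n ∈ Finset.Ico (n0 + Na) (n0 + Na + Nb), Lg n B) * (1 - A / B) ^ Nb ≤
      ‖(VM n0 (Na + Nb) z).det‖

/-- The finite upper bound. -/
def UBE_Stmt : Prop := ∀ {Ω : Type u} [MeasurableSpace Ω] (P : Measure Ω) (ξ : ℕ → Ω → ℂ),
  IsGauss P ξ → ∃ C : ℝ, 0 ≤ C ∧ ∀ (A B H η γ : ℝ) (n0 Na Nb : ℕ), 0 < A → A < B →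
    1 ≤ H → 0 < η → η < 2 →
    (P {ω | ω ∈ Ev ξ A B H ∧ (Na : ℝ) * J (co ξ ω) A + (Nb : ℝ) * J (co ξ ω) B ≤ γ}).toReal ≤
      Real.exp ((2 - η) * γ - 2 * (∑ n ∈ Finset.Ico n0 (n0 + Na), Lg n A) -
        2 * (∑ n ∈ Finset.Ico (n0 + Na) (n0 + Na + Nb), Lg n B) +
        2 * Nb * Real.log (B / (B - A)) +
        ((Na : ℝ) + Nb) * (η * (Real.log H + C + B ^ 2) + Real.log (2 / η)))

/-! ### Part U: upper bound for the probability -/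

/-- Windows on which the positive parts are attained. -/
def WIN_Stmt : Prop :=
  (∀ (A : ℝ) (m : ℕ), 0 < A → ∃ k : ℕ, k ≤ m ∧
    ∑ n ∈ Finset.Ico (m - k) m, (Lg n A - Lg m A) =
      ∑ n ∈ Finset.range m, max (Lg n A - Lg m A) 0) ∧
  ∀ (B : ℝ) (m N : ℕ), 0 < B → ∃ k : ℕ, 1 ≤ k ∧ m + k ≤ max N m + 1 ∧
    ∑ n ∈ Finset.Ico m (m + k), (Lg n B - Lg m B) =
      ∑ n ∈ Finset.Ioc m N, max (Lg n B - Lg m B) 0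

/-- The finite upper bound with the exponent `TT`. -/
def UBT_Stmt : Prop := ∀ {Ω : Type u} [MeasurableSpace Ω] (P : Measure Ω) (ξ : ℕ → Ω → ℂ),
  IsGauss P ξ → ∃ C : ℝ, 0 ≤ C ∧ ∀ (A B H η E K : ℝ) (m N : ℕ), 0 < A → A < B →
    1 ≤ H → 0 < η → η < 2 → 0 ≤ E → |Lg m A| ≤ K → |Lg m B| ≤ K → m ≤ N →
    (P {ω | ω ∈ Ev ξ A B H ∧ J (co ξ ω) A ≤ Lg m A + E ∧ J (co ξ ω) B ≤ Lg m B + E}).toReal ≤
      Real.exp (-(TT m N A B) + ((N : ℝ) + 1) * (2 * E + η * K +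
        2 * Real.log (B / (B - A)) + (η * (Real.log H + C + B ^ 2) + |Real.log (2 / η)|)))

/-- The case of at most `M r^2` zeros inside. -/
def SMM_Stmt : Prop := ∀ {Ω : Type u} [MeasurableSpace Ω] (P : Measure Ω) (ξ : ℕ → Ω → ℂ),
  IsGauss P ξ → ∀ a b M L ε : ℝ, 0 < a → a < b → 0 < M → 0 < L → 0 < ε →
    ∃ δ : ℝ, 0 < δ ∧ δ ≤ 1 / 8 ∧ ∀ C : ℝ, 0 ≤ C → ∀ᶠ r : ℝ in atTop,
      ∀ m : ℕ, (m : ℝ) ≤ M * r ^ 2 →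
        (P {ω | ω ∈ Ev ξ (r * a) (r * b) (L * r ^ 2) ∧
          J (co ξ ω) (r * a) ≤ Lg m (r * a) +
            (Real.log (L * r ^ 2) + C + δ * m + Real.log ((m : ℝ) + 1)) ∧
          J (co ξ ω) (r * b) ≤ Lg m (r * b) +
            (Real.log (L * r ^ 2) + C + δ * m + Real.log ((m : ℝ) + 1))}).toReal ≤
        Real.exp (-((Cexp a b - ε) * r ^ 4))

/-- The case of more than `M r^2` zeros inside. -/
def LRM_Stmt : Prop := ∀ {Ω : Type u} [MeasurableSpace Ω] (P : Measure Ω) (ξ : ℕ → Ω → ℂ),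
  IsGauss P ξ → ∀ a b L Q : ℝ, 0 < a → a < b → 0 < L → 0 < Q →
    ∃ M : ℝ, 0 < M ∧ ∀ δ C : ℝ, 0 < δ → δ ≤ 1 / 8 → 0 ≤ C → ∀ᶠ r : ℝ in atTop,
      (P {ω | ω ∈ Ev ξ (r * a) (r * b) (L * r ^ 2) ∧ ∃ m : ℕ, M * r ^ 2 < (m : ℝ) ∧
          J (co ξ ω) (r * b) ≤ Lg m (r * b) +
            (Real.log (L * r ^ 2) + C + δ * m + Real.log ((m : ℝ) + 1))}).toReal ≤
        Real.exp (-(Q * r ^ 4))

/-- The asymptotic upper bound for the hole probability. -/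
def UBA_Stmt : Prop := ∀ {Ω : Type u} [MeasurableSpace Ω] (P : Measure Ω) (ξ : ℕ → Ω → ℂ),
  IsGauss P ξ → ∀ a b ε : ℝ, 0 < a → a < b → 0 < ε → ∀ᶠ r : ℝ in atTop,
    holeP P ξ (ann a b) r ≤ Real.exp (-((Cexp a b - ε) * r ^ 4))

/-! ### Part C: the annulus -/

/-- The capacity of the annulus is its outer radius. -/
def CPA_Stmt : Prop := ∀ a b : ℝ, 0 < a → a < b → cap (ann a b) = b

/-- Topology of the annulus. -/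
def TOP_Stmt : Prop := ∀ a b : ℝ, 0 < a → a < b →
  IsCompact (ann a b) ∧ IsConnected (ann a b) ∧ (interior (ann a b)).Nonempty

/-- The theorem. -/
def HAN_Stmt : Prop := ∀ {Ω : Type u} [MeasurableSpace Ω] (P : Measure Ω) (ξ : ℕ → Ω → ℂ),
  IsGauss P ξ → ∀ a b : ℝ, 0 < a → a < b →
    Tendsto (fun r : ℝ => -Real.log (holeP P ξ (ann a b) r) / r ^ 4) atTop (𝓝 (Cexp a b))

end Pool.Agent.HA
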