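import Mathlib
import Pool.Agent.HA.Stmts

/-!
# HAN: the exact exponent of the hole probability of annuli
-/

set_option autoImplicit false

namespace Pool.Agent.HA

open MeasureTheory ProbabilityTheory Filter Topology Pool.Agent.GH

universe u

/-- The exact exponent of the hole probability of annuli. -/
theorem HAN_thm (h1 : LBA_Stmt.{u}) (h2 : UBA_Stmt.{u}) : HAN_Stmt.{u} := by
  intro Ω _ P ξ hG a b ha hab
  rw [Metric.tendsto_nhds]
  intro ε hε
  have hne : (Phi a b '' Set.Ici 0).Nonempty := ⟨_, Set.mem_image_of_mem _ (Set.self_mem_Ici)⟩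
  obtain ⟨_, ⟨μ, hμ, rfl⟩, hμ2⟩ := exists_lt_of_csInf_lt hne
    (show sInf (Phi a b '' Set.Ici 0) < Cexp a b + ε / 4 by
      change Cexp a b < Cexp a b + ε / 4
      linarith)
  have hμ0 : 0 ≤ μ := hμ
  filter_upwards [h1 P ξ hG a b μ ha hab hμ0 (ε / 4) (by linarith),
    h2 P ξ hG a b (ε / 2) ha hab (by linarith), eventually_gt_atTop (0 : ℝ)] with r hL hU hr
  have hr4 : 0 < r ^ 4 := by positivity
  have hp : 0 < holeP P ξ (ann a b) r := (Real.exp_pos _).trans_le hL
  have hL' : -((Phi a b μ + ε / 4) * r ^ 4) ≤ Real.log (holeP P ξ (ann a b) r) :=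
    (Real.le_log_iff_exp_le hp).2 hL
  have hU' : Real.log (holeP P ξ (ann a b) r) ≤ -((Cexp a b - ε / 2) * r ^ 4) :=
    (Real.log_le_iff_le_exp hp).2 hU
  rw [Real.dist_eq, abs_lt]
  constructor
  · have : Cexp a b - ε / 2 ≤ -Real.log (holeP P ξ (ann a b) r) / r ^ 4 := by
      rw [le_div_iff₀ hr4]
      linarith
    linarith
  · have : -Real.log (holeP P ξ (ann a b) r) / r ^ 4 ≤ Phi a b μ + ε / 4 := by
      rw [div_le_iff₀ hr4]
      linarith
    linarith

end Pool.Agent.HA
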