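import Pool.Agent.HA.Stmts

/-!
Module JEB: upper bounds for the means of `log |f|` at both radii of an annulus without zeros.
-/

namespace Pool.Agent.HA

open MeasureTheory ProbabilityTheory Filter Topology Pool.Agent.GH

universe u

namespace JEB

/-- `log m! ≤ m log m - m + 1 + log m` for `m ≥ 1`. -/
lemma log_fact (m : ℕ) (hm : 1 ≤ m) :
    Real.log (m.factorial : ℝ) ≤ m * Real.log m - m + 1 + Real.log m := by
  induction m, hm using Nat.le_induction with
  | base => simp
  | succ m hm ih =>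
    have hm0 : (0 : ℝ) < m := by exact_mod_cast hm
    have hm1 : (0 : ℝ) < (m : ℝ) + 1 := by linarith
    have h1 : Real.log ((m + 1).factorial : ℝ) = Real.log ((m : ℝ) + 1) +
        Real.log (m.factorial : ℝ) := by
      rw [Nat.factorial_succ, Nat.cast_mul, Nat.cast_add, Nat.cast_one, Real.log_mul hm1.ne'
        (by exact_mod_cast (Nat.factorial_pos m).ne')]
    have h2 : 1 / ((m : ℝ) + 1) ≤ Real.log ((m : ℝ) + 1) - Real.log m := by
      have h3 := Real.one_sub_inv_le_log_of_pos (show 0 < ((m : ℝ) + 1) / m by positivity)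
      rw [Real.log_div hm1.ne' hm0.ne', inv_div] at h3
      have h4 : 1 - (m : ℝ) / ((m : ℝ) + 1) = 1 / ((m : ℝ) + 1) := by
        field_simp
        ring
      linarith
    have h5 : 1 ≤ ((m : ℝ) + 1) * (Real.log ((m : ℝ) + 1) - Real.log m) := by
      have h6 := mul_le_mul_of_nonneg_left h2 hm1.le
      rwa [mul_one_div_cancel hm1.ne'] at h6
    rw [h1]
    push_cast
    nlinarith

/-- The circle average of `log ‖f‖` is bounded by the maximum. -/
lemma avg_le {f : ℂ → ℂ} (hf : Differentiable ℂ f) {ρ M : ℝ} (hρ : 0 < ρ) (hM : 0 ≤ M)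
    (h : ∀ z : ℂ, ‖z‖ = ρ → ‖f z‖ ≤ Real.exp M) :
    Real.circleAverage (fun z => Real.log ‖f z‖) 0 ρ ≤ M := by
  apply Real.circleAverage_mono_on_of_le_circle
  · apply MeromorphicOn.circleIntegrable_log_norm
    intro z _
    exact (hf.analyticAt z).meromorphicAt
  · intro z hz
    rw [mem_sphere_zero_iff_norm, abs_of_pos hρ] at hz
    rcases eq_or_ne (f z) 0 with h0 | h0
    · simp only [h0, norm_zero, Real.log_zero]
      exact hM
    · have h1 := Real.log_le_log (norm_pos_iff.2 h0) (h z hz)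
      rwa [Real.log_exp] at h1

end JEB

open JEB in
theorem JEB_thm (h1 : JEN_Stmt) (h2 : GRO_Stmt) : JEB_Stmt := by
  intro δ hδ
  obtain ⟨C, hC0, hC⟩ := h2.2 δ hδ
  refine ⟨C + 1 + δ, by linarith, ?_⟩
  intro x A B H hH hx hA hAB hz
  obtain ⟨hdiff, -, -, hbd⟩ := hC x H (by linarith) hx
  obtain ⟨m, c, hJ, hJ'⟩ := h1 (ser x) A B hdiff hA hAB hz
  have hlogH : 0 ≤ Real.log H := Real.log_nonneg hH
  have hup : ∀ ρ : ℝ, 0 < ρ → m * Real.log ρ + c ≤ Real.log H + (C + (1 / 2 + δ) * ρ ^ 2) := by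
    intro ρ hρ
    refine (hJ' ρ hρ).trans (avg_le hdiff hρ (by positivity) ?_)
    intro z hzρ
    rw [Real.exp_add, Real.exp_log (by linarith), ← hzρ]
    exact hbd z
  have hc : c ≤ -(Real.log (m.factorial : ℝ) / 2) +
      (Real.log H + (C + 1 + δ) + δ * m + Real.log ((m : ℝ) + 1)) := by
    rcases Nat.eq_zero_or_pos m with hm | hm
    · subst hm
      have h3 := hup 1 one_pos
      simp only [Nat.cast_zero, zero_mul, zero_add, one_pow, mul_one] at h3
      simp only [Nat.factorial_zero, Nat.cast_one, Real.log_one, zero_div, neg_zero, zero_add,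
        Nat.cast_zero, mul_zero, add_zero]
      linarith
    · have hm0 : (0 : ℝ) < m := by exact_mod_cast hm
      have h3 := hup (Real.sqrt m) (Real.sqrt_pos.2 hm0)
      rw [Real.sq_sqrt hm0.le, Real.log_sqrt hm0.le] at h3
      have h4 := log_fact m hm
      have h5 : Real.log m ≤ Real.log ((m : ℝ) + 1) := Real.log_le_log hm0 (by linarith)
      have h6 : 0 ≤ Real.log m := Real.log_nonneg (by exact_mod_cast hm)
      have h7 : (1 / 2 + δ) * (m : ℝ) = m / 2 + δ * m := by ring
      rw [h7] at h3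
      nlinarith
  refine ⟨m, ?_, ?_⟩
  · have h3 := hJ A le_rfl hAB
    unfold J Lg
    rw [h3]
    linarith
  · have h3 := hJ B hAB le_rfl
    unfold J Lg
    rw [h3]
    linarith

end Pool.Agent.HA
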