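import Pool.Agent.HA.Stmts

/-!
# Module JEN: circle means of a function without zeros in an annulus
-/

namespace Pool.Agent.HA

open MeasureTheory ProbabilityTheory Filter Topology Pool.Agent.GH

namespace JEN

open MeromorphicOn in
/-- Jensen's formula at the origin for an entire function. -/
theorem jensen {f : ℂ → ℂ} (hf : Differentiable ℂ f) {ρ : ℝ} (hρ : 0 < ρ) :
    Real.circleAverage (fun z => Real.log ‖f z‖) 0 ρ =
      (∑ᶠ u, (divisor f (Metric.closedBall 0 ρ) u : ℝ) * (Real.log ρ - Real.log ‖u‖)) +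
        Real.log ‖meromorphicTrailingCoeffAt f 0‖ := by
  have han : AnalyticOnNhd ℂ f (Metric.closedBall 0 |ρ|) := fun z _ =>
    (hf.analyticAt z)
  have h1 := han.meromorphicOn.circleAverage_log_norm hρ.ne'
  have h2 := countingFunction_finsum_eq_finsum_add (c := (0 : ℂ)) hρ.ne'
    ((divisor f (Metric.closedBall 0 |ρ|)).finiteSupport (isCompact_closedBall 0 |ρ|))
  rw [h1, ← h2, abs_of_pos hρ]
  simp only [zero_sub, norm_neg]

open MeromorphicOn in
theorem div_apply {f : ℂ → ℂ} (hf : Differentiable ℂ f) {ρ : ℝ} {u : ℂ} (hu : ‖u‖ ≤ ρ) :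
    divisor f (Metric.closedBall 0 ρ) u = (analyticOrderNatAt f u : ℤ) := by
  have han : AnalyticOnNhd ℂ f (Metric.closedBall 0 ρ) := fun z _ => hf.analyticAt z
  rw [han.divisor_apply (by simpa using hu), analyticOrderNatAt]
  generalize analyticOrderAt f u = o
  cases o using ENat.recTopCoe with
  | top => simp
  | coe k => simp

open MeromorphicOn in
theorem div_zero {f : ℂ → ℂ} {ρ : ℝ} {u : ℂ} (hu : ρ < ‖u‖) :
    divisor f (Metric.closedBall 0 ρ) u = 0 := by
  apply Function.locallyFinsuppWithin.apply_eq_zero_of_notMem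
  simpa using hu

end JEN

open MeromorphicOn in
/-- JEN: circle means of a function without zeros in an annulus. -/
theorem JEN_thm : JEN_Stmt := by
  intro f A B hf hA hAB hne
  classical
  have hfin : ∀ ρ : ℝ, (Function.support fun u => divisor f (Metric.closedBall 0 ρ) u).Finite :=
    fun ρ => (divisor f (Metric.closedBall 0 ρ)).finiteSupport (isCompact_closedBall 0 ρ)
  set Z : Finset ℂ := (hfin A).toFinset with hZ
  set n : ℂ → ℕ := fun u => analyticOrderNatAt f u with hn
  have hZle : ∀ u ∈ Z, ‖u‖ ≤ A := by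
    intro u hu
    by_contra h
    have h1 : u ∈ Function.support fun u => divisor f (Metric.closedBall 0 A) u :=
      (hfin A).mem_toFinset.mp hu
    exact h1 (JEN.div_zero (not_le.mp h))
  -- sums over a finite set which contains the supports
  have hsum : ∀ (ρ : ℝ) (S : Finset ℂ), (hfin ρ).toFinset ⊆ S →
      (∑ᶠ u, (divisor f (Metric.closedBall 0 ρ) u : ℝ) * (Real.log ρ - Real.log ‖u‖)) =
        ∑ u ∈ S, (divisor f (Metric.closedBall 0 ρ) u : ℝ) * (Real.log ρ - Real.log ‖u‖) := by
    intro ρ S hS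
    apply finsum_eq_sum_of_support_subset
    intro u hu
    apply hS
    rw [(hfin ρ).mem_toFinset, Function.mem_support]
    intro h
    apply hu
    simp only [h, Int.cast_zero, zero_mul]
  refine ⟨∑ u ∈ Z, n u, Real.log ‖meromorphicTrailingCoeffAt f 0‖ -
    ∑ u ∈ Z, (n u : ℝ) * Real.log ‖u‖, ?_, ?_⟩
  · intro ρ h1 h2
    have hρ : 0 < ρ := lt_of_lt_of_le hA h1
    have hD : ∀ u, divisor f (Metric.closedBall 0 ρ) u = divisor f (Metric.closedBall 0 A) u := by
      intro u
      rcases le_or_gt ‖u‖ A with h | h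
      · rw [JEN.div_apply hf h, JEN.div_apply hf (h.trans h1)]
      · rcases le_or_gt ‖u‖ ρ with h' | h'
        · rw [JEN.div_zero h, JEN.div_apply hf h']
          have h3 : f u ≠ 0 := hne u h.le (h'.trans h2)
          have h4 : analyticOrderAt f u = 0 :=
            (hf.analyticAt u).analyticOrderAt_eq_zero.mpr h3
          simp [analyticOrderNatAt, h4]
        · rw [JEN.div_zero h, JEN.div_zero h']
    have hsub : (hfin ρ).toFinset ⊆ Z := by
      intro u hu
      rw [(hfin ρ).mem_toFinset, Function.mem_support, hD] at hu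
      rw [hZ, (hfin A).mem_toFinset, Function.mem_support]
      exact hu
    rw [JEN.jensen hf hρ, hsum ρ Z hsub]
    have h5 : ∀ u ∈ Z, (divisor f (Metric.closedBall 0 ρ) u : ℝ) *
        (Real.log ρ - Real.log ‖u‖) = (n u : ℝ) * Real.log ρ - (n u : ℝ) * Real.log ‖u‖ := by
      intro u hu
      rw [hD, JEN.div_apply hf (hZle u hu)]
      push_cast
      ring
    rw [Finset.sum_congr rfl h5, Finset.sum_sub_distrib, ← Finset.sum_mul]
    push_cast
    ring
  · intro ρ hρ
    rw [JEN.jensen hf hρ, hsum ρ ((hfin ρ).toFinset ∪ Z) Finset.subset_union_left]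
    have h6 : ((∑ u ∈ Z, n u : ℕ) : ℝ) * Real.log ρ +
        (Real.log ‖meromorphicTrailingCoeffAt f 0‖ - ∑ u ∈ Z, (n u : ℝ) * Real.log ‖u‖) =
        (∑ u ∈ (hfin ρ).toFinset ∪ Z, (divisor f (Metric.closedBall 0 A) u : ℝ) *
          (Real.log ρ - Real.log ‖u‖)) + Real.log ‖meromorphicTrailingCoeffAt f 0‖ := by
      rw [← Finset.sum_subset (Finset.subset_union_right (s₁ := (hfin ρ).toFinset) (s₂ := Z))]
      · have h5 : ∀ u ∈ Z, (divisor f (Metric.closedBall 0 A) u : ℝ) *
            (Real.log ρ - Real.log ‖u‖) = (n u : ℝ) * Real.log ρ -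
              (n u : ℝ) * Real.log ‖u‖ := by
          intro u hu
          rw [JEN.div_apply hf (hZle u hu)]
          push_cast
          ring
        rw [Finset.sum_congr rfl h5, Finset.sum_sub_distrib, ← Finset.sum_mul]
        push_cast
        ring
      · intro u _ hu
        rw [hZ, (hfin A).mem_toFinset, Function.notMem_support] at hu
        rw [hu]
        simp
    rw [h6]
    refine add_le_add_left ?_ _
    refine Finset.sum_le_sum fun u _ => ?_
    rw [← sub_nonneg, ← sub_mul]
    rcases le_or_gt ‖u‖ ρ with h | h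
    · rw [JEN.div_apply hf h]
      rcases le_or_gt ‖u‖ A with h' | h'
      · rw [JEN.div_apply hf h', sub_self, zero_mul]
      · rw [JEN.div_zero h']
        have h7 : Real.log ‖u‖ ≤ Real.log ρ := Real.log_le_log (hA.trans h') h
        refine mul_nonneg ?_ (sub_nonneg.mpr h7)
        push_cast
        simp
    · rw [JEN.div_zero h]
      have h7 : Real.log ρ ≤ Real.log ‖u‖ := Real.log_le_log hρ h.le
      refine mul_nonneg_of_nonpos_of_nonpos ?_ (sub_nonpos.mpr h7)
      rcases le_or_gt ‖u‖ A with h' | h'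
      · rw [JEN.div_apply hf h']
        push_cast
        simp
      · rw [JEN.div_zero h']
        simp

end Pool.Agent.HA
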