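import Pool.Agent.HA.Stmts

/-!
Module LBA: the asymptotic lower bound for the hole probability of an annulus.
-/

namespace Pool.Agent.HA.LBA

open MeasureTheory ProbabilityTheory Filter Topology Pool.Agent.GH

/-- Logarithms of `A r^2 + 1` are small. -/
theorem log_small (A c : ℝ) (hA : 0 < A) (hc : 0 < c) :
    ∀ᶠ r : ℝ in atTop, Real.log (A * r ^ 2 + 1) ≤ c * (A * r ^ 2 + 1) := by
  have h1 : Tendsto (fun r : ℝ => A * r ^ 2 + 1) atTop atTop :=
    tendsto_atTop_add_const_right _ _ ((tendsto_pow_atTop two_ne_zero).const_mul_atTop hA)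
  have h2 : ∀ᶠ u : ℝ in atTop, Real.log u ≤ c * u := by
    have h3 := Real.isLittleO_log_id_atTop.bound hc
    filter_upwards [h3, eventually_ge_atTop (1 : ℝ)] with u hu hu1
    have h4 : ‖Real.log u‖ = Real.log u := by
      rw [Real.norm_eq_abs, abs_of_nonneg (Real.log_nonneg hu1)]
    rw [h4] at hu
    simpa [abs_of_nonneg (zero_le_one.trans hu1)] using hu
  exact h1.eventually h2

theorem const_small (c δ : ℝ) (hδ : 0 < δ) (k : ℕ) (hk : k ≠ 0) :
    ∀ᶠ r : ℝ in atTop, c ≤ δ * r ^ k := by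
  have h1 : Tendsto (fun r : ℝ => δ * r ^ k) atTop atTop :=
    (tendsto_pow_atTop hk).const_mul_atTop hδ
  exact h1.eventually_ge_atTop c

/-- The error of the finite bound. -/
theorem err_small (A ε : ℝ) (hA : 0 < A) (hε : 0 < ε) : ∀ᶠ r : ℝ in atTop, ∀ N : ℕ,
    (N : ℝ) ≤ A * r ^ 2 →
      Real.log 2 + 1 + (N : ℝ) * Real.log (32 * ((N : ℝ) + 1) ^ 2) ≤ ε * r ^ 4 := by
  have hc : 0 < ε / (8 * A * (A + 1)) := by positivity
  filter_upwards [log_small A _ hA hc, const_small (Real.log 2 + 1) (ε / 4) (by positivity) 4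
    (by norm_num), const_small (Real.log 32) (ε / (4 * A)) (by positivity) 2 (by norm_num),
    eventually_ge_atTop (1 : ℝ)] with r h1 h2 h3 hr N hN
  have hN0 : (0 : ℝ) ≤ N := Nat.cast_nonneg N
  have hr2 : 1 ≤ r ^ 2 := one_le_pow₀ hr
  have e1 : Real.log (32 * ((N : ℝ) + 1) ^ 2) ≤ Real.log 32 + 2 * Real.log (A * r ^ 2 + 1) := by
    rw [Real.log_mul (by norm_num) (by positivity), Real.log_pow]
    have : Real.log ((N : ℝ) + 1) ≤ Real.log (A * r ^ 2 + 1) :=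
      Real.log_le_log (by positivity) (by linarith)
    push_cast
    linarith
  have e0 : 0 ≤ Real.log (32 * ((N : ℝ) + 1) ^ 2) := by
    apply Real.log_nonneg
    nlinarith
  have e2 : (N : ℝ) * Real.log (32 * ((N : ℝ) + 1) ^ 2) ≤
      A * r ^ 2 * (Real.log 32 + 2 * Real.log (A * r ^ 2 + 1)) :=
    mul_le_mul hN e1 e0 (by positivity)
  have e3 : 2 * Real.log (A * r ^ 2 + 1) ≤ 2 * (ε / (8 * A * (A + 1)) * ((A + 1) * r ^ 2)) := by
    have : ε / (8 * A * (A + 1)) * (A * r ^ 2 + 1) ≤ ε / (8 * A * (A + 1)) * ((A + 1) * r ^ 2) :=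
      mul_le_mul_of_nonneg_left (by linarith) hc.le
    linarith
  have e4 : 2 * (ε / (8 * A * (A + 1)) * ((A + 1) * r ^ 2)) = ε / (4 * A) * r ^ 2 := by
    field_simp
    ring
  have e5 : A * r ^ 2 * (Real.log 32 + 2 * Real.log (A * r ^ 2 + 1)) ≤
      A * r ^ 2 * (ε / (4 * A) * r ^ 2 + ε / (4 * A) * r ^ 2) := by
    refine mul_le_mul_of_nonneg_left ?_ (by positivity)
    rw [e4] at e3
    linarith
  have e6 : A * r ^ 2 * (ε / (4 * A) * r ^ 2 + ε / (4 * A) * r ^ 2) = ε / 2 * r ^ 4 := by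
    field_simp
    ring
  have e7 : 0 ≤ r ^ 4 := by positivity
  nlinarith

theorem floor_tendsto (μ : ℝ) (hμ : 0 ≤ μ) :
    Tendsto (fun r : ℝ => ((⌊μ * r ^ 2⌋₊ : ℕ) : ℝ) / r ^ 2) atTop (𝓝[Set.Ici 0] μ) := by
  rw [tendsto_nhdsWithin_iff]
  constructor
  · have h0 : Tendsto (fun r : ℝ => (r ^ 2)⁻¹) atTop (𝓝 0) :=
      tendsto_inv_atTop_zero.comp (tendsto_pow_atTop two_ne_zero)
    have hl : Tendsto (fun r : ℝ => μ - (r ^ 2)⁻¹) atTop (𝓝 μ) := by
      simpa using h0.const_sub μ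
    refine tendsto_of_tendsto_of_tendsto_of_le_of_le' hl tendsto_const_nhds ?_ ?_
    · filter_upwards [eventually_gt_atTop (0 : ℝ)] with r hr
      have hr2 : 0 < r ^ 2 := by positivity
      have := (Nat.lt_floor_add_one (μ * r ^ 2)).le
      rw [le_div_iff₀ hr2, sub_mul, inv_mul_cancel₀ hr2.ne']
      linarith
    · filter_upwards [eventually_gt_atTop (0 : ℝ)] with r hr
      have hr2 : 0 < r ^ 2 := by positivity
      rw [div_le_iff₀ hr2]
      exact Nat.floor_le (by positivity)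
  · exact Eventually.of_forall fun r => by
      show (0 : ℝ) ≤ _
      positivity

end Pool.Agent.HA.LBA

namespace Pool.Agent.HA

open MeasureTheory ProbabilityTheory Filter Topology Pool.Agent.GH

universe u

theorem LBA_thm (h1 : LBF_Stmt.{u}) (h2 : Pool.Agent.GH.TAILE_Stmt) (h3 : RIE_Stmt)
    (h4 : PHC_Stmt) (h5 : LGA_Stmt) (h6 : PHS_Stmt) : LBA_Stmt.{u} := by
  intro Ω _ P ξ hG a b μ ha hab hμ ε hε
  have hb : 0 < b := ha.trans hab
  -- bound for the profile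
  obtain ⟨B0, hB0⟩ : ∃ B0 : ℝ, ∀ x ∈ Set.Icc 0 μ, ‖phi b x‖ ≤ B0 :=
    isCompact_Icc.exists_bound_of_continuousOn (h6.1 b).continuousOn
  have hB00 : 0 ≤ B0 := (norm_nonneg _).trans (hB0 0 ⟨le_rfl, hμ⟩)
  obtain ⟨A0, hA01, hA0⟩ := h2 b (B0 + 2) hb (by linarith)
  set A := max (max A0 (μ + 1)) (3 * b ^ 2 + 1) with hAdef
  have hAA0 : A0 ≤ A := (le_max_left _ _).trans (le_max_left _ _)
  have hAμ : μ + 1 ≤ A := (le_max_right _ _).trans (le_max_left _ _)
  have hAb : 3 * b ^ 2 + 1 ≤ A := le_max_right _ _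
  have hA : 0 < A := by linarith
  have hphc : ∀ᶠ r : ℝ in atTop,
      Phi a b (((⌊μ * r ^ 2⌋₊ : ℕ) : ℝ) / r ^ 2) < Phi a b μ + ε / 4 := by
    have hcont : Tendsto (Phi a b) (𝓝[Set.Ici 0] μ) (𝓝 (Phi a b μ)) := h4 a b ha hb μ hμ
    exact (hcont.comp (LBA.floor_tendsto μ hμ)).eventually_lt_const (by linarith)
  filter_upwards [hA0 A hAA0, h3 a b (μ + 1) (ε / 4) ha hab (by linarith) (by linarith), hphc,
    LBA.err_small A (ε / 4) hA (by linarith),
    LBA.log_small (μ + 1) (1 / (μ + 2)) (by linarith) (by positivity),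
    LBA.const_small (1 + Real.log 4) 1 one_pos 2 (by norm_num),
    eventually_ge_atTop (1 : ℝ)] with r e1 e2 e3 e4 e5 e6 hr
  have hr0 : 0 < r := by linarith
  have hr2 : 1 ≤ r ^ 2 := one_le_pow₀ hr
  have hr4 : 0 ≤ r ^ 4 := by positivity
  set m := ⌊μ * r ^ 2⌋₊ with hm
  set N := ⌊A * r ^ 2⌋₊ with hN
  have hmμ : (m : ℝ) ≤ μ * r ^ 2 := Nat.floor_le (by positivity)
  have hNA : (N : ℝ) ≤ A * r ^ 2 := Nat.floor_le (by positivity)
  have hNA' : A * r ^ 2 < N + 1 := Nat.lt_floor_add_one _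
  have hmN : m ≤ N := Nat.floor_mono (by nlinarith)
  have hNb : 3 * b ^ 2 * r ^ 2 ≤ (N : ℝ) := by nlinarith
  have e2' := e2 m N (by nlinarith) hNb
  have hTT : TT m N (r * a) (r * b) ≤ r ^ 4 * (Phi a b μ + ε / 4) + ε / 4 * r ^ 4 := by
    have q1 := (abs_le.1 e2').2
    have q2 : r ^ 4 * Phi a b ((m : ℝ) / r ^ 2) ≤ r ^ 4 * (Phi a b μ + ε / 4) :=
      mul_le_mul_of_nonneg_left e3.le hr4
    linarith
  -- the tail condition
  have htail : (∑' k : ℕ, (if N < k then (k : ℝ) * (r * b) ^ k / Real.sqrt (k.factorial : ℝ)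
      else 0)) ≤ Real.exp (Lg m (r * b)) / 4 := by
    refine (e1 N b rfl hb.le le_rfl).trans ?_
    have q1 := (abs_le.1 (h5 b r m hb hr0)).1
    have hmem : (m : ℝ) / r ^ 2 ∈ Set.Icc 0 μ := by
      refine ⟨by positivity, ?_⟩
      rw [div_le_iff₀ (by positivity)]
      exact hmμ
    have q2 : -B0 ≤ phi b ((m : ℝ) / r ^ 2) := by
      have := hB0 _ hmem
      rw [Real.norm_eq_abs] at this
      exact (abs_le.1 this).1
    have q3 : r ^ 2 * (-B0) ≤ r ^ 2 * phi b ((m : ℝ) / r ^ 2) :=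
      mul_le_mul_of_nonneg_left q2 (by positivity)
    have q4 : Real.log ((m : ℝ) + 1) ≤ r ^ 2 := by
      have s1 : Real.log ((m : ℝ) + 1) ≤ Real.log ((μ + 1) * r ^ 2 + 1) :=
        Real.log_le_log (by positivity) (by nlinarith)
      have s2 : 1 / (μ + 2) * ((μ + 1) * r ^ 2 + 1) ≤ r ^ 2 := by
        rw [div_mul_eq_mul_div, one_mul, div_le_iff₀ (by linarith)]
        nlinarith
      linarith
    have q5 : Real.exp (-((B0 + 2) * r ^ 2)) ≤ Real.exp (Lg m (r * b) - Real.log 4) := by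
      apply Real.exp_le_exp.2
      linarith
    rw [Real.exp_sub, Real.exp_log (by norm_num)] at q5
    exact q5
  have hfin := h1 P ξ hG a b r m N ha hab.le hr0 hmN htail
  refine le_trans ?_ hfin
  have hexp : 1 / 2 * Real.exp (-1) * (Real.exp (-(TT m N (r * a) (r * b))) /
      (32 * ((N : ℝ) + 1) ^ 2) ^ N) = Real.exp (-(Real.log 2 + 1 +
        (N : ℝ) * Real.log (32 * ((N : ℝ) + 1) ^ 2) + TT m N (r * a) (r * b))) := by
    have s1 : (32 * ((N : ℝ) + 1) ^ 2) ^ N =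
        Real.exp ((N : ℝ) * Real.log (32 * ((N : ℝ) + 1) ^ 2)) := by
      rw [Real.exp_nat_mul, Real.exp_log (by positivity)]
    have s2 : (1 / 2 : ℝ) = Real.exp (-Real.log 2) := by
      rw [Real.exp_neg, Real.exp_log (by norm_num), one_div]
    rw [s1, s2, ← Real.exp_add, ← Real.exp_sub, ← Real.exp_add]
    congr 1
    ring
  rw [hexp]
  apply Real.exp_le_exp.2
  have e4' := e4 N hNA
  have : (Phi a b μ + ε) * r ^ 4 = r ^ 4 * (Phi a b μ + ε / 4) + ε / 4 * r ^ 4 +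
      ε / 4 * r ^ 4 + ε / 4 * r ^ 4 := by ring
  have s3 : 0 ≤ ε / 4 * r ^ 4 := by positivity
  linarith

end Pool.Agent.HA
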