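import Pool.Agent.HA.Stmts

/-!
LBF: the finite lower bound for the hole probability of an annulus.
-/

namespace Pool.Agent.HA

open MeasureTheory ProbabilityTheory Filter Topology Pool.Agent.GH

universe u

namespace LBF

/-- The exponent of the bound on the `n`-th coefficient. -/
noncomputable def mx (m : ℕ) (A B : ℝ) (n : ℕ) : ℝ :=
  if n < m then max (Lg n A - Lg m A) 0 else max (Lg n B - Lg m B) 0

/-- The bound on the `n`-th coefficient. -/
noncomputable def cc (m N : ℕ) (A B : ℝ) (n : ℕ) : ℝ :=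
  Real.exp (-(mx m A B n)) / (4 * ((N : ℝ) + 1))

theorem mx_nonneg (m : ℕ) (A B : ℝ) (n : ℕ) : 0 ≤ mx m A B n := by
  unfold mx
  split_ifs <;> exact le_max_right _ _

theorem cc_pos (m N : ℕ) (A B : ℝ) (n : ℕ) : 0 < cc m N A B n := by
  unfold cc
  positivity

theorem cc_le (m N : ℕ) (A B : ℝ) (n : ℕ) : cc m N A B n ≤ 1 := by
  unfold cc
  have h1 : Real.exp (-(mx m A B n)) ≤ 1 := Real.exp_le_one_iff.2 (by
    have := mx_nonneg m A B n
    linarith)
  have h2 : (0 : ℝ) ≤ N := Nat.cast_nonneg N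
  rw [div_le_one (by positivity)]
  linarith

theorem erase_eq {m N : ℕ} (h : m ≤ N) :
    (Finset.range (N + 1)).erase m = Finset.range m ∪ Finset.Ioc m N := by
  ext n
  simp only [Finset.mem_erase, Finset.mem_range, Finset.mem_union, Finset.mem_Ioc]
  omega

theorem sum_mx {m N : ℕ} (A B : ℝ) (h : m ≤ N) :
    2 * ∑ n ∈ (Finset.range (N + 1)).erase m, mx m A B n = TT m N A B := by
  rw [erase_eq h, Finset.sum_union]
  · unfold TT
    rw [mul_add]
    congr 2
    · refine Finset.sum_congr rfl fun n hn => ?_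
      unfold mx
      rw [if_pos (Finset.mem_range.1 hn)]
    · refine Finset.sum_congr rfl fun n hn => ?_
      unfold mx
      rw [if_neg (by rw [Finset.mem_Ioc] at hn; omega)]
  · rw [Finset.disjoint_left]
    intro n h1 h2
    rw [Finset.mem_range] at h1
    rw [Finset.mem_Ioc] at h2
    omega

theorem prod_cc {m N : ℕ} (A B : ℝ) (h : m ≤ N) :
    ∏ n ∈ (Finset.range (N + 1)).erase m, (cc m N A B n ^ 2 / 2) =
      Real.exp (-(TT m N A B)) / (32 * ((N : ℝ) + 1) ^ 2) ^ N := by
  have h1 : ∀ n, cc m N A B n ^ 2 / 2 =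
      Real.exp (-(2 * mx m A B n)) / (32 * ((N : ℝ) + 1) ^ 2) := by
    intro n
    unfold cc
    have h2 : (0 : ℝ) < (N : ℝ) + 1 := by positivity
    have h3 : Real.exp (-(2 * mx m A B n)) = Real.exp (-(mx m A B n)) ^ 2 := by
      rw [← Real.exp_nat_mul]
      congr 1
      push_cast
      ring
    rw [h3]
    field_simp
    ring
  simp only [h1]
  rw [Finset.prod_div_distrib, Finset.prod_const, ← Real.exp_sum,
    Finset.card_erase_of_mem (Finset.mem_range.2 (by omega)), Finset.card_range,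
    Nat.add_sub_cancel, Finset.sum_neg_distrib, ← Finset.mul_sum, sum_mx A B h]

end LBF

open LBF in
theorem LBF_thm (h1 : BOX_Stmt.{u}) (h2 : DOM_Stmt) : LBF_Stmt.{u} := by
  intro Ω _ P ξ hG a b r m N ha hab hr hmN htail
  have hP := hG.prob
  have hA : 0 < r * a := mul_pos hr ha
  have hAB : r * a ≤ r * b := mul_le_mul_of_nonneg_left hab hr.le
  have hb := h1 P ξ hG m N (cc m N (r * a) (r * b)) hmN
    (fun n => ⟨cc_pos _ _ _ _ n, cc_le _ _ _ _ n⟩)
  rw [prod_cc _ _ hmN] at hb
  refine hb.trans ?_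
  unfold holeP
  refine ENNReal.toReal_mono (measure_ne_top _ _) (measure_mono ?_)
  rintro ω ⟨hω1, hω2, hω3⟩ z ⟨hz1, hz2⟩
  have key := h2 (fun n => ξ n ω) (r * a) (r * b) m N hA hAB hmN hω1 ?_ ?_ hω3 htail
    ((r : ℂ) * z) ?_ ?_
  · exact key
  · intro n hn
    have h3 := hω2 n (by omega) (by omega)
    unfold cc mx at h3
    rwa [if_pos hn] at h3
  · intro n hn hnN
    have h3 := hω2 n (by omega) (by omega)
    unfold cc mx at h3
    rwa [if_neg (by omega)] at h3
  · rw [norm_mul, Complex.norm_real, Real.norm_eq_abs, abs_of_pos hr]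
    exact mul_le_mul_of_nonneg_left hz1 hr.le
  · rw [norm_mul, Complex.norm_real, Real.norm_eq_abs, abs_of_pos hr]
    exact mul_le_mul_of_nonneg_left hz2 hr.le

end Pool.Agent.HA
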