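import Mathlib
import Pool.Agent.HA.Stmts

/-!
# LGA: asymptotics of `Lg`
-/

namespace Pool.Agent.HA

open MeasureTheory Filter Topology

namespace LGA

theorem lower (n : ℕ) : (n : ℝ) * Real.log n - n ≤ Real.log (n.factorial : ℝ) := by
  rcases Nat.eq_zero_or_pos n with rfl | hn
  · simp
  · have hn0 : (0 : ℝ) < n := by exact_mod_cast hn
    have hf : (0 : ℝ) < (n.factorial : ℝ) := by exact_mod_cast Nat.factorial_pos n
    have h1 := Real.pow_div_factorial_le_exp (n : ℝ) hn0.le n
    have h2 := Real.log_le_log (by positivity) h1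
    rw [Real.log_exp, Real.log_div (by positivity) hf.ne', Real.log_pow] at h2
    linarith

theorem upper (n : ℕ) (hn : 1 ≤ n) :
    Real.log (n.factorial : ℝ) ≤ (n : ℝ) * Real.log n - n + 1 + Real.log n := by
  induction n, hn using Nat.le_induction with
  | base => simp
  | succ n hn ih =>
    have hn0 : (0 : ℝ) < n := by exact_mod_cast hn
    have hf : (0 : ℝ) < (n.factorial : ℝ) := by exact_mod_cast Nat.factorial_pos n
    have h1 : Real.log ((n + 1).factorial : ℝ) =
        Real.log ((n : ℝ) + 1) + Real.log (n.factorial : ℝ) := by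
      rw [Nat.factorial_succ, Nat.cast_mul, Real.log_mul (by positivity) hf.ne']
      push_cast
      rfl
    have h2 := Real.one_sub_inv_le_log_of_pos (show (0 : ℝ) < ((n : ℝ) + 1) / n by positivity)
    rw [Real.log_div (by positivity) hn0.ne', inv_div] at h2
    have h3 : (1 : ℝ) ≤ ((n : ℝ) + 1) * (Real.log ((n : ℝ) + 1) - Real.log n) := by
      have h4 := mul_le_mul_of_nonneg_left h2 (show (0 : ℝ) ≤ (n : ℝ) + 1 by positivity)
      have h5 : ((n : ℝ) + 1) * (1 - n / ((n : ℝ) + 1)) = 1 := by
        field_simp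
        ring
      linarith
    rw [h1]
    push_cast
    nlinarith [h3, ih]

end LGA

open LGA

theorem LGA_thm : LGA_Stmt := by
  intro t r n ht hr
  rcases Nat.eq_zero_or_pos n with rfl | hn
  · simp [Lg, phi]
  · have hn0 : (0 : ℝ) < n := by exact_mod_cast hn
    have hn1 : (1 : ℝ) ≤ n := by exact_mod_cast hn
    have h1 : Lg n (r * t) - r ^ 2 * phi t ((n : ℝ) / r ^ 2) =
        -(1 / 2) * (Real.log (n.factorial : ℝ) - (n * Real.log n - n)) := by
      rw [Lg, phi, Real.log_mul hr.ne' ht.ne', Real.log_div hn0.ne' (by positivity), Real.log_pow]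
      field_simp
      push_cast
      ring
    have h2 := lower n
    have h3 := upper n hn
    have h4 : Real.log (n : ℝ) ≤ Real.log ((n : ℝ) + 1) :=
      Real.log_le_log hn0 (by linarith)
    have h5 : 0 ≤ Real.log (n : ℝ) := Real.log_nonneg hn1
    rw [h1, abs_le]
    constructor <;> linarith

end Pool.Agent.HA
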