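import Pool.Agent.HA.Stmts

/-!
The case of more than `M r^2` zeros inside.
-/

namespace Pool.Agent.HA

open MeasureTheory ProbabilityTheory Filter Topology Pool.Agent.GH

universe u

namespace LRM

/-- `log n! ≥ n log n - n`. -/
lemma log_fact_ge (n : ℕ) : (n : ℝ) * Real.log n - n ≤ Real.log (n.factorial : ℝ) := by
  rcases Nat.eq_zero_or_pos n with h | h
  · subst h; simp
  have hn : (0 : ℝ) < n := by exact_mod_cast h
  have h1 : ((n : ℝ) / Real.exp 1) ^ n ≤ (n.factorial : ℝ) := by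
    have h2 : (n : ℝ) ^ n / (n.factorial : ℝ) ≤ Real.exp n :=
      Real.pow_div_factorial_le_exp (n : ℝ) hn.le n
    rw [div_pow, ← Real.exp_nat_mul, mul_one]
    rw [div_le_iff₀ (by positivity)] at h2 ⊢
    linarith [mul_comm (Real.exp (n : ℝ)) (n.factorial : ℝ)]
  have h3 := Real.log_le_log (by positivity) h1
  rw [Real.log_pow, Real.log_div hn.ne' (Real.exp_ne_zero 1), Real.log_exp] at h3
  linarith

/-- `Lg n B ≥ 0` for `n ≤ B^2`. -/
lemma Lg_nonneg (n : ℕ) (B : ℝ) (h : (n : ℝ) ≤ B ^ 2) : 0 ≤ Lg n B := by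
  unfold Lg
  have h1 : (n.factorial : ℝ) ≤ (B ^ 2) ^ n := by
    calc (n.factorial : ℝ) ≤ (n : ℝ) ^ n := by exact_mod_cast Nat.factorial_le_pow n
      _ ≤ (B ^ 2) ^ n := pow_le_pow_left₀ (by positivity) h n
  have h2 := Real.log_le_log (by positivity) h1
  rw [Real.log_pow, Real.log_pow] at h2
  push_cast at h2
  linarith

/-- `Lg m B ≤ -(3/2) m` for `m ≥ e^4 B^2`. -/
lemma Lg_le (m : ℕ) (B : ℝ) (hB : 0 < B) (h : Real.exp 4 * B ^ 2 ≤ (m : ℝ)) :
    Lg m B ≤ -(3 / 2) * (m : ℝ) := by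
  unfold Lg
  have hm : (0 : ℝ) < m := lt_of_lt_of_le (by positivity) h
  have h1 := log_fact_ge m
  have h2 := Real.log_le_log (by positivity) h
  rw [Real.log_mul (by positivity) (by positivity), Real.log_exp, Real.log_pow] at h2
  push_cast at h2
  nlinarith

/-- `log (m+1) ≤ m/16 + 2`. -/
lemma log_succ_le (x : ℝ) (hx : 0 ≤ x) : Real.log (x + 1) ≤ x / 16 + 2 := by
  have h1 : Real.log ((x + 1) / 16) ≤ (x + 1) / 16 - 1 := Real.log_le_sub_one_of_pos (by positivity)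
  rw [Real.log_div (by positivity) (by norm_num)] at h1
  have h2 : Real.log 16 ≤ 2.8 := by
    have h3 : (16 : ℝ) = 2 ^ 4 := by norm_num
    rw [h3, Real.log_pow]
    have := Real.log_two_lt_d9
    push_cast
    linarith
  linarith

lemma ev_sq (c : ℝ) (d : ℝ) (hc : 0 < c) : ∀ᶠ r : ℝ in atTop, d ≤ c * r ^ 2 := by
  have h : Tendsto (fun r : ℝ => c * r ^ 2) atTop atTop :=
    Tendsto.const_mul_atTop hc (tendsto_pow_atTop two_ne_zero)
  exact h.eventually_ge_atTop d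

lemma ev_log (L c : ℝ) (hL : 0 < L) (hc : 0 < c) :
    ∀ᶠ r : ℝ in atTop, Real.log (L * r ^ 2) ≤ c * r ^ 2 := by
  have h : Tendsto (fun r : ℝ => L * r ^ 2) atTop atTop :=
    Tendsto.const_mul_atTop hL (tendsto_pow_atTop two_ne_zero)
  have h1 := (Real.isLittleO_log_id_atTop.comp_tendsto h).def (c := c / L) (by positivity)
  filter_upwards [h1, eventually_gt_atTop 0] with r hr hr0
  simp only [Function.comp, id, Real.norm_eq_abs] at hr
  rw [abs_of_pos (show 0 < L * r ^ 2 by positivity)] at hr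
  calc Real.log (L * r ^ 2) ≤ |Real.log (L * r ^ 2)| := le_abs_self _
    _ ≤ c / L * (L * r ^ 2) := hr
    _ = c * r ^ 2 := by field_simp

end LRM

open LRM in
theorem LRM_thm (h1 : UBE_Stmt.{u}) : LRM_Stmt.{u} := by
  intro Ω _ P ξ hG a b L Q ha hab hL hQ
  have hb : 0 < b := ha.trans hab
  obtain ⟨C', hC', hU⟩ := h1 P ξ hG
  have hPr : IsProbabilityMeasure P := hG.prob
  set M : ℝ := Real.exp 4 * b ^ 2 + 2 * b ^ 2 + 4 * Q / b ^ 2 with hM
  have hM0 : 0 < M := by positivity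
  refine ⟨M, hM0, fun δ C hδ hδ8 hC => ?_⟩
  have hba : 0 < b - a := sub_pos.mpr hab
  filter_upwards [eventually_gt_atTop 0, ev_log L (M / 16) hL (by positivity),
    ev_sq (M / 16) C (by positivity), ev_sq M 11 hM0, ev_sq L 1 hL,
    ev_log L (b ^ 2 / 4) hL (by positivity),
    ev_sq (b ^ 2 / 4) (2 * Real.log (b / (b - a))) (by positivity),
    ev_sq (b ^ 2 / 4) C' (by positivity), ev_sq (b ^ 2 / 4) (Real.log 2) (by positivity),
    ev_sq (b ^ 2 / 2) 1 (by positivity)]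
    with r hr hl1 hc1 hm1 hL1 hl2 hd2 hc2 hg2 hn2
  set Nb : ℕ := ⌊b ^ 2 * r ^ 2⌋₊ with hNb
  have hNb1 : (Nb : ℝ) ≤ b ^ 2 * r ^ 2 := Nat.floor_le (by positivity)
  have hNb2 : b ^ 2 * r ^ 2 / 2 ≤ (Nb : ℝ) := by
    have := Nat.lt_floor_add_one (b ^ 2 * r ^ 2)
    rw [← hNb] at this
    linarith
  -- the deterministic estimate
  have key : ∀ m : ℕ, M * r ^ 2 < (m : ℝ) →
      Lg m (r * b) + (Real.log (L * r ^ 2) + C + δ * m + Real.log ((m : ℝ) + 1)) ≤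
        -(M * r ^ 2) := by
    intro m hm
    have hm0 : (0 : ℝ) ≤ m := Nat.cast_nonneg m
    have e1 : Lg m (r * b) ≤ -(3 / 2) * (m : ℝ) := by
      apply Lg_le m (r * b) (by positivity)
      have : Real.exp 4 * (r * b) ^ 2 ≤ M * r ^ 2 := by
        have h3 : Real.exp 4 * b ^ 2 ≤ M := by
          rw [hM]
          have : 0 ≤ 2 * b ^ 2 + 4 * Q / b ^ 2 := by positivity
          linarith
        calc Real.exp 4 * (r * b) ^ 2 = (Real.exp 4 * b ^ 2) * r ^ 2 := by ring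
          _ ≤ M * r ^ 2 := by gcongr
      linarith
    have e2 := log_succ_le (m : ℝ) hm0
    have e3 : δ * m ≤ m / 8 := by nlinarith
    linarith
  -- inclusion of events
  have hsub : {ω | ω ∈ Ev ξ (r * a) (r * b) (L * r ^ 2) ∧ ∃ m : ℕ, M * r ^ 2 < (m : ℝ) ∧
      J (co ξ ω) (r * b) ≤ Lg m (r * b) +
        (Real.log (L * r ^ 2) + C + δ * m + Real.log ((m : ℝ) + 1))} ⊆
      {ω | ω ∈ Ev ξ (r * a) (r * b) (L * r ^ 2) ∧
        ((0 : ℕ) : ℝ) * J (co ξ ω) (r * a) + (Nb : ℝ) * J (co ξ ω) (r * b) ≤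
          -((Nb : ℝ) * (M * r ^ 2))} := by
    rintro ω ⟨hω, m, hm, hJ⟩
    refine ⟨hω, ?_⟩
    have h2 := key m hm
    have h3 : J (co ξ ω) (r * b) ≤ -(M * r ^ 2) := hJ.trans h2
    have h4 : (Nb : ℝ) * J (co ξ ω) (r * b) ≤ (Nb : ℝ) * (-(M * r ^ 2)) :=
      mul_le_mul_of_nonneg_left h3 (Nat.cast_nonneg _)
    simp only [Nat.cast_zero, zero_mul, zero_add]
    linarith
  have hmono := ENNReal.toReal_mono (measure_ne_top P _) (measure_mono (μ := P) hsub)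
  refine hmono.trans ?_
  have hrab : r * a < r * b := by gcongr
  have hB := hU (r * a) (r * b) (L * r ^ 2) 1 (-((Nb : ℝ) * (M * r ^ 2))) 0 0 Nb (by positivity)
    hrab hL1 one_pos (by norm_num)
  refine hB.trans (Real.exp_le_exp.mpr ?_)
  have hS : 0 ≤ ∑ n ∈ Finset.Ico (0 + 0) (0 + 0 + Nb), Lg n (r * b) := by
    apply Finset.sum_nonneg
    intro n hn
    apply Lg_nonneg
    have hn' : n < Nb := by simpa using (Finset.mem_Ico.mp hn).2
    have : (n : ℝ) ≤ (Nb : ℝ) := by exact_mod_cast hn'.le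
    calc (n : ℝ) ≤ b ^ 2 * r ^ 2 := this.trans hNb1
      _ = (r * b) ^ 2 := by ring
  have hlog : Real.log (r * b / (r * b - r * a)) = Real.log (b / (b - a)) := by
    congr 1
    rw [← mul_sub, mul_div_mul_left _ _ hr.ne']
  rw [hlog]
  have hNb0 : (0 : ℝ) ≤ Nb := Nat.cast_nonneg _
  have hE : (Nb : ℝ) * (-(M * r ^ 2) + 2 * Real.log (b / (b - a)) +
      (Real.log (L * r ^ 2) + C' + b ^ 2 * r ^ 2 + Real.log 2)) ≤
      (Nb : ℝ) * (-(M * r ^ 2) + 2 * (b ^ 2 * r ^ 2)) := by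
    apply mul_le_mul_of_nonneg_left _ hNb0
    linarith
  have hE2 : (Nb : ℝ) * (-(M * r ^ 2) + 2 * (b ^ 2 * r ^ 2)) ≤ -(Q * r ^ 4) := by
    have h5 : (M - 2 * b ^ 2) * r ^ 2 ≥ 4 * Q / b ^ 2 * r ^ 2 := by
      have : M - 2 * b ^ 2 ≥ 4 * Q / b ^ 2 := by
        rw [hM]
        have : 0 ≤ Real.exp 4 * b ^ 2 := by positivity
        linarith
      gcongr
    have h6 : 0 ≤ 4 * Q / b ^ 2 * r ^ 2 := by positivity
    have h7 : b ^ 2 * r ^ 2 / 2 * (4 * Q / b ^ 2 * r ^ 2) = 2 * Q * r ^ 4 := by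
      field_simp
      ring
    have h8 : b ^ 2 * r ^ 2 / 2 * (4 * Q / b ^ 2 * r ^ 2) ≤ (Nb : ℝ) * ((M - 2 * b ^ 2) * r ^ 2) :=
      mul_le_mul hNb2 h5 h6 hNb0
    have h9 : 0 ≤ Q * r ^ 4 := by positivity
    nlinarith
  simp only [Finset.Ico_self, Finset.sum_empty, Nat.cast_zero, zero_add, mul_zero, sub_zero]
  simp only [zero_add] at hS
  have h21 : (2 : ℝ) / 1 = 2 := by norm_num
  rw [h21]
  have : (r * b) ^ 2 = b ^ 2 * r ^ 2 := by ring
  rw [this]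
  linarith

end Pool.Agent.HA
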