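import Mathlib
import Pool.Agent.HA.Stmts

/-!
# MKV: Markov's inequality for the rotation average
-/

namespace Pool.Agent.HA

open MeasureTheory ProbabilityTheory Filter Topology Pool.Agent.GH

universe u

namespace MKV

/-- The rotated point. -/
noncomputable def rp (w : ℂ) (θ : ℝ) : ℂ := w * Complex.exp (θ * Complex.I)

theorem norm_rp (w : ℂ) (θ : ℝ) : ‖rp w θ‖ = ‖w‖ := by
  rw [rp, norm_mul, Complex.norm_exp_ofReal_mul_I, mul_one]

theorem continuous_rp (w : ℂ) : Continuous (rp w) := by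
  unfold rp
  fun_prop

theorem continuous_serN (x : ℕ → ℂ) (N : ℕ) : Continuous (serN x N) := by
  unfold serN
  fun_prop

section meas

variable {Ω : Type u} [MeasurableSpace Ω] {ξ : ℕ → Ω → ℂ} {k : ℕ}

theorem meas_ser (hξ : ∀ n, Measurable (ξ n)) (N : ℕ) (w : ℂ) :
    Measurable fun p : Ω × ℝ => serN (co ξ p.1) N (rp w p.2) := by
  unfold serN
  refine Finset.measurable_sum _ fun n _ => ?_
  have h1 : Measurable fun p : Ω × ℝ => co ξ p.1 n := (hξ n).comp measurable_fst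
  have h2 : Measurable fun p : Ω × ℝ => rp w p.2 :=
    (continuous_rp w).measurable.comp measurable_snd
  exact (h1.mul (h2.pow_const n)).div_const _

theorem meas_prod (hξ : ∀ n, Measurable (ξ n)) {η R : ℝ} (hh' : Measurable (hh η R)) (N : ℕ)
    (z : Fin k → ℂ) :
    Measurable fun p : Ω × ℝ => ∏ j, hh η R (serN (co ξ p.1) N (rp (z j) p.2)) :=
  Finset.measurable_prod _ fun j _ => hh'.comp (meas_ser hξ N (z j))

/-- The integral over the rotations. -/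
noncomputable def G (ξ : ℕ → Ω → ℂ) (η R : ℝ) (z : Fin k → ℂ) (N : ℕ) (ω : Ω) : ENNReal :=
  ∫⁻ θ in Set.Ioc 0 (2 * Real.pi), ∏ j, hh η R (serN (co ξ ω) N (rp (z j) θ))

theorem meas_G (hξ : ∀ n, Measurable (ξ n)) {η R : ℝ} (hh' : Measurable (hh η R)) (N : ℕ)
    (z : Fin k → ℂ) : Measurable (G ξ η R z N) :=
  (meas_prod hξ hh' N z).lintegral_prod_right'

theorem lint_G (h1 : FIN_Stmt.{u}) (h3 : CRT_Stmt) {P : Measure Ω} (hG : IsGauss P ξ)
    {η R : ℝ} (hη : 0 < η) (hR : 0 < R) (hh' : Measurable (hh η R)) {n0 N : ℕ}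
    (hN : n0 + k ≤ N) (z : Fin k → ℂ) (hdet : (VM n0 k z).det ≠ 0) :
    ∫⁻ ω, G ξ η R z N ω ∂P ≤ ENNReal.ofReal (2 * Real.pi) *
      ENNReal.ofReal ((2 * R ^ η / η) ^ k / ‖(VM n0 k z).det‖ ^ 2) := by
  have := hG.prob
  unfold G
  rw [lintegral_lintegral_swap (meas_prod hG.meas hh' N z).aemeasurable]
  have h4 : ∀ θ : ℝ, ∫⁻ ω, ∏ j, hh η R (serN (co ξ ω) N (rp (z j) θ)) ∂P ≤
      ENNReal.ofReal ((2 * R ^ η / η) ^ k / ‖(VM n0 k z).det‖ ^ 2) := by
    intro θ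
    have h5 := h3 n0 k z θ
    have h6 := h1 P ξ hG n0 k N (fun j => rp (z j) θ) η R hN hη hR (by
      intro h
      apply hdet
      rw [← norm_eq_zero, ← h5, norm_eq_zero]
      exact h)
    refine h6.trans (le_of_eq ?_)
    rw [show ‖(VM n0 k (fun j => rp (z j) θ)).det‖ = ‖(VM n0 k z).det‖ from h5]
  refine (lintegral_mono h4).trans (le_of_eq ?_)
  rw [lintegral_const, Measure.restrict_apply MeasurableSet.univ, Set.univ_inter, Real.volume_Ioc,
    sub_zero, mul_comm]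

end meas

/-- The pointwise statement. -/
theorem pointwise (h2 : ROT_Stmt) {x : ℕ → ℂ} {A B R η γ : ℝ} {Na Nb : ℕ}
    {z : Fin (Na + Nb) → ℂ} (hA : 0 < A) (hAB : A ≤ B) (hη2 : η < 2)
    (hh' : Measurable (hh η R)) (hz : Two A B Na Nb z) (hc : Continuous (ser x))
    (hlim : ∀ w, Tendsto (fun N => serN x N w) atTop (𝓝 (ser x w)))
    (hR' : ∀ w : ℂ, ‖w‖ ≤ B → ∀ N, ‖serN x N w‖ ≤ R)
    (hne : ∀ w : ℂ, A ≤ ‖w‖ → ‖w‖ ≤ B → ser x w ≠ 0)
    (hγ : (Na : ℝ) * J x A + (Nb : ℝ) * J x B ≤ γ) :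
    ENNReal.ofReal (2 * Real.pi * Real.exp (-((2 - η) * γ))) ≤
      liminf (fun N => ∫⁻ θ in Set.Ioc 0 (2 * Real.pi),
        ∏ j, hh η R (serN x N (rp (z j) θ))) atTop := by
  have hpi : 0 < 2 * Real.pi := by positivity
  have hs : 0 < 2 - η := by linarith
  have hnorm : ∀ j θ, A ≤ ‖rp (z j) θ‖ ∧ ‖rp (z j) θ‖ ≤ B := by
    intro j θ
    rw [norm_rp]
    rcases lt_or_ge (j : ℕ) Na with h | h
    · rw [hz.1 j h]
      exact ⟨le_rfl, hAB⟩
    · rw [hz.2 j h]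
      exact ⟨hAB, le_rfl⟩
  have hne' : ∀ j θ, ser x (rp (z j) θ) ≠ 0 := fun j θ => hne _ (hnorm j θ).1 (hnorm j θ).2
  have hrot := h2 (ser x) A B (2 - η) Na Nb z hc hA hAB hne hs hz
  -- the real function
  obtain ⟨F, hF⟩ : ∃ F : ℝ → ℝ, F = fun θ => ∏ j, ‖ser x (rp (z j) θ)‖ ^ (-(2 - η)) := ⟨_, rfl⟩
  have hF0 : ∀ θ, 0 ≤ F θ := by
    intro θ
    rw [hF]
    exact Finset.prod_nonneg fun j _ => Real.rpow_nonneg (norm_nonneg _) _
  have hFc : Continuous F := by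
    rw [hF]
    refine continuous_finsetProd _ fun j _ => ?_
    refine Continuous.rpow_const ?_ fun θ => Or.inl (norm_ne_zero_iff.mpr (hne' j θ))
    exact (hc.comp (continuous_rp (z j))).norm
  have h1 : 2 * Real.pi * Real.exp (-((2 - η) * γ)) ≤ ∫ θ in Set.Ioc 0 (2 * Real.pi), F θ := by
    have h3 : Real.exp (-((2 - η) * γ)) ≤ (2 * Real.pi)⁻¹ *
        ∫ θ in (0 : ℝ)..(2 * Real.pi), F θ := by
      refine le_trans ?_ (hrot.trans (le_of_eq ?_))
      · rw [Real.exp_le_exp, neg_le_neg_iff]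
        exact mul_le_mul_of_nonneg_left hγ hs.le
      · rw [hF]
        rfl
    rw [intervalIntegral.integral_of_le hpi.le] at h3
    have h4 := mul_le_mul_of_nonneg_left h3 hpi.le
    rwa [← mul_assoc, mul_inv_cancel₀ hpi.ne', one_mul] at h4
  have h5 : ENNReal.ofReal (2 * Real.pi * Real.exp (-((2 - η) * γ))) ≤
      ∫⁻ θ in Set.Ioc 0 (2 * Real.pi), ENNReal.ofReal (F θ) := by
    refine (ENNReal.ofReal_le_ofReal h1).trans ?_
    rw [integral_eq_lintegral_of_nonneg_ae (Eventually.of_forall hF0)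
      hFc.aestronglyMeasurable]
    exact ENNReal.ofReal_toReal_le
  refine h5.trans ?_
  refine le_trans (lintegral_mono fun θ => ?_) (lintegral_liminf_le fun N => ?_)
  · -- the limit of the products
    have h6 : ∀ N, ∏ j, hh η R (serN x N (rp (z j) θ)) =
        ENNReal.ofReal (∏ j, ‖serN x N (rp (z j) θ)‖ ^ (η - 2)) := by
      intro N
      rw [ENNReal.ofReal_prod_of_nonneg fun j _ => Real.rpow_nonneg (norm_nonneg _) _]
      refine Finset.prod_congr rfl fun j _ => ?_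
      rw [hh, if_pos (hR' _ (hnorm j θ).2 N)]
    have h7 : Tendsto (fun N => ∏ j, hh η R (serN x N (rp (z j) θ))) atTop
        (𝓝 (ENNReal.ofReal (F θ))) := by
      simp_rw [h6]
      apply ENNReal.tendsto_ofReal
      rw [hF]
      refine tendsto_finsetProd _ fun j _ => ?_
      rw [neg_sub]
      exact (hlim _).norm.rpow_const (Or.inl (norm_ne_zero_iff.mpr (hne' j θ)))
    exact h7.liminf_eq.ge
  · exact Finset.measurable_prod _ fun j _ =>
      hh'.comp ((continuous_serN x N).comp (continuous_rp (z j))).measurable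

end MKV

open MKV

theorem MKV_thm (h1 : FIN_Stmt.{u}) (h2 : ROT_Stmt) (h3 : CRT_Stmt) (h4 : HIN_Stmt) :
    MKV_Stmt.{u} := by
  intro Ω _ P ξ hG A B H R η γ n0 Na Nb z hA hAB hH hη hη2 hR hz hdet hx
  have hh' : Measurable (hh η R) := (h4 η R hη hR).1
  have := hG.prob
  have hpi : 0 < 2 * Real.pi := by positivity
  obtain ⟨C, hC⟩ : ∃ C : ℝ, C = (2 * R ^ η / η) ^ (Na + Nb) /
    ‖(VM n0 (Na + Nb) z).det‖ ^ 2 := ⟨_, rfl⟩
  have hC0 : 0 ≤ C := by
    rw [hC]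
    positivity
  obtain ⟨L, hL⟩ : ∃ L : Ω → ENNReal, L = fun ω => liminf (fun N => G ξ η R z N ω) atTop :=
    ⟨_, rfl⟩
  have hLm : Measurable L := by
    rw [hL]
    exact Measurable.liminf fun N => meas_G hG.meas hh' N z
  have hsub : {ω | ω ∈ Ev ξ A B H ∧ (Na : ℝ) * J (co ξ ω) A + (Nb : ℝ) * J (co ξ ω) B ≤ γ} ⊆
      {ω | ENNReal.ofReal (2 * Real.pi * Real.exp (-((2 - η) * γ))) ≤ L ω} := by
    rintro ω ⟨⟨hne, hb⟩, hγ⟩
    obtain ⟨hc, hlim, hR'⟩ := hx (co ξ ω) hb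
    change ENNReal.ofReal (2 * Real.pi * Real.exp (-((2 - η) * γ))) ≤ L ω
    rw [hL]
    exact pointwise h2 hA hAB hη2 hh' hz hc hlim hR' hne hγ
  have hLint : ∫⁻ ω, L ω ∂P ≤ ENNReal.ofReal (2 * Real.pi) * ENNReal.ofReal C := by
    rw [hL]
    refine (lintegral_liminf_le fun N => meas_G hG.meas hh' N z).trans ?_
    refine liminf_le_of_frequently_le' (Eventually.frequently ?_)
    filter_upwards [eventually_ge_atTop (n0 + (Na + Nb))] with N hN
    rw [hC]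
    exact lint_G h1 h3 hG hη hR hh' hN z hdet
  have hmark := mul_meas_ge_le_lintegral (μ := P) hLm
    (ENNReal.ofReal (2 * Real.pi * Real.exp (-((2 - η) * γ))))
  have h5 : ENNReal.ofReal (2 * Real.pi * Real.exp (-((2 - η) * γ))) *
      P {ω | ω ∈ Ev ξ A B H ∧ (Na : ℝ) * J (co ξ ω) A + (Nb : ℝ) * J (co ξ ω) B ≤ γ} ≤
      ENNReal.ofReal (2 * Real.pi * C) := by
    rw [ENNReal.ofReal_mul hpi.le]
    rw [← ENNReal.ofReal_mul hpi.le]
    refine le_trans (mul_le_mul' le_rfl (measure_mono hsub)) (hmark.trans ?_)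
    rw [ENNReal.ofReal_mul hpi.le (q := C)]
    exact hLint
  have h6 := ENNReal.toReal_mono ENNReal.ofReal_ne_top h5
  rw [ENNReal.toReal_mul, ENNReal.toReal_ofReal (by positivity),
    ENNReal.toReal_ofReal (by positivity)] at h6
  rw [← hC]
  have h7 : Real.exp ((2 - η) * γ) * Real.exp (-((2 - η) * γ)) = 1 := by
    rw [← Real.exp_add, add_neg_cancel, Real.exp_zero]
  have h8 : Real.exp (-((2 - η) * γ)) * (P {ω | ω ∈ Ev ξ A B H ∧
      (Na : ℝ) * J (co ξ ω) A + (Nb : ℝ) * J (co ξ ω) B ≤ γ}).toReal ≤ C := by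
    have h9 : 2 * Real.pi * (Real.exp (-((2 - η) * γ)) * (P {ω | ω ∈ Ev ξ A B H ∧
      (Na : ℝ) * J (co ξ ω) A + (Nb : ℝ) * J (co ξ ω) B ≤ γ}).toReal) ≤ 2 * Real.pi * C := by
      rw [← mul_assoc]
      exact h6
    exact le_of_mul_le_mul_left h9 hpi
  have h10 := mul_le_mul_of_nonneg_left h8 (Real.exp_pos ((2 - η) * γ)).le
  rwa [← mul_assoc, h7, one_mul] at h10

end Pool.Agent.HA
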