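import Pool.Agent.HA.Stmts

/-!
Module PHC: continuity of the exponent.
-/

namespace Pool.Agent.HA.PHC

open MeasureTheory Filter Topology

theorem cont_F (h : ∀ t : ℝ, Continuous (phi t)) (t : ℝ) :
    Continuous (Function.uncurry fun (μ x : ℝ) => max (phi t x - phi t μ) 0) := by
  have h1 := h t
  exact ((h1.comp continuous_snd).sub (h1.comp continuous_fst)).max continuous_const

theorem cont_par (h : ∀ t : ℝ, Continuous (phi t)) (t : ℝ) {s : ℝ → ℝ} (hs : Continuous s) :
    Continuous fun μ : ℝ => ∫ x in (0 : ℝ)..(s μ), max (phi t x - phi t μ) 0 :=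
  intervalIntegral.continuous_parametric_intervalIntegral_of_continuous (cont_F h t) hs

end Pool.Agent.HA.PHC

namespace Pool.Agent.HA

open MeasureTheory Filter Topology

/-- Continuity of `Phi`. -/
theorem PHC_thm (h1 : PHS_Stmt) : PHC_Stmt := by
  obtain ⟨hc, -, -, h4⟩ := h1
  intro a b _ hb
  have c1 : Continuous fun μ : ℝ => ∫ x in (0 : ℝ)..μ, max (phi a x - phi a μ) 0 :=
    PHC.cont_par hc a continuous_id
  have c2 : Continuous fun μ : ℝ => ∫ x in (0 : ℝ)..(max μ (3 * b ^ 2)),
      max (phi b x - phi b μ) 0 :=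
    PHC.cont_par hc b (continuous_id.max continuous_const)
  have c3 : Continuous fun μ : ℝ => ∫ x in (0 : ℝ)..μ, max (phi b x - phi b μ) 0 :=
    PHC.cont_par hc b continuous_id
  have c4 := (c1.const_mul 2).add ((c2.sub c3).const_mul 2)
  refine c4.continuousOn.congr fun μ hμ => ?_
  have hμ0 : 0 ≤ μ := hμ
  show 2 * (∫ x in (0 : ℝ)..μ, max (phi a x - phi a μ) 0) +
    2 * (∫ x in Set.Ioi μ, max (phi b x - phi b μ) 0) = _
  rw [(h4 b μ hb hμ0).2]
  have hi : ∀ p q : ℝ, IntervalIntegrable (fun x => max (phi b x - phi b μ) 0) volume p q := by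
    intro p q
    exact (((hc b).sub continuous_const).max continuous_const).intervalIntegrable p q
  rw [← intervalIntegral.integral_interval_sub_left (hi 0 _) (hi 0 _)]
  rfl

end Pool.Agent.HA
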