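import Mathlib
import Pool.Agent.HA.Stmts

/-!
# PHS: where the profile and its discrete version are small; integrability; continuity
-/

set_option autoImplicit false

namespace Pool.Agent.HA.PHS

open MeasureTheory ProbabilityTheory Filter Topology Pool.Agent.GH Pool.Agent.HA

theorem continuous_phi (t : ℝ) : Continuous (phi t) := by
  unfold phi
  exact (continuous_id.mul continuous_const).sub
    ((Real.continuous_mul_log.sub continuous_id).div_const 2)

theorem phi_nonneg {b μ : ℝ} (hμ : 0 ≤ μ) (h : μ ≤ b ^ 2) : 0 ≤ phi b μ := by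
  rcases hμ.eq_or_lt with rfl | hμ0
  · simp [phi]
  · have h1 : Real.log μ ≤ 2 * Real.log b := by
      have := Real.log_le_log hμ0 h
      rwa [Real.log_pow] at this
    have h2 : phi b μ = μ * ((2 * Real.log b - Real.log μ) + 1) / 2 := by
      unfold phi; ring
    rw [h2]
    have h3 : 0 ≤ (2 * Real.log b - Real.log μ) + 1 := by linarith
    positivity

theorem one_le_log_three : (1 : ℝ) ≤ Real.log 3 := by
  rw [Real.le_log_iff_exp_le (by norm_num)]
  exact (Real.exp_one_lt_d9.trans (by norm_num)).le

theorem phi_nonpos {b x : ℝ} (hb : 0 < b) (h : 3 * b ^ 2 ≤ x) : phi b x ≤ 0 := by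
  have hb2 : 0 < b ^ 2 := by positivity
  have hx : 0 < x := by linarith
  have h1 : Real.log 3 + 2 * Real.log b ≤ Real.log x := by
    have := Real.log_le_log (by positivity) h
    rwa [Real.log_mul (by norm_num) hb2.ne', Real.log_pow] at this
  have h2 : phi b x = -(x * ((Real.log x - 2 * Real.log b) - 1) / 2) := by
    unfold phi; ring
  rw [h2]
  have h3 : 0 ≤ (Real.log x - 2 * Real.log b) - 1 := by
    have := one_le_log_three
    linarith
  have : 0 ≤ x * ((Real.log x - 2 * Real.log b) - 1) / 2 := by positivity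
  linarith

theorem part2 {b μ x : ℝ} (hb : 0 < b) (hμ : 0 ≤ μ) (hx : μ < x) (h : 3 * b ^ 2 ≤ x) :
    phi b x ≤ phi b μ := by
  rcases le_or_gt μ (b ^ 2) with hle | hgt
  · exact (phi_nonpos hb h).trans (phi_nonneg hμ hle)
  · have hb2 : 0 < b ^ 2 := by positivity
    have hμ0 : 0 < μ := hb2.trans hgt
    have hx0 : 0 < x := hμ0.trans hx
    have h1 : 2 * Real.log b ≤ Real.log μ := by
      have := Real.log_le_log hb2 hgt.le
      rwa [Real.log_pow] at this
    have h2 : Real.log (μ / x) ≤ μ / x - 1 := Real.log_le_sub_one_of_pos (by positivity)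
    rw [Real.log_div hμ0.ne' hx0.ne'] at h2
    have h3 : x * (Real.log μ - Real.log x) ≤ μ - x := by
      have := mul_le_mul_of_nonneg_left h2 hx0.le
      have e : x * (μ / x - 1) = μ - x := by field_simp
      rwa [e] at this
    have h4 : phi b μ - phi b x = ((x - μ) * (Real.log μ - 2 * Real.log b) +
        ((μ - x) - x * (Real.log μ - Real.log x))) / 2 := by
      unfold phi; ring
    have h5 : 0 ≤ (x - μ) * (Real.log μ - 2 * Real.log b) :=
      mul_nonneg (by linarith) (by linarith)
    have h6 : 0 ≤ phi b μ - phi b x := by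
      rw [h4]
      have : 0 ≤ (μ - x) - x * (Real.log μ - Real.log x) := by linarith
      positivity
    linarith

theorem Lg_le_phi (n : ℕ) (B : ℝ) : Lg n B ≤ phi B n := by
  have hfac : (0 : ℝ) < (n.factorial : ℝ) := by exact_mod_cast n.factorial_pos
  have key : (n : ℝ) * Real.log n - n ≤ Real.log (n.factorial : ℝ) := by
    rcases Nat.eq_zero_or_pos n with rfl | hn
    · simp
    · have hn' : (0 : ℝ) < n := by exact_mod_cast hn
      have h1 := Real.pow_div_factorial_le_exp (n : ℝ) hn'.le n
      have h2 := Real.log_le_log (by positivity) h1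
      rw [Real.log_exp, Real.log_div (by positivity) hfac.ne', Real.log_pow] at h2
      linarith
  unfold Lg phi
  linarith

theorem Lg_nonneg {m : ℕ} {B : ℝ} (h : (m : ℝ) ≤ B ^ 2) : 0 ≤ Lg m B := by
  rcases Nat.eq_zero_or_pos m with rfl | hm
  · simp [Lg]
  · have hm' : (0 : ℝ) < m := by exact_mod_cast hm
    have h1 : Real.log (m.factorial : ℝ) ≤ m * Real.log m := by
      have h2 : (m.factorial : ℝ) ≤ (m : ℝ) ^ m := by exact_mod_cast m.factorial_le_pow
      have h3 := Real.log_le_log (by exact_mod_cast m.factorial_pos) h2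
      rwa [Real.log_pow] at h3
    have h2 : Real.log (m : ℝ) ≤ 2 * Real.log B := by
      have := Real.log_le_log hm' h
      rwa [Real.log_pow] at this
    have h3 : (m : ℝ) * Real.log m ≤ m * (2 * Real.log B) :=
      mul_le_mul_of_nonneg_left h2 hm'.le
    unfold Lg
    linarith

theorem part3 {B : ℝ} {m n : ℕ} (hB : 0 < B) (hmn : m < n) (h : 3 * B ^ 2 ≤ (n : ℝ)) :
    Lg n B ≤ Lg m B := by
  rcases le_or_gt (m : ℝ) (B ^ 2) with hle | hgt
  · exact ((Lg_le_phi n B).trans (phi_nonpos hB h)).trans (Lg_nonneg hle)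
  · have hB2 : 0 < B ^ 2 := by positivity
    have step : ∀ k : ℕ, m ≤ k → Lg k B ≤ Lg m B := by
      intro k hk
      induction k, hk using Nat.le_induction with
      | base => exact le_refl _
      | succ k hk ih =>
        refine le_trans ?_ ih
        have hk' : (m : ℝ) ≤ (k : ℝ) := by exact_mod_cast hk
        have hk1 : (0 : ℝ) < (k : ℝ) + 1 := by positivity
        have h1 : 2 * Real.log B ≤ Real.log ((k : ℝ) + 1) := by
          have := Real.log_le_log hB2 (show B ^ 2 ≤ (k : ℝ) + 1 by linarith)
          rwa [Real.log_pow] at this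
        have h2 : Real.log ((k + 1).factorial : ℝ) =
            Real.log ((k : ℝ) + 1) + Real.log (k.factorial : ℝ) := by
          rw [Nat.factorial_succ]
          push_cast
          rw [Real.log_mul hk1.ne' (by exact_mod_cast k.factorial_ne_zero)]
        unfold Lg
        rw [h2]
        push_cast
        linarith
    exact step n hmn.le

theorem part4 {b μ : ℝ} (hb : 0 < b) (hμ : 0 ≤ μ) :
    IntegrableOn (fun x => max (phi b x - phi b μ) 0) (Set.Ioi μ) ∧
    ∫ x in Set.Ioi μ, max (phi b x - phi b μ) 0 =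
      ∫ x in μ..(max μ (3 * b ^ 2)), max (phi b x - phi b μ) 0 := by
  set M : ℝ := max μ (3 * b ^ 2) with hM
  have hμM : μ ≤ M := le_max_left _ _
  have hcont : Continuous (fun x => max (phi b x - phi b μ) 0) :=
    ((continuous_phi b).sub continuous_const).max continuous_const
  have hzero : Set.EqOn (fun _ : ℝ => (0 : ℝ)) (fun x => max (phi b x - phi b μ) 0)
      (Set.Ioi M) := by
    intro x hx
    have hx' : M < x := hx
    have h1 : phi b x ≤ phi b μ :=
      part2 hb hμ (hμM.trans_lt hx') ((le_max_right _ _).trans hx'.le)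
    exact (max_eq_right (by linarith)).symm
  have hI1 : IntegrableOn (fun x => max (phi b x - phi b μ) 0) (Set.Ioc μ M) :=
    (hcont.continuousOn.integrableOn_Icc).mono_set Set.Ioc_subset_Icc_self
  have hI2 : IntegrableOn (fun x => max (phi b x - phi b μ) 0) (Set.Ioi M) :=
    (integrableOn_zero (ε' := ℝ)).congr_fun hzero measurableSet_Ioi
  have hU : Set.Ioc μ M ∪ Set.Ioi M = Set.Ioi μ := Set.Ioc_union_Ioi_eq_Ioi hμM
  refine ⟨by rw [← hU]; exact hI1.union hI2, ?_⟩
  rw [← hU, setIntegral_union (Set.Ioc_disjoint_Ioi le_rfl) measurableSet_Ioi hI1 hI2,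
    intervalIntegral.integral_of_le hμM]
  have h0 : ∫ x in Set.Ioi M, max (phi b x - phi b μ) 0 = 0 := by
    rw [← setIntegral_congr_fun measurableSet_Ioi hzero]
    simp
  rw [h0, add_zero]

theorem main : PHS_Stmt :=
  ⟨continuous_phi, fun _ _ _ hb hμ hx h => part2 hb hμ hx h,
    fun _ _ _ hB hmn h => part3 hB hmn h, fun _ _ hb hμ => part4 hb hμ⟩

end Pool.Agent.HA.PHS

namespace Pool.Agent.HA

/-- Where the profile and its discrete version are small; integrability; continuity. -/
theorem PHS_thm : PHS_Stmt := PHS.main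

end Pool.Agent.HA
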