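import Pool.Agent.HA.Stmts

/-!
Module POS: the exponent of the annulus is positive.
-/

namespace Pool.Agent.HA

open MeasureTheory ProbabilityTheory Filter Topology Pool.Agent.GH

universe u

namespace POS

theorem hasDerivAt_phi (t : ℝ) {x : ℝ} (hx : x ≠ 0) :
    HasDerivAt (phi t) (Real.log t - Real.log x / 2) x := by
  have h1 := Real.hasDerivAt_mul_log hx
  have h2 : HasDerivAt (fun y : ℝ => y * Real.log t) (1 * Real.log t) x :=
    (hasDerivAt_id x).mul_const _
  have h3 := h2.sub ((h1.sub (hasDerivAt_id x)).div_const 2)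
  have h4 : HasDerivAt (phi t) (1 * Real.log t - (Real.log x + 1 - 1) / 2) x := h3
  convert h4 using 1
  ring

theorem log_sq_half {t : ℝ} : Real.log (t ^ 2) / 2 = Real.log t := by
  rw [Real.log_pow]
  push_cast
  ring

theorem strictMono_phi (hc : ∀ t : ℝ, Continuous (phi t)) {t : ℝ} (_ht : 0 < t) :
    StrictMonoOn (phi t) (Set.Icc 0 (t ^ 2)) := by
  apply strictMonoOn_of_deriv_pos (convex_Icc _ _) (hc t).continuousOn
  intro x hx
  rw [interior_Icc] at hx
  rw [(hasDerivAt_phi t hx.1.ne').deriv, ← log_sq_half (t := t)]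
  have := Real.log_lt_log hx.1 hx.2
  linarith

theorem strictAnti_phi (hc : ∀ t : ℝ, Continuous (phi t)) {t : ℝ} (ht : 0 < t) :
    StrictAntiOn (phi t) (Set.Ici (t ^ 2)) := by
  apply strictAntiOn_of_deriv_neg (convex_Ici _) (hc t).continuousOn
  intro x hx
  rw [interior_Ici] at hx
  have hx' : t ^ 2 < x := hx
  have ht2 : 0 < t ^ 2 := by positivity
  rw [(hasDerivAt_phi t (ht2.trans hx').ne').deriv, ← log_sq_half (t := t)]
  have := Real.log_lt_log ht2 hx'
  linarith

end POS

theorem POS_thm (_h1 : CMP_Stmt) (h2 : PHS_Stmt) : POS_Stmt := by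
  intro a b ha hab
  obtain ⟨hc, -, -, hint⟩ := h2
  have hb : 0 < b := ha.trans hab
  have hc0 : 0 < a * b := mul_pos ha hb
  have hac : a ^ 2 < a * b := by nlinarith
  have hcb : a * b < b ^ 2 := by nlinarith
  have hb2 : b ^ 2 < 2 * b ^ 2 := by nlinarith [pow_pos hb 2]
  have hcont : ∀ t y : ℝ, Continuous (fun x => max (phi t x - phi t y) 0) := fun t y =>
    ((hc t).sub continuous_const).max continuous_const
  obtain ⟨p1, hp1⟩ : ∃ p1, p1 = ∫ x in (0 : ℝ)..(a * b), max (phi a x - phi a (a * b)) 0 :=
    ⟨_, rfl⟩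
  obtain ⟨p2, hp2⟩ : ∃ p2, p2 = ∫ x in (a * b)..(2 * b ^ 2), max (phi b x - phi b (a * b)) 0 :=
    ⟨_, rfl⟩
  have hp1' : 0 < p1 := by
    rw [hp1]
    apply intervalIntegral.integral_pos hc0 (hcont _ _).continuousOn
    · intro x _
      exact le_max_right _ _
    · refine ⟨a ^ 2, ⟨by positivity, hac.le⟩, ?_⟩
      apply lt_max_of_lt_left
      have := POS.strictAnti_phi hc ha (Set.mem_Ici.mpr le_rfl) (Set.mem_Ici.mpr hac.le) hac
      linarith
  have hp2' : 0 < p2 := by
    rw [hp2]
    apply intervalIntegral.integral_pos (hcb.trans hb2) (hcont _ _).continuousOn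
    · intro x _
      exact le_max_right _ _
    · refine ⟨b ^ 2, ⟨hcb.le, hb2.le⟩, ?_⟩
      apply lt_max_of_lt_left
      have := POS.strictMono_phi hc hb (Set.mem_Icc.mpr ⟨hc0.le, hcb.le⟩)
        (Set.mem_Icc.mpr ⟨by positivity, le_rfl⟩) hcb
      linarith
  have hlow : ∀ μ : ℝ, 0 ≤ μ → min (2 * p1) (2 * p2) ≤ Phi a b μ := by
    intro μ hμ
    have hA : 0 ≤ ∫ x in (0 : ℝ)..μ, max (phi a x - phi a μ) 0 :=
      intervalIntegral.integral_nonneg hμ fun x _ => le_max_right _ _
    have hB : 0 ≤ ∫ x in Set.Ioi μ, max (phi b x - phi b μ) 0 :=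
      setIntegral_nonneg measurableSet_Ioi fun x _ => le_max_right _ _
    rw [Phi]
    rcases le_total (a * b) μ with h | h
    · refine (min_le_left _ _).trans ?_
      have h3 : p1 ≤ ∫ x in (0 : ℝ)..μ, max (phi a x - phi a μ) 0 := by
        have h4 : ∫ x in (0 : ℝ)..(a * b), max (phi a x - phi a μ) 0 ≤
            ∫ x in (0 : ℝ)..μ, max (phi a x - phi a μ) 0 := by
          apply intervalIntegral.integral_mono_interval le_rfl hc0.le h
          · exact Filter.Eventually.of_forall fun x => le_max_right _ _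
          · exact (hcont _ _).intervalIntegrable _ _
        refine le_trans ?_ h4
        rw [hp1]
        apply intervalIntegral.integral_mono_on hc0.le ((hcont _ _).intervalIntegrable _ _)
          ((hcont _ _).intervalIntegrable _ _)
        intro x _
        apply max_le_max _ le_rfl
        have h5 : phi a μ ≤ phi a (a * b) := by
          rcases h.eq_or_lt with rfl | h'
          · exact le_rfl
          · exact (POS.strictAnti_phi hc ha (Set.mem_Ici.mpr hac.le)
              (Set.mem_Ici.mpr (hac.le.trans h)) h').le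
        linarith
      linarith
    · refine (min_le_right _ _).trans ?_
      have h3 : p2 ≤ ∫ x in Set.Ioi μ, max (phi b x - phi b μ) 0 := by
        have h4 : ∫ x in (a * b)..(2 * b ^ 2), max (phi b x - phi b μ) 0 ≤
            ∫ x in Set.Ioi μ, max (phi b x - phi b μ) 0 := by
          rw [intervalIntegral.integral_of_le (hcb.trans hb2).le]
          apply setIntegral_mono_set (hint b μ hb hμ).1
          · exact Filter.Eventually.of_forall fun x => le_max_right _ _
          · apply Filter.Eventually.of_forall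
            intro x hx
            exact lt_of_le_of_lt h hx.1
        refine le_trans ?_ h4
        rw [hp2]
        apply intervalIntegral.integral_mono_on (hcb.trans hb2).le
          ((hcont _ _).intervalIntegrable _ _) ((hcont _ _).intervalIntegrable _ _)
        intro x _
        apply max_le_max _ le_rfl
        have h5 : phi b μ ≤ phi b (a * b) := by
          rcases h.eq_or_lt with rfl | h'
          · exact le_rfl
          · exact (POS.strictMono_phi hc hb (Set.mem_Icc.mpr ⟨hμ, h.trans hcb.le⟩)
              (Set.mem_Icc.mpr ⟨hc0.le, hcb.le⟩) h').le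
        linarith
      linarith
  have hpos : 0 < min (2 * p1) (2 * p2) := lt_min (by linarith) (by linarith)
  refine lt_of_lt_of_le hpos ?_
  rw [Cexp]
  apply le_csInf
  · exact ⟨_, 0, Set.mem_Ici.mpr le_rfl, rfl⟩
  · rintro _ ⟨μ, hμ, rfl⟩
    exact hlow μ hμ

end Pool.Agent.HA
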