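import Pool.Agent.HA.Stmts

/-!
RIE: the finite exponent of the annulus is `r^4 Phi`, uniformly.
-/

namespace Pool.Agent.HA

open MeasureTheory ProbabilityTheory Filter Topology Pool.Agent.GH

universe u

namespace RIE

/-- One sum of positive parts. -/
theorem part (h1 : LGA_Stmt) (h3 : RSU_Stmt) {t X ε : ℝ} (ht : 0 < t) (hX : 0 < X) (hε : 0 < ε) :
    ∀ᶠ r : ℝ in atTop, ∀ m p q : ℕ, p ≤ q → (q : ℝ) ≤ X * r ^ 2 → (m : ℝ) ≤ X * r ^ 2 →
      |(∑ n ∈ Finset.Ico p q, max (Lg n (r * t) - Lg m (r * t)) 0) -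
        r ^ 4 * ∫ x in ((p : ℝ) / r ^ 2)..((q : ℝ) / r ^ 2),
          max (phi t x - phi t ((m : ℝ) / r ^ 2)) 0| ≤ ε * r ^ 4 := by
  set C : ℝ := X * (2 + 2 * Real.log (X + 1) + 4) with hC
  filter_upwards [h3 t X (ε / 2) ht hX (by positivity), eventually_ge_atTop (1 : ℝ),
    eventually_ge_atTop (2 * C / ε)] with r hr hr1 hrC m p q hpq hq hm
  have hr0 : 0 < r := by linarith
  have hlog : Real.log (X * r ^ 2 + 1) ≤ Real.log (X + 1) + 2 * r := by
    have e1 : X * r ^ 2 + 1 ≤ (X + 1) * r ^ 2 := by nlinarith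
    calc Real.log (X * r ^ 2 + 1) ≤ Real.log ((X + 1) * r ^ 2) :=
          Real.log_le_log (by positivity) e1
      _ = Real.log (X + 1) + 2 * Real.log r := by
          rw [Real.log_mul (by positivity) (by positivity), Real.log_pow]
          norm_num
      _ ≤ _ := by
          have := Real.log_le_self hr0.le
          linarith
  have hlog0 : 0 ≤ Real.log (X + 1) := Real.log_nonneg (by linarith)
  have hD : X * r ^ 2 * (2 + 2 * Real.log (X * r ^ 2 + 1)) ≤ ε / 2 * r ^ 4 := by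
    have e1 : 2 + 2 * Real.log (X * r ^ 2 + 1) ≤ (2 + 2 * Real.log (X + 1) + 4) * r := by
      nlinarith
    calc X * r ^ 2 * (2 + 2 * Real.log (X * r ^ 2 + 1))
        ≤ X * r ^ 2 * ((2 + 2 * Real.log (X + 1) + 4) * r) :=
          mul_le_mul_of_nonneg_left e1 (by positivity)
      _ = C * r ^ 3 := by rw [hC]; ring
      _ ≤ ε / 2 * r * r ^ 3 := by
          apply mul_le_mul_of_nonneg_right _ (by positivity)
          rw [div_le_iff₀ hε] at hrC
          linarith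
      _ = _ := by ring
  have hsum : |(∑ n ∈ Finset.Ico p q, max (Lg n (r * t) - Lg m (r * t)) 0) -
      r ^ 2 * ∑ n ∈ Finset.Ico p q,
        max (phi t ((n : ℝ) / r ^ 2) - phi t ((m : ℝ) / r ^ 2)) 0| ≤ ε / 2 * r ^ 4 := by
    rw [Finset.mul_sum, ← Finset.sum_sub_distrib]
    refine (Finset.abs_sum_le_sum_abs _ _).trans ?_
    have e1 : ∀ n ∈ Finset.Ico p q, |max (Lg n (r * t) - Lg m (r * t)) 0 -
        r ^ 2 * max (phi t ((n : ℝ) / r ^ 2) - phi t ((m : ℝ) / r ^ 2)) 0| ≤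
          2 + 2 * Real.log (X * r ^ 2 + 1) := by
      intro n hn
      rw [Finset.mem_Ico] at hn
      have e2 : r ^ 2 * max (phi t ((n : ℝ) / r ^ 2) - phi t ((m : ℝ) / r ^ 2)) 0 =
          max (r ^ 2 * phi t ((n : ℝ) / r ^ 2) - r ^ 2 * phi t ((m : ℝ) / r ^ 2)) 0 := by
        rw [mul_max_of_nonneg _ _ (by positivity), mul_zero, mul_sub]
      rw [e2]
      refine (abs_max_sub_max_le_abs _ _ _).trans ?_
      have e3 := h1 t r n ht hr0
      have e4 := h1 t r m ht hr0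
      have hnq : (n : ℝ) ≤ X * r ^ 2 := by
        have : (n : ℝ) ≤ q := by exact_mod_cast hn.2.le
        linarith
      have e5 : Real.log ((n : ℝ) + 1) ≤ Real.log (X * r ^ 2 + 1) :=
        Real.log_le_log (by positivity) (by linarith)
      have e6 : Real.log ((m : ℝ) + 1) ≤ Real.log (X * r ^ 2 + 1) :=
        Real.log_le_log (by positivity) (by linarith)
      rw [abs_le] at e3 e4 ⊢
      constructor <;> linarith [e3.1, e3.2, e4.1, e4.2]
    refine (Finset.sum_le_sum e1).trans ?_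
    rw [Finset.sum_const, Nat.card_Ico, nsmul_eq_mul]
    have e2 : ((q - p : ℕ) : ℝ) ≤ X * r ^ 2 := by
      have : ((q - p : ℕ) : ℝ) ≤ q := by exact_mod_cast Nat.sub_le q p
      linarith
    have e3 : 0 ≤ Real.log (X * r ^ 2 + 1) := Real.log_nonneg (by
      have : 0 < X * r ^ 2 := by positivity
      linarith)
    exact (mul_le_mul_of_nonneg_right e2 (by positivity)).trans hD
  have hR := hr m p q hpq hq hm
  set S : ℝ := ∑ n ∈ Finset.Ico p q,
    max (phi t ((n : ℝ) / r ^ 2) - phi t ((m : ℝ) / r ^ 2)) 0 with hS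
  set I : ℝ := ∫ x in ((p : ℝ) / r ^ 2)..((q : ℝ) / r ^ 2),
    max (phi t x - phi t ((m : ℝ) / r ^ 2)) 0 with hI
  set A : ℝ := ∑ n ∈ Finset.Ico p q, max (Lg n (r * t) - Lg m (r * t)) 0 with hA
  have hR' : |r ^ 2 * S - r ^ 4 * I| ≤ ε / 2 * r ^ 4 := by
    have e1 : r ^ 2 * S - r ^ 4 * I = r ^ 2 * (S - r ^ 2 * I) := by ring
    rw [e1, abs_mul, abs_of_pos (by positivity : (0 : ℝ) < r ^ 2)]
    calc r ^ 2 * |S - r ^ 2 * I| ≤ r ^ 2 * (ε / 2 * r ^ 2) :=
          mul_le_mul_of_nonneg_left hR (by positivity)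
      _ = _ := by ring
  calc |A - r ^ 4 * I| = |(A - r ^ 2 * S) + (r ^ 2 * S - r ^ 4 * I)| := by
        congr 1; ring
    _ ≤ |A - r ^ 2 * S| + |r ^ 2 * S - r ^ 4 * I| := abs_add_le _ _
    _ ≤ ε / 2 * r ^ 4 + ε / 2 * r ^ 4 := add_le_add hsum hR'
    _ = _ := by ring

/-- The sum over `(m, N]` is a sum over `[m, Q)`. -/
theorem sum_eq (h2 : PHS_Stmt) {B : ℝ} (hB : 0 < B) {m N : ℕ} (hN : 3 * B ^ 2 ≤ (N : ℝ)) :
    ∑ n ∈ Finset.Ioc m N, max (Lg n B - Lg m B) 0 =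
      ∑ n ∈ Finset.Ico m (max m (⌊3 * B ^ 2⌋₊ + 1)), max (Lg n B - Lg m B) 0 := by
  classical
  rw [← Finset.sum_filter_ne_zero, ← Finset.sum_filter_ne_zero (s := Finset.Ico _ _)]
  congr 1
  have hfl : ⌊3 * B ^ 2⌋₊ ≤ N := by
    have := Nat.floor_le (by positivity : 0 ≤ 3 * B ^ 2)
    have h : ((⌊3 * B ^ 2⌋₊ : ℕ) : ℝ) ≤ N := by linarith
    exact_mod_cast h
  have key : ∀ n : ℕ, m < n → max (Lg n B - Lg m B) 0 ≠ 0 → n ≤ ⌊3 * B ^ 2⌋₊ := by
    intro n hmn hne
    by_contra hcon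
    push Not at hcon
    apply hne
    have h3 : 3 * B ^ 2 ≤ (n : ℝ) := by
      have := (Nat.floor_lt (by positivity : 0 ≤ 3 * B ^ 2)).1 hcon
      exact this.le
    have h4 := h2.2.2.1 B m n hB hmn h3
    exact max_eq_right (by linarith)
  ext n
  rw [Finset.mem_filter, Finset.mem_filter, Finset.mem_Ioc, Finset.mem_Ico]
  constructor
  · rintro ⟨⟨h3, h4⟩, h5⟩
    have := key n h3 h5
    exact ⟨⟨h3.le, lt_max_of_lt_right (by omega)⟩, h5⟩
  · rintro ⟨⟨h3, h4⟩, h5⟩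
    have h6 : m ≠ n := by
      rintro rfl
      apply h5
      simp
    have h7 := key n (by omega) h5
    exact ⟨⟨by omega, by omega⟩, h5⟩

/-- The integral over `(μ, ∞)` is an integral over a bounded interval. -/
theorem int_eq (h2 : PHS_Stmt) {b μ q : ℝ} (hb : 0 < b) (hμ : 0 ≤ μ)
    (hq : max μ (3 * b ^ 2) ≤ q) :
    ∫ x in Set.Ioi μ, max (phi b x - phi b μ) 0 = ∫ x in μ..q, max (phi b x - phi b μ) 0 := by
  rw [(h2.2.2.2 b μ hb hμ).2]
  have hc : Continuous (fun x => max (phi b x - phi b μ) 0) :=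
    ((h2.1 b).sub continuous_const).max continuous_const
  rw [← intervalIntegral.integral_add_adjacent_intervals
    (hc.intervalIntegrable μ (max μ (3 * b ^ 2))) (hc.intervalIntegrable (max μ (3 * b ^ 2)) q)]
  have h3 : ∫ x in (max μ (3 * b ^ 2))..q, max (phi b x - phi b μ) 0 = 0 := by
    rw [intervalIntegral.integral_of_le hq]
    apply setIntegral_eq_zero_of_forall_eq_zero
    intro x hx
    have h4 : phi b x ≤ phi b μ := by
      apply h2.2.1 b μ x hb hμ
      · exact lt_of_le_of_lt (le_max_left _ _) hx.1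
      · exact (le_max_right _ _).trans hx.1.le
    exact max_eq_right (by linarith)
  rw [h3, add_zero]

end RIE

/-- The finite exponent is `r^4 Phi`, uniformly. -/
theorem RIE_thm (h1 : LGA_Stmt) (h2 : PHS_Stmt) (h3 : RSU_Stmt) : RIE_Stmt := by
  intro a b M ε ha hab hM hε
  have hb : 0 < b := ha.trans hab
  set X : ℝ := M + 3 * b ^ 2 + 1 with hX
  have hX0 : 0 < X := by positivity
  filter_upwards [RIE.part h1 h3 ha hX0 (ε := ε / 4) (by positivity),
    RIE.part h1 h3 hb hX0 (ε := ε / 4) (by positivity), eventually_ge_atTop (1 : ℝ)]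
    with r hra hrb hr1 m N hm hN
  have hr0 : 0 < r := by linarith
  have hrr : 1 ≤ r ^ 2 := one_le_pow₀ hr1
  have hmX : (m : ℝ) ≤ X * r ^ 2 := by
    rw [hX]
    nlinarith
  have e1 := hra m 0 m (Nat.zero_le _) hmX hmX
  set F : ℕ := ⌊3 * (r * b) ^ 2⌋₊ with hF
  have hFl : (F : ℝ) ≤ 3 * b ^ 2 * r ^ 2 := by
    have := Nat.floor_le (by positivity : 0 ≤ 3 * (r * b) ^ 2)
    rw [hF]
    calc _ ≤ 3 * (r * b) ^ 2 := this
      _ = _ := by ring
  have hFu : 3 * b ^ 2 * r ^ 2 < (F : ℝ) + 1 := by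
    have := Nat.lt_floor_add_one (3 * (r * b) ^ 2)
    rw [hF]
    calc _ = 3 * (r * b) ^ 2 := by ring
      _ < _ := this
  have hQX : ((max m (F + 1) : ℕ) : ℝ) ≤ X * r ^ 2 := by
    push_cast
    refine max_le hmX ?_
    rw [hX]
    nlinarith
  have e2 := hrb m m (max m (F + 1)) (le_max_left _ _) hQX hmX
  have e3 := RIE.sum_eq h2 (B := r * b) (m := m) (N := N) (by positivity) (by
    calc 3 * (r * b) ^ 2 = 3 * b ^ 2 * r ^ 2 := by ring
      _ ≤ _ := hN)
  have e4 := RIE.int_eq h2 (b := b) (μ := (m : ℝ) / r ^ 2)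
    (q := ((max m (F + 1) : ℕ) : ℝ) / r ^ 2) hb (by positivity) (by
      rw [max_le_iff]
      constructor
      · gcongr
        exact le_max_left _ _
      · rw [le_div_iff₀ (by positivity)]
        push_cast
        exact hFu.le.trans (le_max_right _ _))
  rw [Nat.cast_zero, zero_div, ← Finset.range_eq_Ico] at e1
  rw [← e3, ← e4] at e2
  unfold TT Phi
  rw [abs_le] at e1 e2 ⊢
  constructor <;> linarith [e1.1, e1.2, e2.1, e2.2]

end Pool.Agent.HA
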