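import Pool.Agent.HA.Stmts

/-!
# RJC: complex linear change of variables
-/

open MeasureTheory

namespace Pool.Agent.HA

namespace RJC

theorem det_sq {k : ℕ} (M : Matrix (Fin k) (Fin k) ℂ) :
    LinearMap.det ((Matrix.toLin' M).restrictScalars ℝ) = ‖M.det‖ ^ 2 := by
  rw [LinearMap.det_restrictScalars, LinearMap.det_toLin', Algebra.norm_complex_apply,
    Complex.normSq_eq_norm_sq]

end RJC

theorem RJC_thm : RJC_Stmt := by
  intro k M hM F hF c
  have hdet := RJC.det_sq M
  have hpos : 0 < ‖M.det‖ ^ 2 := by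
    have : 0 < ‖M.det‖ := norm_pos_iff.mpr hM
    positivity
  have hne : LinearMap.det ((Matrix.toLin' M).restrictScalars ℝ) ≠ 0 := by
    rw [hdet]
    exact hpos.ne'
  have hmap := Measure.map_linearMap_addHaar_eq_smul_addHaar
    (volume : Measure (Fin k → ℂ)) hne
  have hmeas : Measurable ((Matrix.toLin' M).restrictScalars ℝ) :=
    (LinearMap.continuous_of_finiteDimensional _).measurable
  have hG : Measurable fun w : Fin k → ℂ => F (w + c) := hF.comp (measurable_add_const c)
  have h1 : ∫⁻ x, F (M.mulVec x + c) =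
      ∫⁻ w, F (w + c) ∂(Measure.map ((Matrix.toLin' M).restrictScalars ℝ) volume) := by
    rw [lintegral_map hG hmeas]
    rfl
  rw [h1, hmap, lintegral_smul_measure, hdet, lintegral_add_right_eq_self (fun w => F w) c,
    abs_of_pos (inv_pos.mpr hpos), one_div]
  rfl

end Pool.Agent.HA
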