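import Pool.Agent.HA.Stmts

/-!
Module ROT: Jensen's inequality over a common rotation of the points.
-/

set_option autoImplicit false

namespace Pool.Agent.HA

open MeasureTheory ProbabilityTheory Filter Topology Pool.Agent.GH

universe u

namespace ROT

/-- Rotation invariance of the mean over a circle. -/
theorem rot (g : ℂ → ℝ) (z : ℂ) :
    ∫ θ in (0 : ℝ)..(2 * Real.pi), g (z * Complex.exp (θ * Complex.I)) =
      ∫ θ in (0 : ℝ)..(2 * Real.pi), g (circleMap 0 ‖z‖ θ) := by
  have h1 : ∀ θ : ℝ, z * Complex.exp (θ * Complex.I) = circleMap 0 ‖z‖ (θ + Complex.arg z) := by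
    intro θ
    rw [circleMap, zero_add]
    conv_lhs => rw [← Complex.norm_mul_exp_arg_mul_I z]
    rw [mul_assoc, ← Complex.exp_add]
    congr 2
    push_cast
    ring
  simp_rw [h1]
  rw [intervalIntegral.integral_comp_add_right (fun θ => g (circleMap 0 ‖z‖ θ)) (Complex.arg z)]
  have hp : Function.Periodic (fun θ : ℝ => g (circleMap 0 ‖z‖ θ)) (2 * Real.pi) := by
    intro θ
    simp only [periodic_circleMap 0 ‖z‖ θ]
  have h2 := hp.intervalIntegral_add_eq (0 + Complex.arg z) 0
  rw [zero_add, zero_add] at h2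
  rw [zero_add, add_comm (2 * Real.pi) (Complex.arg z)]
  exact h2

/-- Jensen's inequality for the exponential. -/
theorem jensen (F : ℝ → ℝ) (hF : Continuous F) :
    Real.exp ((2 * Real.pi)⁻¹ * ∫ θ in (0 : ℝ)..(2 * Real.pi), F θ) ≤
      (2 * Real.pi)⁻¹ * ∫ θ in (0 : ℝ)..(2 * Real.pi), Real.exp (F θ) := by
  set m := (2 * Real.pi)⁻¹ * ∫ θ in (0 : ℝ)..(2 * Real.pi), F θ with hm
  have hpi : 0 < 2 * Real.pi := by positivity
  have hIF : ∫ θ in (0 : ℝ)..(2 * Real.pi), F θ = 2 * Real.pi * m := by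
    rw [hm]
    field_simp
  have h1 : ∫ θ in (0 : ℝ)..(2 * Real.pi), Real.exp m * (1 + (F θ - m)) ≤
      ∫ θ in (0 : ℝ)..(2 * Real.pi), Real.exp (F θ) := by
    refine intervalIntegral.integral_mono_on hpi.le ?_ ?_ ?_
    · exact (continuous_const.mul (continuous_const.add (hF.sub continuous_const))).intervalIntegrable
        _ _
    · exact (Real.continuous_exp.comp hF).intervalIntegrable _ _
    · intro θ _
      have e1 : Real.exp (F θ) = Real.exp m * Real.exp (F θ - m) := by
        rw [← Real.exp_add]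
        congr 1
        ring
      rw [e1]
      refine mul_le_mul_of_nonneg_left ?_ (Real.exp_pos m).le
      linarith [Real.add_one_le_exp (F θ - m)]
  have h2 : ∫ θ in (0 : ℝ)..(2 * Real.pi), Real.exp m * (1 + (F θ - m)) =
      2 * Real.pi * Real.exp m := by
    rw [intervalIntegral.integral_const_mul, intervalIntegral.integral_add,
      intervalIntegral.integral_sub, hIF]
    · simp
      ring
    · exact hF.intervalIntegrable _ _
    · exact continuous_const.intervalIntegrable _ _
    · exact continuous_const.intervalIntegrable _ _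
    · exact (hF.sub continuous_const).intervalIntegrable _ _
  rw [h2] at h1
  calc Real.exp m = (2 * Real.pi)⁻¹ * (2 * Real.pi * Real.exp m) := by field_simp
    _ ≤ _ := mul_le_mul_of_nonneg_left h1 (by positivity)

end ROT

open ROT in
theorem ROT_thm : ROT_Stmt := by
  intro f A B s Na Nb z hf hA hAB hne hs hT
  obtain ⟨hTA, hTB⟩ := hT
  have hnorm : ∀ j, A ≤ ‖z j‖ ∧ ‖z j‖ ≤ B := by
    intro j
    by_cases hj : (j : ℕ) < Na
    · rw [hTA j hj]
      exact ⟨le_rfl, hAB⟩
    · rw [hTB j (not_lt.mp hj)]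
      exact ⟨hAB, le_rfl⟩
  have hn2 : ∀ j (θ : ℝ), ‖z j * Complex.exp (θ * Complex.I)‖ = ‖z j‖ := by
    intro j θ
    rw [norm_mul, Complex.norm_exp_ofReal_mul_I, mul_one]
  have hpos : ∀ j (θ : ℝ), 0 < ‖f (z j * Complex.exp (θ * Complex.I))‖ := by
    intro j θ
    rw [norm_pos_iff]
    exact hne _ (by rw [hn2]; exact (hnorm j).1) (by rw [hn2]; exact (hnorm j).2)
  have hc : ∀ j, Continuous fun θ : ℝ => Real.log ‖f (z j * Complex.exp (θ * Complex.I))‖ := by
    intro j
    refine Continuous.log ?_ fun θ => (hpos j θ).ne'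
    exact (hf.comp (continuous_const.mul (Complex.continuous_exp.comp
      (Complex.continuous_ofReal.mul continuous_const)))).norm
  set F : ℝ → ℝ := fun θ => ∑ j, -s * Real.log ‖f (z j * Complex.exp (θ * Complex.I))‖ with hF
  have hFc : Continuous F := continuous_finsetSum _ fun j _ => continuous_const.mul (hc j)
  have hprod : ∀ θ : ℝ, ∏ j, ‖f (z j * Complex.exp (θ * Complex.I))‖ ^ (-s) = Real.exp (F θ) := by
    intro θ
    rw [hF, Real.exp_sum]
    refine Finset.prod_congr rfl fun j _ => ?_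
    rw [Real.rpow_def_of_pos (hpos j θ), mul_comm]
  have havg : ∀ j, (2 * Real.pi)⁻¹ * ∫ θ in (0 : ℝ)..(2 * Real.pi),
      Real.log ‖f (z j * Complex.exp (θ * Complex.I))‖ =
      Real.circleAverage (fun w => Real.log ‖f w‖) 0 ‖z j‖ := by
    intro j
    rw [rot (fun w => Real.log ‖f w‖) (z j), Real.circleAverage_def, smul_eq_mul]
  have hsum : (2 * Real.pi)⁻¹ * ∫ θ in (0 : ℝ)..(2 * Real.pi), F θ =
      -(s * ((Na : ℝ) * Real.circleAverage (fun w => Real.log ‖f w‖) 0 A +
      (Nb : ℝ) * Real.circleAverage (fun w => Real.log ‖f w‖) 0 B)) := by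
    have h1 : ∫ θ in (0 : ℝ)..(2 * Real.pi), F θ = ∑ j, ∫ θ in (0 : ℝ)..(2 * Real.pi),
        -s * Real.log ‖f (z j * Complex.exp (θ * Complex.I))‖ :=
      intervalIntegral.integral_finsetSum fun j _ =>
        (continuous_const.mul (hc j)).intervalIntegrable _ _
    rw [h1, Finset.mul_sum]
    have h2 : ∀ j, (2 * Real.pi)⁻¹ * ∫ θ in (0 : ℝ)..(2 * Real.pi),
        -s * Real.log ‖f (z j * Complex.exp (θ * Complex.I))‖ =
        -s * Real.circleAverage (fun w => Real.log ‖f w‖) 0 ‖z j‖ := by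
      intro j
      rw [intervalIntegral.integral_const_mul, ← havg j]
      ring
    rw [Finset.sum_congr rfl fun j _ => h2 j, Fin.sum_univ_add]
    have h3 : ∀ i : Fin Na, ‖z (Fin.castAdd Nb i)‖ = A := fun i => hTA _ (by simp)
    have h4 : ∀ i : Fin Nb, ‖z (Fin.natAdd Na i)‖ = B := fun i => hTB _ (by simp)
    simp only [h3, h4, Finset.sum_const, Finset.card_univ, Fintype.card_fin, nsmul_eq_mul]
    ring
  rw [← hsum]
  simp_rw [hprod]
  exact jensen F hFc

end Pool.Agent.HA
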