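import Pool.Agent.HA.Stmts

/-!
HA_RSU: uniform Riemann sums.
-/

namespace Pool.Agent.HA

open MeasureTheory ProbabilityTheory Filter Topology Pool.Agent.GH

universe u

namespace RSU

theorem phi_cont (t : ℝ) : Continuous (phi t) := by
  unfold phi
  have h := Real.continuous_mul_log
  fun_prop

theorem max_lip (u v : ℝ) : |max u 0 - max v 0| ≤ |u - v| :=
  abs_max_sub_max_le_abs u v 0

end RSU

open RSU in
/-- Uniform Riemann sums. -/
theorem RSU_thm : RSU_Stmt := by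
  intro t X ε ht hX hε
  have hK : IsCompact (Set.Icc (0 : ℝ) X) := isCompact_Icc
  have huc : UniformContinuousOn (phi t) (Set.Icc (0 : ℝ) X) :=
    hK.uniformContinuousOn_of_continuous (phi_cont t).continuousOn
  have hX1 : 0 < ε / X := by positivity
  obtain ⟨δ, hδ, hδ'⟩ := Metric.uniformContinuousOn_iff.1 huc (ε / X) hX1
  have hev : ∀ᶠ r : ℝ in atTop, 0 < r ∧ 1 / r ^ 2 < δ := by
    have h1 : Tendsto (fun r : ℝ => 1 / r ^ 2) atTop (𝓝 0) := by
      have := tendsto_pow_neg_atTop (𝕜 := ℝ) (n := 2) (by norm_num)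
      refine this.congr (fun r => ?_)
      rw [zpow_neg, one_div]
      norm_cast
    filter_upwards [eventually_gt_atTop (0 : ℝ), h1.eventually (gt_mem_nhds hδ)] with r hr hr'
    exact ⟨hr, hr'⟩
  filter_upwards [hev] with r hr m p q hpq hq hm
  obtain ⟨hr0, hrδ⟩ := hr
  have hr2 : 0 < r ^ 2 := by positivity
  set c : ℝ := phi t ((m : ℝ) / r ^ 2) with hc
  set g : ℝ → ℝ := fun x => max (phi t x - c) 0 with hg
  have hgc : Continuous g := by
    have := phi_cont t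
    rw [hg]
    fun_prop
  have hint : ∀ a b : ℝ, IntervalIntegrable g volume a b := fun a b =>
    hgc.intervalIntegrable a b
  have hsum : ∑ n ∈ Finset.Ico p q, ∫ x in ((n : ℝ) / r ^ 2)..(((n + 1 : ℕ) : ℝ) / r ^ 2), g x =
      ∫ x in ((p : ℝ) / r ^ 2)..((q : ℝ) / r ^ 2), g x :=
    intervalIntegral.sum_integral_adjacent_intervals_Ico (a := fun n : ℕ => (n : ℝ) / r ^ 2) hpq
      (fun k _ => hint _ _)
  have hterm : ∀ n ∈ Finset.Ico p q,
      |g ((n : ℝ) / r ^ 2) - r ^ 2 * ∫ x in ((n : ℝ) / r ^ 2)..(((n + 1 : ℕ) : ℝ) / r ^ 2), g x| ≤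
        ε / X := by
    intro n hn
    rw [Finset.mem_Ico] at hn
    have hlen : (((n + 1 : ℕ) : ℝ) / r ^ 2) - ((n : ℝ) / r ^ 2) = 1 / r ^ 2 := by
      push_cast
      ring
    have hle : ((n : ℝ) / r ^ 2) ≤ (((n + 1 : ℕ) : ℝ) / r ^ 2) := by
      have : 0 < 1 / r ^ 2 := by positivity
      linarith
    have hn1 : (((n + 1 : ℕ) : ℝ) / r ^ 2) ≤ X := by
      rw [div_le_iff₀ hr2]
      have : ((n + 1 : ℕ) : ℝ) ≤ (q : ℝ) := by exact_mod_cast hn.2
      linarith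
    have hn0 : 0 ≤ ((n : ℝ) / r ^ 2) := by positivity
    have hconst : ∫ x in ((n : ℝ) / r ^ 2)..(((n + 1 : ℕ) : ℝ) / r ^ 2),
        g ((n : ℝ) / r ^ 2) = 1 / r ^ 2 * g ((n : ℝ) / r ^ 2) := by
      rw [intervalIntegral.integral_const, hlen, smul_eq_mul]
    have heq : g ((n : ℝ) / r ^ 2) -
        r ^ 2 * ∫ x in ((n : ℝ) / r ^ 2)..(((n + 1 : ℕ) : ℝ) / r ^ 2), g x =
        r ^ 2 * ∫ x in ((n : ℝ) / r ^ 2)..(((n + 1 : ℕ) : ℝ) / r ^ 2),
          (g ((n : ℝ) / r ^ 2) - g x) := by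
      rw [intervalIntegral.integral_sub (by simp) (hint _ _), hconst]
      field_simp
    rw [heq, abs_mul, abs_of_pos hr2]
    have hb : ‖∫ x in ((n : ℝ) / r ^ 2)..(((n + 1 : ℕ) : ℝ) / r ^ 2),
          (g ((n : ℝ) / r ^ 2) - g x)‖ ≤
        ε / X * |(((n + 1 : ℕ) : ℝ) / r ^ 2) - ((n : ℝ) / r ^ 2)| := by
      apply intervalIntegral.norm_integral_le_of_norm_le_const
      intro x hx
      rw [Set.uIoc_of_le hle] at hx
      have hx0 : 0 ≤ x := le_trans hn0 hx.1.le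
      have hxX : x ≤ X := le_trans hx.2 hn1
      have hd : dist ((n : ℝ) / r ^ 2) x < δ := by
        rw [Real.dist_eq, abs_sub_comm, abs_of_nonneg (by linarith [hx.1])]
        linarith [hx.2]
      have h3 := hδ' ((n : ℝ) / r ^ 2) ⟨hn0, le_trans hle hn1⟩ x ⟨hx0, hxX⟩ hd
      rw [Real.dist_eq] at h3
      rw [Real.norm_eq_abs]
      have h4 := max_lip (phi t ((n : ℝ) / r ^ 2) - c) (phi t x - c)
      have h5 : phi t ((n : ℝ) / r ^ 2) - c - (phi t x - c) =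
          phi t ((n : ℝ) / r ^ 2) - phi t x := by ring
      rw [h5] at h4
      exact le_trans h4 h3.le
    rw [Real.norm_eq_abs, hlen, abs_of_pos (show (0 : ℝ) < 1 / r ^ 2 by positivity)] at hb
    calc r ^ 2 * |∫ x in ((n : ℝ) / r ^ 2)..(((n + 1 : ℕ) : ℝ) / r ^ 2),
          (g ((n : ℝ) / r ^ 2) - g x)| ≤ r ^ 2 * (ε / X * (1 / r ^ 2)) :=
          mul_le_mul_of_nonneg_left hb hr2.le
      _ = ε / X := by field_simp
  have hfin : (∑ n ∈ Finset.Ico p q, g ((n : ℝ) / r ^ 2)) -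
      r ^ 2 * ∫ x in ((p : ℝ) / r ^ 2)..((q : ℝ) / r ^ 2), g x =
      ∑ n ∈ Finset.Ico p q, (g ((n : ℝ) / r ^ 2) -
        r ^ 2 * ∫ x in ((n : ℝ) / r ^ 2)..(((n + 1 : ℕ) : ℝ) / r ^ 2), g x) := by
    rw [← hsum, Finset.mul_sum, Finset.sum_sub_distrib]
  have hgoal : |(∑ n ∈ Finset.Ico p q, g ((n : ℝ) / r ^ 2)) -
      r ^ 2 * ∫ x in ((p : ℝ) / r ^ 2)..((q : ℝ) / r ^ 2), g x| ≤ ε * r ^ 2 := by
    rw [hfin]
    refine le_trans (Finset.abs_sum_le_sum_abs _ _) ?_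
    refine le_trans (Finset.sum_le_sum hterm) ?_
    rw [Finset.sum_const, Nat.card_Ico, nsmul_eq_mul]
    have hcard : ((q - p : ℕ) : ℝ) ≤ X * r ^ 2 := by
      have : ((q - p : ℕ) : ℝ) ≤ (q : ℝ) := by exact_mod_cast Nat.sub_le q p
      linarith
    calc ((q - p : ℕ) : ℝ) * (ε / X) ≤ (X * r ^ 2) * (ε / X) :=
          mul_le_mul_of_nonneg_right hcard hX1.le
      _ = ε * r ^ 2 := by field_simp
  exact hgoal

end Pool.Agent.HA
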