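import Pool.Agent.HA.Stmts

/-!
Exact hole probability exponent of annuli: the case of at most `M r^2` zeros inside (module SMM).
-/

namespace Pool.Agent.HA

open MeasureTheory ProbabilityTheory Filter Topology Pool.Agent.GH

universe u

namespace SMM

lemma quad (A0 A1 c : ℝ) (hc : 0 < c) : ∀ᶠ r : ℝ in atTop, A0 + A1 * r ≤ c * r ^ 2 := by
  filter_upwards [eventually_ge_atTop (1 : ℝ), eventually_ge_atTop ((|A0| + |A1|) / c)]
    with r h1 h2
  have h3 : |A0| + |A1| ≤ c * r := by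
    rw [div_le_iff₀ hc] at h2
    linarith
  have h4 := le_abs_self A0
  have h5 := le_abs_self A1
  have h6 := abs_nonneg A0
  have h7 : (|A0| + |A1|) * r ≤ c * r * r := mul_le_mul_of_nonneg_right h3 (by linarith)
  have h8 : |A0| ≤ |A0| * r := le_mul_of_one_le_right h6 h1
  have h9 : A1 * r ≤ |A1| * r := mul_le_mul_of_nonneg_right h5 (by linarith)
  have h10 : c * r * r = c * r ^ 2 := by ring
  linarith [h7, h8, h9, h10]

lemma log_sq {L r : ℝ} (hL : 0 < L) (hr : 1 ≤ r) : Real.log (L * r ^ 2) ≤ |Real.log L| + 2 * r := by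
  have h0 : 0 < r := by linarith
  rw [Real.log_mul hL.ne' (by positivity), Real.log_pow]
  have h1 := Real.log_le_sub_one_of_pos h0
  have h2 := le_abs_self (Real.log L)
  push_cast
  linarith

lemma log_add {M r x : ℝ} (hM : 0 < M) (hr : 1 ≤ r) (hx : 0 ≤ x) (hxM : x ≤ M * r ^ 2) :
    Real.log (x + 1) ≤ Real.log (M + 1) + 2 * r := by
  have h0 : 0 < r := by linarith
  have h1 : x + 1 ≤ (M + 1) * r ^ 2 := by nlinarith
  have h2 : Real.log (x + 1) ≤ Real.log ((M + 1) * r ^ 2) :=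
    Real.log_le_log (by linarith) h1
  rw [Real.log_mul (by linarith) (by positivity), Real.log_pow] at h2
  have h3 := Real.log_le_sub_one_of_pos h0
  push_cast at h2
  linarith

end SMM

open SMM in
theorem SMM_thm (h1 : UBT_Stmt.{u}) (h2 : RIE_Stmt) (h3 : LGA_Stmt) (h4 : PHS_Stmt)
    (h5 : CMP_Stmt) : SMM_Stmt.{u} := by
  intro Ω _ P ξ hξ a b M L ε ha hab hM hL hε
  obtain ⟨C₀, hC₀, hU⟩ := h1 P ξ hξ
  have hb : 0 < b := ha.trans hab
  -- bound for the profiles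
  obtain ⟨S1, hS1⟩ := (isCompact_Icc (a := (0 : ℝ)) (b := M)).exists_bound_of_continuousOn
    (h4.1 a).continuousOn
  obtain ⟨S2, hS2⟩ := (isCompact_Icc (a := (0 : ℝ)) (b := M)).exists_bound_of_continuousOn
    (h4.1 b).continuousOn
  obtain ⟨S, hS⟩ : ∃ S, S = max S1 S2 := ⟨_, rfl⟩
  have hSa : ∀ x ∈ Set.Icc 0 M, |phi a x| ≤ S := fun x hx => by
    rw [hS]
    exact (hS1 x hx).trans (le_max_left _ _)
  have hSb : ∀ x ∈ Set.Icc 0 M, |phi b x| ≤ S := fun x hx => by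
    rw [hS]
    exact (hS2 x hx).trans (le_max_right _ _)
  have hS0 : 0 ≤ S := (abs_nonneg _).trans (hSa 0 ⟨le_rfl, hM.le⟩)
  obtain ⟨X₀, hX₀⟩ : ∃ X₀, X₀ = max (3 * b ^ 2) M := ⟨_, rfl⟩
  have hX₀1 : 3 * b ^ 2 ≤ X₀ := by rw [hX₀]; exact le_max_left _ _
  have hX₀2 : M ≤ X₀ := by rw [hX₀]; exact le_max_right _ _
  have hX₀0 : 0 < X₀ := lt_of_lt_of_le hM hX₀2
  obtain ⟨X, hX⟩ : ∃ X, X = X₀ + 1 := ⟨_, rfl⟩
  have hX0 : 0 < X := by linarith
  have hSb0 : 0 < S + 1 + b ^ 2 := by positivity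
  obtain ⟨δ, hδ⟩ : ∃ δ, δ = min (1 / 8) (ε / (16 * X * M)) := ⟨_, rfl⟩
  obtain ⟨η, hη⟩ : ∃ η, η = min 1 (ε / (8 * X * (S + 1 + b ^ 2))) := ⟨_, rfl⟩
  have hδ0 : 0 < δ := by rw [hδ]; positivity
  have hη0 : 0 < η := by rw [hη]; positivity
  have hδ1 : δ ≤ 1 / 8 := by rw [hδ]; exact min_le_left _ _
  have hη1 : η ≤ 1 := by rw [hη]; exact min_le_left _ _
  have hδ2 : 2 * δ * M ≤ ε / (8 * X) := by
    have h : δ ≤ ε / (16 * X * M) := by rw [hδ]; exact min_le_right _ _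
    calc 2 * δ * M ≤ 2 * (ε / (16 * X * M)) * M := by gcongr
      _ = ε / (8 * X) := by field_simp; norm_num
  have hη2 : η * (S + 1 + b ^ 2) ≤ ε / (8 * X) := by
    have h : η ≤ ε / (8 * X * (S + 1 + b ^ 2)) := by rw [hη]; exact min_le_right _ _
    calc η * (S + 1 + b ^ 2) ≤ ε / (8 * X * (S + 1 + b ^ 2)) * (S + 1 + b ^ 2) := by gcongr
      _ = ε / (8 * X) := by field_simp
  refine ⟨δ, hδ0, hδ1, fun C hC => ?_⟩
  obtain ⟨G0, hG0⟩ : ∃ G0, G0 = 2 * |Real.log L| + 2 * C + 2 * Real.log (M + 1) +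
    2 * Real.log (b / (b - a)) + η * |Real.log L| + η * C₀ + |Real.log (2 / η)| := ⟨_, rfl⟩
  filter_upwards [eventually_ge_atTop (2 : ℝ), quad (1 + Real.log (M + 1)) 2 1 one_pos,
    quad G0 (8 + 2 * η) (ε / (4 * X)) (by positivity), h2 a b M (ε / 2) ha hab hM (by linarith),
    quad 1 0 L hL] with r hr hq1 hq2 hrie hL1 m hm
  have hr1 : 1 ≤ r := by linarith
  have hr0 : 0 < r := by linarith
  have hr2 : 0 < r ^ 2 := by positivity
  have hr4 : 4 ≤ r ^ 2 := by nlinarith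
  have hL1' : 1 ≤ L * r ^ 2 := by linarith
  -- the number of terms
  obtain ⟨N, hN⟩ : ∃ N : ℕ, N = ⌈X₀ * r ^ 2⌉₊ := ⟨_, rfl⟩
  have hN1 : X₀ * r ^ 2 ≤ (N : ℝ) := by rw [hN]; exact Nat.le_ceil _
  have hN2 : (N : ℝ) < X₀ * r ^ 2 + 1 := by rw [hN]; exact Nat.ceil_lt_add_one (by positivity)
  have hN3 : (N : ℝ) + 1 ≤ X * r ^ 2 := by
    rw [hX]
    linarith
  have hmN : m ≤ N := by
    have h : (m : ℝ) ≤ N := by
      refine hm.trans (le_trans ?_ hN1)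
      exact mul_le_mul_of_nonneg_right hX₀2 hr2.le
    exact_mod_cast h
  have hN4 : 3 * b ^ 2 * r ^ 2 ≤ (N : ℝ) :=
    (mul_le_mul_of_nonneg_right hX₀1 hr2.le).trans hN1
  have hm0 : (0 : ℝ) ≤ m := Nat.cast_nonneg m
  have hmr : (m : ℝ) / r ^ 2 ∈ Set.Icc 0 M := by
    constructor
    · positivity
    · rw [div_le_iff₀ hr2]
      exact hm
  have hlm : Real.log ((m : ℝ) + 1) ≤ Real.log (M + 1) + 2 * r := log_add hM hr1 hm0 hm
  have hlm0 : 0 ≤ Real.log ((m : ℝ) + 1) := Real.log_nonneg (by linarith)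
  -- bounds for the dominating term
  have hLg : ∀ t : ℝ, 0 < t → (∀ x ∈ Set.Icc 0 M, |phi t x| ≤ S) →
      |Lg m (r * t)| ≤ (S + 1) * r ^ 2 := by
    intro t ht hSt
    have e1 := h3 t r m ht hr0
    have e2 := hSt _ hmr
    have e3 : |Lg m (r * t)| ≤ |Lg m (r * t) - r ^ 2 * phi t ((m : ℝ) / r ^ 2)| +
        |r ^ 2 * phi t ((m : ℝ) / r ^ 2)| := by
      have := abs_add_le (Lg m (r * t) - r ^ 2 * phi t ((m : ℝ) / r ^ 2))
        (r ^ 2 * phi t ((m : ℝ) / r ^ 2))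
      rwa [sub_add_cancel] at this
    have e4 : |r ^ 2 * phi t ((m : ℝ) / r ^ 2)| ≤ r ^ 2 * S := by
      rw [abs_mul, abs_of_pos hr2]
      exact mul_le_mul_of_nonneg_left e2 hr2.le
    have e5 : (S + 1) * r ^ 2 = r ^ 2 * S + r ^ 2 := by ring
    rw [e5]
    linarith
  have hlL : Real.log (L * r ^ 2) ≤ |Real.log L| + 2 * r := log_sq hL hr1
  have hlL0 : 0 ≤ Real.log (L * r ^ 2) := Real.log_nonneg hL1'
  have hE0 : 0 ≤ Real.log (L * r ^ 2) + C + δ * m + Real.log ((m : ℝ) + 1) := by positivity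
  have hmain := hU (r * a) (r * b) (L * r ^ 2) η
    (Real.log (L * r ^ 2) + C + δ * m + Real.log ((m : ℝ) + 1)) ((S + 1) * r ^ 2) m N
    (by positivity) (mul_lt_mul_of_pos_left hab hr0) hL1' hη0 (by linarith) hE0
    (hLg a ha hSa) (hLg b hb hSb) hmN
  refine hmain.trans (Real.exp_le_exp.2 ?_)
  -- the exponent
  have hT : r ^ 4 * Cexp a b - ε / 2 * r ^ 4 ≤ TT m N (r * a) (r * b) := by
    have e1 := (abs_le.1 (hrie m N hm hN4)).1
    have e2 : Cexp a b ≤ Phi a b ((m : ℝ) / r ^ 2) := by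
      unfold Cexp
      refine csInf_le ?_ ⟨_, hmr.1, rfl⟩
      refine ⟨0, ?_⟩
      rintro _ ⟨μ, hμ, rfl⟩
      exact h5.1 a b μ ha hab hμ
    have e3 : r ^ 4 * Cexp a b ≤ r ^ 4 * Phi a b ((m : ℝ) / r ^ 2) :=
      mul_le_mul_of_nonneg_left e2 (by positivity)
    linarith
  have hlog : Real.log (r * b / (r * b - r * a)) = Real.log (b / (b - a)) := by
    congr 1
    rw [← mul_sub, mul_div_mul_left _ _ hr0.ne']
  rw [hlog]
  have hlab : 0 ≤ Real.log (b / (b - a)) := by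
    apply Real.log_nonneg
    rw [le_div_iff₀ (by linarith)]
    linarith
  have hδm : 2 * (δ * m) ≤ ε / (8 * X) * r ^ 2 := by
    calc 2 * (δ * m) ≤ 2 * (δ * (M * r ^ 2)) := by gcongr
      _ = (2 * δ * M) * r ^ 2 := by ring
      _ ≤ ε / (8 * X) * r ^ 2 := mul_le_mul_of_nonneg_right hδ2 hr2.le
  have hηK : η * ((S + 1) * r ^ 2) + η * (r * b) ^ 2 ≤ ε / (8 * X) * r ^ 2 := by
    calc η * ((S + 1) * r ^ 2) + η * (r * b) ^ 2 = (η * (S + 1 + b ^ 2)) * r ^ 2 := by ring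
      _ ≤ ε / (8 * X) * r ^ 2 := mul_le_mul_of_nonneg_right hη2 hr2.le
  have hηL : η * Real.log (L * r ^ 2) ≤ η * |Real.log L| + 2 * η * r := by
    have := mul_le_mul_of_nonneg_left hlL hη0.le
    linarith
  have hinner : 2 * (Real.log (L * r ^ 2) + C + δ * m + Real.log ((m : ℝ) + 1)) +
      η * ((S + 1) * r ^ 2) + 2 * Real.log (b / (b - a)) +
      (η * (Real.log (L * r ^ 2) + C₀ + (r * b) ^ 2) + |Real.log (2 / η)|) ≤
      ε / (2 * X) * r ^ 2 := by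
    have e1 : ε / (2 * X) * r ^ 2 = ε / (8 * X) * r ^ 2 + ε / (8 * X) * r ^ 2 +
        ε / (4 * X) * r ^ 2 := by
      field_simp
      ring
    rw [e1]
    have e2 : G0 + (8 + 2 * η) * r ≤ ε / (4 * X) * r ^ 2 := hq2
    rw [hG0] at e2
    linarith [e2, hδm, hηK, hηL, hlL, hlm]
  have hinner0 : 0 ≤ 2 * (Real.log (L * r ^ 2) + C + δ * m + Real.log ((m : ℝ) + 1)) +
      η * ((S + 1) * r ^ 2) + 2 * Real.log (b / (b - a)) +
      (η * (Real.log (L * r ^ 2) + C₀ + (r * b) ^ 2) + |Real.log (2 / η)|) := by positivity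
  have hprod : ((N : ℝ) + 1) * (2 * (Real.log (L * r ^ 2) + C + δ * m + Real.log ((m : ℝ) + 1)) +
      η * ((S + 1) * r ^ 2) + 2 * Real.log (b / (b - a)) +
      (η * (Real.log (L * r ^ 2) + C₀ + (r * b) ^ 2) + |Real.log (2 / η)|)) ≤
      ε / 2 * r ^ 4 := by
    calc ((N : ℝ) + 1) * (2 * (Real.log (L * r ^ 2) + C + δ * m + Real.log ((m : ℝ) + 1)) +
      η * ((S + 1) * r ^ 2) + 2 * Real.log (b / (b - a)) +
      (η * (Real.log (L * r ^ 2) + C₀ + (r * b) ^ 2) + |Real.log (2 / η)|))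
        ≤ (X * r ^ 2) * (ε / (2 * X) * r ^ 2) :=
          mul_le_mul hN3 hinner hinner0 (by positivity)
      _ = ε / 2 * r ^ 4 := by field_simp
  linarith

end Pool.Agent.HA
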