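import Pool.Agent.HA.Stmts

/-!
Module TLP: large coefficients are improbable.
-/

set_option autoImplicit false

namespace Pool.Agent.HA

open MeasureTheory ProbabilityTheory Filter Topology Pool.Agent.GH

universe u

namespace TLP

theorem exp_neg_one_le : Real.exp (-1) ≤ 1 / 2 := by
  rw [Real.exp_neg, inv_eq_one_div, div_le_div_iff₀ (Real.exp_pos 1) (by norm_num)]
  linarith [Real.add_one_le_exp (1 : ℝ)]

/-- The sum of the tail probabilities. -/
theorem tsum_le {q : ℝ} (h0 : 0 ≤ q) (h1 : q ≤ 1 / 2) :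
    ∑' n : ℕ, ENNReal.ofReal (q ^ (n + 1)) ≤ ENNReal.ofReal (2 * q) := by
  have hs : Summable (fun n : ℕ => q ^ n) := summable_geometric_of_lt_one h0 (by linarith)
  have hs' : Summable (fun n : ℕ => q ^ (n + 1)) := by
    simpa [pow_succ'] using hs.mul_left q
  rw [← ENNReal.ofReal_tsum_of_nonneg (fun n => pow_nonneg h0 _) hs']
  refine ENNReal.ofReal_le_ofReal ?_
  have h2 : ∑' n : ℕ, q ^ (n + 1) = q * (1 - q)⁻¹ := by
    rw [← tsum_geometric_of_lt_one h0 (by linarith), ← tsum_mul_left]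
    refine tsum_congr fun n => ?_
    rw [pow_succ']
  rw [h2, ← div_eq_mul_inv, div_le_iff₀ (by linarith)]
  nlinarith

end TLP

open TLP in
theorem TLP_thm (h1 : GSB_Stmt) : TLP_Stmt.{u} := by
  intro Ω _ P ξ hG H hH
  obtain ⟨-, hball, -, -, -⟩ := h1
  have hpr := hG.prob
  set q : ℝ := Real.exp (-H ^ 2) with hq
  have hq0 : 0 ≤ q := (Real.exp_pos _).le
  have hq1 : q ≤ 1 / 2 := by
    refine le_trans (Real.exp_le_exp.mpr ?_) exp_neg_one_le
    nlinarith
  have hst : IsProbabilityMeasure stdC := by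
    rw [← hG.law 0]
    exact Measure.isProbabilityMeasure_map (hG.meas 0).aemeasurable
  refine ENNReal.toReal_le_of_le_ofReal (by positivity) ?_
  have hsub : {ω | ¬ ∀ n : ℕ, ‖ξ n ω‖ ≤ H * ((n : ℝ) + 1)} ⊆
      ⋃ n : ℕ, ξ n ⁻¹' (Metric.closedBall (0 : ℂ) (H * ((n : ℝ) + 1)))ᶜ := by
    intro ω hω
    rw [Set.mem_ofPred_eq, not_forall] at hω
    obtain ⟨n, hn⟩ := hω
    rw [Set.mem_iUnion]
    refine ⟨n, ?_⟩
    rw [Set.mem_preimage, Set.mem_compl_iff, mem_closedBall_zero_iff]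
    exact hn
  refine (measure_mono hsub).trans ((measure_iUnion_le _).trans ?_)
  refine le_trans (ENNReal.tsum_le_tsum fun n => ?_) (tsum_le hq0 hq1)
  have hms : MeasurableSet (Metric.closedBall (0 : ℂ) (H * ((n : ℝ) + 1)))ᶜ :=
    Metric.isClosed_closedBall.measurableSet.compl
  rw [← Measure.map_apply (hG.meas n) hms, hG.law n]
  have hn0 : 0 ≤ H * ((n : ℝ) + 1) := by positivity
  have h2 := hball _ hn0
  rw [← ENNReal.ofReal_toReal (measure_ne_top stdC _), h2]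
  refine ENNReal.ofReal_le_ofReal ?_
  rw [hq, ← Real.exp_nat_mul]
  refine Real.exp_le_exp.mpr ?_
  push_cast
  have hn1 : (1 : ℝ) ≤ (n : ℝ) + 1 := by linarith [Nat.cast_nonneg (α := ℝ) n]
  have hH2 : 0 ≤ H ^ 2 := sq_nonneg H
  nlinarith [mul_nonneg hH2 (mul_nonneg (by linarith : (0 : ℝ) ≤ (n : ℝ) + 1)
    (by linarith : (0 : ℝ) ≤ (n : ℝ) + 1 - 1))]

end Pool.Agent.HA
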