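import Pool.Agent.HA.Stmts

/-!
# Module TOP: topology of the annulus
-/

namespace Pool.Agent.HA

open MeasureTheory ProbabilityTheory Filter Topology Pool.Agent.GH

/-- Topology of the annulus. -/
theorem TOP_thm : TOP_Stmt := by
  intro a b ha hab
  refine ⟨?_, ?_, ?_⟩
  · have hc : IsClosed (ann a b) :=
      (isClosed_le continuous_const continuous_norm).inter
        (isClosed_le continuous_norm continuous_const)
    refine Metric.isCompact_of_isClosed_isBounded hc ?_
    refine (Metric.isBounded_closedBall (x := (0 : ℂ)) (r := b)).subset ?_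
    intro z hz
    rw [mem_closedBall_zero_iff]
    exact hz.2
  · have himg : ann a b = (fun p : ℝ × ℝ => (p.1 : ℂ) * Complex.exp (p.2 * Complex.I)) ''
        (Set.Icc a b ×ˢ Set.univ) := by
      ext z
      constructor
      · intro hz
        exact ⟨(‖z‖, Complex.arg z), ⟨⟨hz.1, hz.2⟩, Set.mem_univ _⟩,
          Complex.norm_mul_exp_arg_mul_I z⟩
      · rintro ⟨⟨ρ, θ⟩, ⟨⟨h1, h2⟩, -⟩, rfl⟩
        have h3 : ‖(ρ : ℂ) * Complex.exp (θ * Complex.I)‖ = ρ := by
          rw [norm_mul, Complex.norm_exp_ofReal_mul_I, mul_one, Complex.norm_real,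
            Real.norm_of_nonneg (ha.le.trans h1)]
        exact ⟨by rw [h3]; exact h1, by rw [h3]; exact h2⟩
    rw [himg]
    refine IsConnected.image ((isConnected_Icc hab.le).prod isConnected_univ) _ ?_
    exact Continuous.continuousOn (by fun_prop)
  · have ho : IsOpen {z : ℂ | a < ‖z‖ ∧ ‖z‖ < b} :=
      (isOpen_lt continuous_const continuous_norm).inter
        (isOpen_lt continuous_norm continuous_const)
    have hsub : {z : ℂ | a < ‖z‖ ∧ ‖z‖ < b} ⊆ ann a b := fun z hz => ⟨hz.1.le, hz.2.le⟩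
    refine ⟨(((a + b) / 2 : ℝ) : ℂ), interior_maximal hsub ho ?_⟩
    have h3 : ‖(((a + b) / 2 : ℝ) : ℂ)‖ = (a + b) / 2 := by
      rw [Complex.norm_real, Real.norm_of_nonneg (by linarith)]
    exact ⟨by rw [h3]; linarith, by rw [h3]; linarith⟩

end Pool.Agent.HA
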