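import Pool.Agent.HA.Stmts

/-!
Module UBA: the asymptotic upper bound for the hole probability of an annulus (see PAPER.md).
-/

namespace Pool.Agent.HA

open MeasureTheory ProbabilityTheory Filter Topology Pool.Agent.GH

universe u

namespace UBA

/-- `M r² + 4 ≤ exp (ε/2 r⁴)` for large `r`. -/
theorem poly_le_exp (M ε : ℝ) (hε : 0 < ε) :
    ∀ᶠ r : ℝ in atTop, M * r ^ 2 + 4 ≤ Real.exp (ε / 2 * r ^ 4) := by
  filter_upwards [eventually_ge_atTop (max 1 (2 * (M + 3) / ε))] with r hr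
  have h1 : 1 ≤ r := le_trans (le_max_left _ _) hr
  have h2 : 2 * (M + 3) / ε ≤ r := le_trans (le_max_right _ _) hr
  have h3 : r ≤ r ^ 2 := by nlinarith
  have h4 : 1 ≤ r ^ 2 := le_trans h1 h3
  have h5 : 2 * (M + 3) ≤ ε * r ^ 2 := by
    rw [div_le_iff₀ hε] at h2
    nlinarith
  have h6 : M * r ^ 2 + 3 ≤ ε / 2 * r ^ 4 := by
    have : ε / 2 * r ^ 4 = (ε * r ^ 2) * r ^ 2 / 2 := by ring
    rw [this]
    nlinarith
  have h7 := Real.add_one_le_exp (ε / 2 * r ^ 4)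
  linarith

end UBA

theorem UBA_thm (h1 : TLP_Stmt.{u}) (h2 : JEB_Stmt) (h3 : SMM_Stmt.{u}) (h4 : LRM_Stmt.{u}) :
    UBA_Stmt.{u} := by
  intro Ω _ P ξ hξ a b ε ha hab hε
  have hP : IsProbabilityMeasure P := hξ.prob
  set c : ℝ := Cexp a b with hc
  set Q : ℝ := |c| + 1 with hQ
  set L : ℝ := Q + 1 with hL
  have hQ0 : 1 ≤ Q := by
    have := abs_nonneg c
    linarith
  have hcQ : c + 1 ≤ Q := by
    have := le_abs_self c
    linarith
  have hL2 : 2 ≤ L := by linarith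
  obtain ⟨M, hM, hM4⟩ := h4 P ξ hξ a b L Q ha hab (by linarith) (by linarith)
  obtain ⟨δ, hδ, hδ8, hS⟩ := h3 P ξ hξ a b M L (ε / 2) ha hab hM (by linarith) (by linarith)
  obtain ⟨C, hC, hJ⟩ := h2 δ hδ
  filter_upwards [hS C hC, hM4 δ C hδ hδ8 hC, eventually_ge_atTop 1, UBA.poly_le_exp M ε hε]
    with r hr1 hr2 hr hr3
  have hr0 : 0 < r := by linarith
  have hra : 0 < r * a := mul_pos hr0 ha
  have hrab : r * a ≤ r * b := mul_le_mul_of_nonneg_left hab.le hr0.le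
  have hr21 : 1 ≤ r ^ 2 := by nlinarith
  have hH : 1 ≤ L * r ^ 2 := by nlinarith
  -- the three events
  let T : Set Ω := {ω | ¬ ∀ n : ℕ, ‖ξ n ω‖ ≤ (L * r ^ 2) * ((n : ℝ) + 1)}
  let E : ℕ → Set Ω := fun m => {ω | ω ∈ Ev ξ (r * a) (r * b) (L * r ^ 2) ∧
          J (co ξ ω) (r * a) ≤ Lg m (r * a) +
            (Real.log (L * r ^ 2) + C + δ * m + Real.log ((m : ℝ) + 1)) ∧
          J (co ξ ω) (r * b) ≤ Lg m (r * b) +
            (Real.log (L * r ^ 2) + C + δ * m + Real.log ((m : ℝ) + 1))}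
  let F : Set Ω := {ω | ω ∈ Ev ξ (r * a) (r * b) (L * r ^ 2) ∧ ∃ m : ℕ, M * r ^ 2 < (m : ℝ) ∧
          J (co ξ ω) (r * b) ≤ Lg m (r * b) +
            (Real.log (L * r ^ 2) + C + δ * m + Real.log ((m : ℝ) + 1))}
  let K : ℕ := ⌊M * r ^ 2⌋₊ + 1
  have hK : ((K : ℕ) : ℝ) ≤ M * r ^ 2 + 1 := by
    have h := Nat.floor_le (show 0 ≤ M * r ^ 2 by positivity)
    simp only [K]
    push_cast
    linarith
  have hsub : {ω | ∀ z ∈ ann a b, gef ξ ω ((r : ℂ) * z) ≠ 0} ⊆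
      T ∪ (⋃ m ∈ Finset.range K, E m) ∪ F := by
    intro ω hω
    by_cases hT : ∀ n : ℕ, ‖ξ n ω‖ ≤ (L * r ^ 2) * ((n : ℝ) + 1)
    swap
    · exact Or.inl (Or.inl hT)
    have hz : ∀ z : ℂ, r * a ≤ ‖z‖ → ‖z‖ ≤ r * b → gef ξ ω z ≠ 0 := by
      intro z h5 h6
      have hrc : (r : ℂ) ≠ 0 := by exact_mod_cast hr0.ne'
      have h7 : (r : ℂ) * (z / (r : ℂ)) = z := by field_simp
      rw [← h7]
      apply hω
      have h8 : ‖z / (r : ℂ)‖ = ‖z‖ / r := by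
        rw [norm_div, Complex.norm_real, Real.norm_of_nonneg hr0.le]
      refine ⟨?_, ?_⟩
      · rw [h8, le_div_iff₀ hr0]; linarith
      · rw [h8, div_le_iff₀ hr0]; linarith
    have hEv : ω ∈ Ev ξ (r * a) (r * b) (L * r ^ 2) := ⟨hz, hT⟩
    obtain ⟨m, hm1, hm2⟩ := hJ (co ξ ω) (r * a) (r * b) (L * r ^ 2) hH hT hra hrab
      (fun z h5 h6 => hz z h5 h6)
    by_cases hm : (m : ℝ) ≤ M * r ^ 2
    · refine Or.inl (Or.inr ?_)
      rw [Set.mem_iUnion₂]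
      refine ⟨m, ?_, hEv, hm1, hm2⟩
      rw [Finset.mem_range]
      exact Nat.lt_succ_of_le (Nat.le_floor hm)
    · exact Or.inr ⟨hEv, m, not_le.1 hm, hm2⟩
  have hT1 : (P T).toReal ≤ 2 * Real.exp (-(L * r ^ 2) ^ 2) := h1 P ξ hξ (L * r ^ 2) hH
  have hF1 : (P F).toReal ≤ Real.exp (-(Q * r ^ 4)) := hr2
  have hE1 : ∀ m ∈ Finset.range K, (P (E m)).toReal ≤ Real.exp (-((c - ε / 2) * r ^ 4)) := by
    intro m hm
    apply hr1 m
    have h5 : m ≤ ⌊M * r ^ 2⌋₊ := Nat.lt_succ_iff.1 (Finset.mem_range.1 hm)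
    exact le_trans (by exact_mod_cast h5) (Nat.floor_le (by positivity))
  have hfin : ∀ S : Set Ω, P S ≠ ⊤ := fun S => measure_ne_top P S
  have hU : (P (⋃ m ∈ Finset.range K, E m)).toReal ≤ K * Real.exp (-((c - ε / 2) * r ^ 4)) := by
    have h5 : P (⋃ m ∈ Finset.range K, E m) ≤ ∑ m ∈ Finset.range K, P (E m) :=
      measure_biUnion_finset_le _ _
    have h6 : (P (⋃ m ∈ Finset.range K, E m)).toReal ≤ ∑ m ∈ Finset.range K, (P (E m)).toReal := by
      rw [← ENNReal.toReal_sum (fun m _ => hfin _)]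
      exact ENNReal.toReal_mono (ENNReal.sum_ne_top.2 fun m _ => hfin _) h5
    refine h6.trans ?_
    calc ∑ m ∈ Finset.range K, (P (E m)).toReal
        ≤ ∑ m ∈ Finset.range K, Real.exp (-((c - ε / 2) * r ^ 4)) := Finset.sum_le_sum hE1
      _ = K * Real.exp (-((c - ε / 2) * r ^ 4)) := by
          rw [Finset.sum_const, Finset.card_range, nsmul_eq_mul]
  have hhole : holeP P ξ (ann a b) r ≤ (P T).toReal +
      (P (⋃ m ∈ Finset.range K, E m)).toReal + (P F).toReal := by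
    unfold holeP
    have h5 : P {ω | ∀ z ∈ ann a b, gef ξ ω ((r : ℂ) * z) ≠ 0} ≤
        P T + P (⋃ m ∈ Finset.range K, E m) + P F :=
      (measure_mono hsub).trans ((measure_union_le _ _).trans
        (add_le_add (measure_union_le _ _) le_rfl))
    have h6 := ENNReal.toReal_mono (by
      exact ENNReal.add_ne_top.2 ⟨ENNReal.add_ne_top.2 ⟨hfin _, hfin _⟩, hfin _⟩) h5
    rwa [ENNReal.toReal_add (ENNReal.add_ne_top.2 ⟨hfin _, hfin _⟩) (hfin _),
      ENNReal.toReal_add (hfin _) (hfin _)] at h6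
  -- the final estimate
  have hr4 : 0 ≤ r ^ 4 := by positivity
  have h5 : Real.exp (-(L * r ^ 2) ^ 2) ≤ Real.exp (-((c - ε / 2) * r ^ 4)) := by
    apply Real.exp_le_exp.2
    have h6 : (L * r ^ 2) ^ 2 = L ^ 2 * r ^ 4 := by ring
    have h7 : c - ε / 2 ≤ L ^ 2 := by nlinarith
    rw [h6]
    have := mul_le_mul_of_nonneg_right h7 hr4
    linarith
  have h6 : Real.exp (-(Q * r ^ 4)) ≤ Real.exp (-((c - ε / 2) * r ^ 4)) := by
    apply Real.exp_le_exp.2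
    have h7 : c - ε / 2 ≤ Q := by linarith
    have := mul_le_mul_of_nonneg_right h7 hr4
    linarith
  set e : ℝ := Real.exp (-((c - ε / 2) * r ^ 4)) with he
  have he0 : 0 < e := Real.exp_pos _
  have h7 : holeP P ξ (ann a b) r ≤ (M * r ^ 2 + 4) * e := by
    have h8 := mul_le_mul_of_nonneg_right hK he0.le
    nlinarith
  refine h7.trans ?_
  calc (M * r ^ 2 + 4) * e ≤ Real.exp (ε / 2 * r ^ 4) * e :=
        mul_le_mul_of_nonneg_right hr3 he0.le
    _ = Real.exp (-((c - ε) * r ^ 4)) := by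
        rw [he, ← Real.exp_add]
        congr 1
        ring

end Pool.Agent.HA
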