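import Pool.Agent.HA.Stmts

/-!
UBE: the finite upper bound (see PAPER.md).
-/

namespace Pool.Agent.HA

open MeasureTheory ProbabilityTheory Filter Topology Pool.Agent.GH

universe u

theorem UBE_thm (h1 : MKV_Stmt.{u}) (h2 : VDT_Stmt) (h3 : GRO_Stmt) : UBE_Stmt.{u} := by
  intro Ω _ P ξ hG
  obtain ⟨C, hC0, hC⟩ := h3.2 (1 / 2) (by norm_num)
  refine ⟨C, hC0, ?_⟩
  intro A B H η γ n0 Na Nb hA hAB hH hη hη2
  obtain ⟨z, hz, hdet⟩ := h2 A B n0 Na Nb hA hAB
  have hB : 0 < B := hA.trans hAB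
  have hH0 : 0 < H := lt_of_lt_of_le one_pos hH
  set R : ℝ := H * Real.exp (C + B ^ 2) with hR
  have hR0 : 0 < R := mul_pos hH0 (Real.exp_pos _)
  set SA : ℝ := ∑ n ∈ Finset.Ico n0 (n0 + Na), Lg n A with hSA
  set SB : ℝ := ∑ n ∈ Finset.Ico (n0 + Na) (n0 + Na + Nb), Lg n B with hSB
  have hq : 1 - A / B = (B - A) / B := by field_simp
  have hq0 : 0 < 1 - A / B := by
    rw [hq]; exact div_pos (sub_pos.2 hAB) hB
  have hlow : 0 < Real.exp (SA + SB) * (1 - A / B) ^ Nb :=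
    mul_pos (Real.exp_pos _) (pow_pos hq0 _)
  have hdpos : 0 < ‖(VM n0 (Na + Nb) z).det‖ := lt_of_lt_of_le hlow hdet
  have hd0 : (VM n0 (Na + Nb) z).det ≠ 0 := by
    intro h
    rw [h, norm_zero] at hdpos
    exact lt_irrefl _ hdpos
  have hmk := h1 P ξ hG A B H R η γ n0 Na Nb z hA hAB.le hH0 hη hη2 hR0 hz hd0 (by
    intro x hx
    obtain ⟨g1, g2, g3, _⟩ := hC x H hH0 hx
    refine ⟨g1.continuous, g2, ?_⟩
    intro w hw N
    refine (g3 w N).trans ?_
    rw [hR]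
    apply mul_le_mul_of_nonneg_left _ hH0.le
    apply Real.exp_le_exp.2
    have : ‖w‖ ^ 2 ≤ B ^ 2 := pow_le_pow_left₀ (norm_nonneg _) hw 2
    linarith)
  refine hmk.trans ?_
  have hlogq : Real.log (B / (B - A)) = - Real.log (1 - A / B) := by
    rw [hq, ← Real.log_inv, inv_div]
  have e1 : (2 * R ^ η / η) ^ (Na + Nb) =
      Real.exp (((Na : ℝ) + Nb) * (η * (Real.log H + C + B ^ 2) + Real.log (2 / η))) := by
    have hlogR : Real.log R = Real.log H + C + B ^ 2 := by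
      rw [hR, Real.log_mul hH0.ne' (Real.exp_pos _).ne', Real.log_exp]; ring
    have hbase : 2 * R ^ η / η = Real.exp (η * (Real.log H + C + B ^ 2) + Real.log (2 / η)) := by
      rw [Real.exp_add, Real.exp_log (by positivity), ← hlogR, Real.rpow_def_of_pos hR0,
        mul_comm (Real.log R) η]
      ring
    rw [hbase, ← Real.exp_nat_mul]
    push_cast
    rfl
  have e2 : 1 / ‖(VM n0 (Na + Nb) z).det‖ ^ 2 ≤
      Real.exp (- 2 * SA - 2 * SB + 2 * Nb * Real.log (B / (B - A))) := by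
    have h5 : (Real.exp (SA + SB) * (1 - A / B) ^ Nb) ^ 2 ≤
        ‖(VM n0 (Na + Nb) z).det‖ ^ 2 := pow_le_pow_left₀ hlow.le hdet 2
    have h6 : 1 / ‖(VM n0 (Na + Nb) z).det‖ ^ 2 ≤
        1 / (Real.exp (SA + SB) * (1 - A / B) ^ Nb) ^ 2 :=
      one_div_le_one_div_of_le (by positivity) h5
    refine h6.trans (le_of_eq ?_)
    have h7 : (1 - A / B) ^ Nb = Real.exp (Nb * Real.log (1 - A / B)) := by
      rw [Real.exp_nat_mul, Real.exp_log hq0]
    rw [h7, ← Real.exp_add, ← Real.exp_nat_mul, one_div, ← Real.exp_neg, hlogq]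
    congr 1
    push_cast
    ring
  rw [e1]
  calc Real.exp ((2 - η) * γ) * (Real.exp (((Na : ℝ) + Nb) *
        (η * (Real.log H + C + B ^ 2) + Real.log (2 / η))) / ‖(VM n0 (Na + Nb) z).det‖ ^ 2)
      = Real.exp ((2 - η) * γ) * (Real.exp (((Na : ℝ) + Nb) *
        (η * (Real.log H + C + B ^ 2) + Real.log (2 / η))) *
          (1 / ‖(VM n0 (Na + Nb) z).det‖ ^ 2)) := by ring
    _ ≤ Real.exp ((2 - η) * γ) * (Real.exp (((Na : ℝ) + Nb) *
        (η * (Real.log H + C + B ^ 2) + Real.log (2 / η))) *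
          Real.exp (- 2 * SA - 2 * SB + 2 * Nb * Real.log (B / (B - A)))) := by
        apply mul_le_mul_of_nonneg_left _ (Real.exp_pos _).le
        exact mul_le_mul_of_nonneg_left e2 (Real.exp_pos _).le
    _ = _ := by
        rw [← Real.exp_add, ← Real.exp_add]
        congr 1
        ring

end Pool.Agent.HA
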