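import Pool.Agent.HA.Stmts

/-!
UBT: the finite upper bound for the hole probability of an annulus with the exponent `TT`.
-/

namespace Pool.Agent.HA

open MeasureTheory ProbabilityTheory Filter Topology Pool.Agent.GH

universe u

namespace UBT

/-- Sum over a window in terms of the sum of the differences. -/
theorem sum_window (ρ : ℝ) (m p k : ℕ) :
    ∑ n ∈ Finset.Ico p (p + k), Lg n ρ =
      ∑ n ∈ Finset.Ico p (p + k), (Lg n ρ - Lg m ρ) + (k : ℝ) * Lg m ρ := by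
  rw [Finset.sum_sub_distrib, Finset.sum_const, Nat.card_Ico]
  simp

end UBT

theorem UBT_thm (h1 : UBE_Stmt.{u}) (h2 : WIN_Stmt) : UBT_Stmt.{u} := by
  intro Ω _ P ξ hξ
  obtain ⟨C, hC, hU⟩ := h1 P ξ hξ
  refine ⟨C, hC, ?_⟩
  intro A B H η E K m N hA hAB hH hη hη2 hE hKA hKB hmN
  have := hξ.prob
  obtain ⟨Na, hNa, hSA⟩ := h2.1 A m hA
  obtain ⟨Nb, hNb1, hNb, hSB⟩ := h2.2 B m N (hA.trans hAB)
  rw [max_eq_left hmN] at hNb
  have e1 : m - Na + Na = m := Nat.sub_add_cancel hNa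
  set γ : ℝ := (Na : ℝ) * (Lg m A + E) + (Nb : ℝ) * (Lg m B + E) with hγ
  have hNa0 : (0 : ℝ) ≤ Na := Nat.cast_nonneg _
  have hNb0 : (0 : ℝ) ≤ Nb := Nat.cast_nonneg _
  have hNab : (Na : ℝ) + Nb ≤ (N : ℝ) + 1 := by
    have : Na + Nb ≤ N + 1 := by omega
    exact_mod_cast this
  have hN0 : (0 : ℝ) ≤ (N : ℝ) + 1 := by positivity
  have hK0 : 0 ≤ K := (abs_nonneg _).trans hKA
  -- the event
  have hmono : (P {ω | ω ∈ Ev ξ A B H ∧ J (co ξ ω) A ≤ Lg m A + E ∧
      J (co ξ ω) B ≤ Lg m B + E}).toReal ≤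
      (P {ω | ω ∈ Ev ξ A B H ∧ (Na : ℝ) * J (co ξ ω) A + (Nb : ℝ) * J (co ξ ω) B ≤ γ}).toReal := by
    refine ENNReal.toReal_mono (measure_ne_top _ _) (measure_mono ?_)
    rintro ω ⟨h3, h4, h5⟩
    refine ⟨h3, ?_⟩
    exact add_le_add (mul_le_mul_of_nonneg_left h4 hNa0) (mul_le_mul_of_nonneg_left h5 hNb0)
  refine hmono.trans ((hU A B H η γ (m - Na) Na Nb hA hAB hH hη hη2).trans ?_)
  rw [Real.exp_le_exp, e1]
  have e2 : ∑ n ∈ Finset.Ico (m - Na) m, Lg n A =
      (∑ n ∈ Finset.range m, max (Lg n A - Lg m A) 0) + (Na : ℝ) * Lg m A := by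
    have h := UBT.sum_window A m (m - Na) Na
    rw [e1, hSA] at h
    exact h
  have e3 : ∑ n ∈ Finset.Ico m (m + Nb), Lg n B =
      (∑ n ∈ Finset.Ioc m N, max (Lg n B - Lg m B) 0) + (Nb : ℝ) * Lg m B := by
    have h := UBT.sum_window B m m Nb
    rw [hSB] at h
    exact h
  rw [e2, e3]
  have hTT : TT m N A B = 2 * (∑ n ∈ Finset.range m, max (Lg n A - Lg m A) 0) +
    2 * ∑ n ∈ Finset.Ioc m N, max (Lg n B - Lg m B) 0 := rfl
  rw [hTT]
  -- the estimates
  have hB0 : 0 < B - A := by linarith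
  have hlog : 0 ≤ Real.log (B / (B - A)) := by
    apply Real.log_nonneg
    rw [le_div_iff₀ hB0]
    linarith
  have hlogH : 0 ≤ Real.log H := Real.log_nonneg hH
  have hin : 0 ≤ η * (Real.log H + C + B ^ 2) := by positivity
  have k1 : -(η * γ) ≤ ((Na : ℝ) + Nb) * (η * K) := by
    have h6 : -(Lg m A + E) ≤ K := by
      have := neg_abs_le (Lg m A)
      linarith
    have h7 : -(Lg m B + E) ≤ K := by
      have := neg_abs_le (Lg m B)
      linarith
    have h8 := mul_le_mul_of_nonneg_left h6 hNa0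
    have h9 := mul_le_mul_of_nonneg_left h7 hNb0
    have h10 : -γ ≤ ((Na : ℝ) + Nb) * K := by
      rw [hγ]
      linarith
    have h11 := mul_le_mul_of_nonneg_left h10 hη.le
    linarith
  have k2 : (Nb : ℝ) * Real.log (B / (B - A)) ≤ ((N : ℝ) + 1) * Real.log (B / (B - A)) :=
    mul_le_mul_of_nonneg_right (by linarith) hlog
  have k3 : ((Na : ℝ) + Nb) * (2 * E + η * K + (η * (Real.log H + C + B ^ 2) +
      Real.log (2 / η))) ≤ ((N : ℝ) + 1) * (2 * E + η * K + (η * (Real.log H + C + B ^ 2) +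
      |Real.log (2 / η)|)) := by
    have h12 : 2 * E + η * K + (η * (Real.log H + C + B ^ 2) + Real.log (2 / η)) ≤
        2 * E + η * K + (η * (Real.log H + C + B ^ 2) + |Real.log (2 / η)|) := by
      have := le_abs_self (Real.log (2 / η))
      linarith
    have h13 : 0 ≤ 2 * E + η * K + (η * (Real.log H + C + B ^ 2) + |Real.log (2 / η)|) := by
      positivity
    exact (mul_le_mul_of_nonneg_left h12 (by positivity)).trans
      (mul_le_mul_of_nonneg_right hNab h13)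
  have k4 : 2 * γ = 2 * ((Na : ℝ) * Lg m A) + 2 * ((Nb : ℝ) * Lg m B) +
      ((Na : ℝ) + Nb) * (2 * E) := by
    rw [hγ]
    ring
  nlinarith [k1, k2, k3, k4]

end Pool.Agent.HA
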