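import Pool.Agent.HA.Stmts
import Pool.Agent.GH.ROU
import Pool.Agent.GH.VAND

/-!
Module VDT: regular polygons on two circles.
-/

namespace Pool.Agent.HA.VDT

open Finset Pool.Agent.GH

/-- Regular polygons, including the empty one. -/
theorem poly {c : ℝ} (hc : 0 < c) (N : ℕ) : ∃ a : Fin N → ℂ, (∀ i, ‖a i‖ = c) ∧
    ∏ k ∈ range N, c ^ k ≤ vdm a ∧
    ∀ (B : ℝ) (w : ℂ), c < B → ‖w‖ = B → B ^ N * (1 - c / B) ≤ ∏ i, ‖w - a i‖ := by
  rcases Nat.eq_zero_or_pos N with hN | hN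
  · subst hN
    refine ⟨fun i => i.elim0, fun i => i.elim0, ?_, fun B w hB _ => ?_⟩
    · simp [vdm]
    · have h1 : 0 < c / B := div_pos hc (hc.trans hB)
      simp
      exact h1.le
  · obtain ⟨a, -, h2, h3, h4⟩ := ROU_thm 0 c N hc hN
    refine ⟨a, fun i => by simpa using h2 i, ?_, fun B w hB hw => ?_⟩
    · have h5 : 0 ≤ vdm a := by
        unfold vdm
        exact prod_nonneg fun i _ => prod_nonneg fun j _ => norm_nonneg _
      have h6 : (∏ k ∈ range N, c ^ k) ^ 2 ≤ vdm a ^ 2 := by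
        rw [h4, prod_pow_eq_pow_sum, ← pow_mul, sum_range_id_mul_two, mul_pow, ← pow_mul,
          mul_comm N (N - 1)]
        have h7 : (1 : ℝ) ≤ (N : ℝ) ^ N := one_le_pow₀ (by exact_mod_cast hN)
        have h8 : (0 : ℝ) < c ^ ((N - 1) * N) := by positivity
        nlinarith
      exact le_of_sq_le_sq h6 h5
    · have hB0 : 0 < B := hc.trans hB
      have h5 : ∏ i, ‖w - a i‖ = ‖w ^ N - (c : ℂ) ^ N‖ := by
        rw [← norm_prod, h3 w, sub_zero]
      rw [h5]
      have h6 : ‖w ^ N‖ - ‖(c : ℂ) ^ N‖ ≤ ‖w ^ N - (c : ℂ) ^ N‖ := norm_sub_norm_le _ _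
      rw [norm_pow, norm_pow, hw, Complex.norm_real, Real.norm_of_nonneg hc.le] at h6
      refine le_trans ?_ h6
      have h7 : (c / B) ^ N ≤ c / B := by
        have h8 : c / B ≤ 1 := by
          rw [div_le_one hB0]
          exact hB.le
        exact pow_le_of_le_one (div_pos hc hB0).le h8 (by omega)
      have h9 : c ^ N = B ^ N * (c / B) ^ N := by
        rw [← mul_pow, mul_div_cancel₀ _ hB0.ne']
      rw [h9]
      have h10 : 0 < B ^ N := by positivity
      nlinarith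

/-- `vdm` as a product over all pairs. -/
theorem vdm_eq {n : ℕ} (z : Fin n → ℂ) :
    vdm z = ∏ i, ∏ j, if i < j then ‖z i - z j‖ else 1 := by
  unfold vdm
  refine prod_congr rfl fun i _ => ?_
  rw [← prod_filter]
  refine prod_congr ?_ fun j _ => rfl
  ext j
  simp

theorem vdm_append {Na Nb : ℕ} (za : Fin Na → ℂ) (zb : Fin Nb → ℂ) :
    vdm (Fin.append za zb) = vdm za * vdm zb * ∏ j, ∏ i, ‖zb j - za i‖ := by
  rw [vdm_eq, vdm_eq, vdm_eq, Fin.prod_univ_add]
  simp only [Fin.prod_univ_add, Fin.append_left, Fin.append_right]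
  have h1 : ∀ (i : Fin Na) (j : Fin Nb), Fin.castAdd Nb i < Fin.natAdd Na j := by
    intro i j
    rw [Fin.lt_def]
    simp only [Fin.val_castAdd, Fin.val_natAdd]
    omega
  have h2 : ∀ (i : Fin Nb) (j : Fin Na), ¬ Fin.natAdd Na i < Fin.castAdd Nb j := by
    intro i j
    exact not_lt.2 (h1 j i).le
  have h3 : ∀ i j : Fin Na, Fin.castAdd Nb i < Fin.castAdd Nb j ↔ i < j := by
    intro i j
    rw [Fin.lt_def, Fin.lt_def]
    simp only [Fin.val_castAdd]
  have h4 : ∀ i j : Fin Nb, Fin.natAdd Na i < Fin.natAdd Na j ↔ i < j := by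
    intro i j
    rw [Fin.lt_def, Fin.lt_def]
    simp only [Fin.val_natAdd]
    omega
  simp only [h1, h2, h3, h4, if_true, if_false, prod_const_one, one_mul, prod_mul_distrib]
  rw [prod_comm (f := fun (j : Fin Nb) (i : Fin Na) => ‖zb j - za i‖)]
  have h5 : ∏ i : Fin Na, ∏ j : Fin Nb, ‖za i - zb j‖ =
      ∏ i : Fin Na, ∏ j : Fin Nb, ‖zb j - za i‖ :=
    prod_congr rfl fun i _ => prod_congr rfl fun j _ => norm_sub_rev _ _
  rw [h5]
  ring

theorem exp_Lg (n : ℕ) {ρ : ℝ} (hρ : 0 < ρ) :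
    Real.exp (Lg n ρ) = ρ ^ n / Real.sqrt (n.factorial : ℝ) := by
  unfold Lg
  have h1 : (0 : ℝ) < n.factorial := by exact_mod_cast Nat.factorial_pos n
  rw [Real.exp_sub, mul_comm, Real.exp_mul, Real.exp_log hρ, Real.rpow_natCast,
    Real.sqrt_eq_rpow, Real.rpow_def_of_pos h1]
  congr 2
  ring

/-- The determinant of `VM`. -/
theorem norm_det (n0 k : ℕ) (z : Fin k → ℂ) : ‖(VM n0 k z).det‖ =
    (∏ j, ‖z j‖ ^ n0) * (∏ i ∈ range k, (Real.sqrt ((n0 + i).factorial : ℝ))⁻¹) * vdm z := by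
  have h1 : VM n0 k z = Matrix.of fun j i => z j ^ n0 *
      (Matrix.of (fun j i : Fin k => ((Real.sqrt ((n0 + (i : ℕ)).factorial : ℝ) : ℂ))⁻¹ *
        Matrix.vandermonde z j i) : Matrix (Fin k) (Fin k) ℂ) j i := by
    ext j i
    simp only [VM, Matrix.of_apply, Matrix.vandermonde_apply]
    rw [pow_add, div_eq_mul_inv]
    ring
  rw [h1, Matrix.det_mul_column, Matrix.det_mul_row, norm_mul, norm_mul,
    VAND.norm_det_vandermonde, norm_prod, norm_prod]
  have h2 : ∏ j, ‖z j ^ n0‖ = ∏ j, ‖z j‖ ^ n0 := prod_congr rfl fun j _ => norm_pow _ _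
  have h3 : ∏ i : Fin k, ‖((Real.sqrt ((n0 + (i : ℕ)).factorial : ℝ) : ℂ))⁻¹‖ =
      ∏ i ∈ range k, (Real.sqrt ((n0 + i).factorial : ℝ))⁻¹ := by
    rw [← Fin.prod_univ_eq_prod_range (fun i => (Real.sqrt ((n0 + i).factorial : ℝ))⁻¹) k]
    refine prod_congr rfl fun i _ => ?_
    rw [norm_inv, Complex.norm_real, Real.norm_of_nonneg (Real.sqrt_nonneg _)]
  rw [h2, h3, mul_assoc]

end Pool.Agent.HA.VDT

namespace Pool.Agent.HA

open Finset Pool.Agent.GH

/-- Regular polygons on two circles. -/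
theorem VDT_thm : VDT_Stmt := by
  intro A B n0 Na Nb hA hAB
  have hB : 0 < B := hA.trans hAB
  obtain ⟨za, ha1, ha2, ha3⟩ := VDT.poly hA Na
  obtain ⟨zb, hb1, hb2, -⟩ := VDT.poly hB Nb
  refine ⟨Fin.append za zb, ⟨fun j hj => ?_, fun j hj => ?_⟩, ?_⟩
  · have h1 : j = Fin.castAdd Nb ⟨j, hj⟩ := by ext; simp
    rw [h1, Fin.append_left]
    exact ha1 _
  · have h1 : j = Fin.natAdd Na ⟨(j : ℕ) - Na, by omega⟩ := by
      ext
      simp only [Fin.val_natAdd]
      omega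
    rw [h1, Fin.append_right]
    exact hb1 _
  · rw [VDT.norm_det, VDT.vdm_append]
    have e1 : ∏ j, ‖Fin.append za zb j‖ ^ n0 = (A ^ n0) ^ Na * (B ^ n0) ^ Nb := by
      rw [Fin.prod_univ_add]
      simp only [Fin.append_left, Fin.append_right, ha1, hb1, prod_const, card_univ,
        Fintype.card_fin]
    have e2 : Real.exp ((∑ n ∈ Ico n0 (n0 + Na), Lg n A) +
        ∑ n ∈ Ico (n0 + Na) (n0 + Na + Nb), Lg n B) =
        ((A ^ n0) ^ Na * ∏ k ∈ range Na, A ^ k) * ((B ^ n0) ^ Nb * ((B ^ Na) ^ Nb *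
          ∏ k ∈ range Nb, B ^ k)) *
          ∏ i ∈ range (Na + Nb), (Real.sqrt ((n0 + i).factorial : ℝ))⁻¹ := by
      rw [Real.exp_add, Real.exp_sum, Real.exp_sum, prod_Ico_eq_prod_range,
        prod_Ico_eq_prod_range, prod_range_add, Nat.add_sub_cancel_left,
        Nat.add_sub_cancel_left]
      have f1 : ∏ k ∈ range Na, Real.exp (Lg (n0 + k) A) =
          ((A ^ n0) ^ Na * ∏ k ∈ range Na, A ^ k) *
            ∏ k ∈ range Na, (Real.sqrt ((n0 + k).factorial : ℝ))⁻¹ := by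
        have : (A ^ n0) ^ Na = ∏ _k ∈ range Na, A ^ n0 := by simp
        rw [this, ← prod_mul_distrib, ← prod_mul_distrib]
        refine prod_congr rfl fun k _ => ?_
        rw [VDT.exp_Lg _ hA, pow_add, div_eq_mul_inv]
      have f2 : ∏ k ∈ range Nb, Real.exp (Lg (n0 + Na + k) B) =
          ((B ^ n0) ^ Nb * ((B ^ Na) ^ Nb * ∏ k ∈ range Nb, B ^ k)) *
            ∏ k ∈ range Nb, (Real.sqrt ((n0 + (Na + k)).factorial : ℝ))⁻¹ := by
        have g1 : (B ^ n0) ^ Nb = ∏ _k ∈ range Nb, B ^ n0 := by simp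
        have g2 : (B ^ Na) ^ Nb = ∏ _k ∈ range Nb, B ^ Na := by simp
        rw [g1, g2, ← prod_mul_distrib, ← prod_mul_distrib, ← prod_mul_distrib]
        refine prod_congr rfl fun k _ => ?_
        rw [VDT.exp_Lg _ hB, pow_add, pow_add, div_eq_mul_inv, Nat.add_assoc, mul_assoc (B ^ n0)]
      rw [f1, f2]
      ring
    have e3 : ((B ^ Na) * (1 - A / B)) ^ Nb ≤ ∏ j, ∏ i, ‖zb j - za i‖ := by
      have h1 : ((B ^ Na) * (1 - A / B)) ^ Nb = ∏ _j : Fin Nb, ((B ^ Na) * (1 - A / B)) := by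
        simp
      rw [h1]
      have h0 : 0 ≤ (B ^ Na) * (1 - A / B) := by
        have h2 : A / B ≤ 1 := by rw [div_le_one hB]; exact hAB.le
        have h3 : 0 < B ^ Na := by positivity
        exact mul_nonneg h3.le (by linarith)
      exact prod_le_prod (fun _ _ => h0) fun j _ => ha3 B (zb j) hAB (hb1 j)
    have h0 : 0 ≤ 1 - A / B := by
      have h2 : A / B ≤ 1 := by rw [div_le_one hB]; exact hAB.le
      linarith
    have p1 : 0 ≤ ∏ k ∈ range Na, A ^ k := prod_nonneg fun k _ => by positivity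
    have p2 : 0 ≤ ∏ k ∈ range Nb, B ^ k := prod_nonneg fun k _ => by positivity
    have p3 : 0 ≤ ∏ i ∈ range (Na + Nb), (Real.sqrt ((n0 + i).factorial : ℝ))⁻¹ :=
      prod_nonneg fun k _ => by positivity
    rw [e1, e2]
    calc _ = ((A ^ n0) ^ Na * (B ^ n0) ^ Nb) *
          (∏ i ∈ range (Na + Nb), (Real.sqrt ((n0 + i).factorial : ℝ))⁻¹) *
          (((∏ k ∈ range Na, A ^ k) * ∏ k ∈ range Nb, B ^ k) *
            ((B ^ Na) * (1 - A / B)) ^ Nb) := by
          rw [mul_pow]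
          ring
      _ ≤ _ := by
          refine mul_le_mul_of_nonneg_left ?_ (by positivity)
          refine mul_le_mul (mul_le_mul ha2 hb2 p2 (p1.trans ha2)) e3 (by positivity) ?_
          exact mul_nonneg (p1.trans ha2) (p2.trans hb2)

end Pool.Agent.HA
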