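import Pool.Agent.HA.Stmts

/-!
# Module WIN: windows on which the positive parts are attained
-/

namespace Pool.Agent.HA

open MeasureTheory ProbabilityTheory Filter Topology Pool.Agent.GH

universe u

namespace WIN

/-- The increments are decreasing. -/
def Dec (f : ℕ → ℝ) : Prop := ∀ i j : ℕ, i ≤ j → f (j + 1) - f j ≤ f (i + 1) - f i

theorem le_of_inc {f : ℕ → ℝ} {a b : ℕ} (hab : a ≤ b)
    (h : ∀ i, a ≤ i → i < b → f i ≤ f (i + 1)) : f a ≤ f b := by
  induction b, hab using Nat.le_induction with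
  | base => exact le_rfl
  | succ b hab ih =>
    exact (ih fun i h1 h2 => h i h1 (by omega)).trans (h b hab (by omega))

theorem min_le {f : ℕ → ℝ} (hf : Dec f) {n k m : ℕ} (h1 : n ≤ k) (h2 : k ≤ m) :
    min (f n) (f m) ≤ f k := by
  by_cases h : ∀ i, n ≤ i → i < k → f i ≤ f (i + 1)
  · exact (min_le_left _ _).trans (le_of_inc h1 h)
  · push Not at h
    obtain ⟨i, -, hi2, hi3⟩ := h
    refine (min_le_right _ _).trans ?_
    have h3 : (fun n => -f n) k ≤ (fun n => -f n) m := by
      refine le_of_inc (f := fun n => -f n) h2 fun j hj _ => ?_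
      have := hf i j (by omega)
      show -f j ≤ -f (j + 1)
      linarith
    have h4 : -f k ≤ -f m := h3
    linarith

theorem below {f : ℕ → ℝ} (hf : Dec f) (m : ℕ) : ∃ k : ℕ, k ≤ m ∧
    ∑ n ∈ Finset.Ico (m - k) m, (f n - f m) = ∑ n ∈ Finset.range m, max (f n - f m) 0 := by
  classical
  have hex : ∃ n, f m ≤ f n := ⟨m, le_rfl⟩
  let s := Nat.find hex
  have hs : f m ≤ f s := Nat.find_spec hex
  have hsm : s ≤ m := Nat.find_min' hex le_rfl
  have hlt : ∀ n < s, f n < f m := fun n hn => lt_of_not_ge (Nat.find_min hex hn)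
  refine ⟨m - s, Nat.sub_le _ _, ?_⟩
  have e1 : m - (m - s) = s := by omega
  rw [e1]
  have e2 : ∑ n ∈ Finset.Ico s m, (f n - f m) = ∑ n ∈ Finset.Ico s m, max (f n - f m) 0 := by
    refine Finset.sum_congr rfl fun n hn => ?_
    rw [Finset.mem_Ico] at hn
    have h3 := min_le hf hn.1 hn.2.le
    rw [min_eq_right hs] at h3
    rw [max_eq_left (by linarith)]
  rw [e2]
  refine Finset.sum_subset ?_ fun n hn hn2 => ?_
  · intro n hn
    rw [Finset.mem_Ico] at hn
    exact Finset.mem_range.mpr hn.2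
  · rw [Finset.mem_range] at hn
    rw [Finset.mem_Ico] at hn2
    have h3 := hlt n (by omega)
    exact max_eq_right (by linarith)

theorem above {f : ℕ → ℝ} (hf : Dec f) (m N : ℕ) : ∃ k : ℕ, 1 ≤ k ∧ m + k ≤ max N m + 1 ∧
    ∑ n ∈ Finset.Ico m (m + k), (f n - f m) = ∑ n ∈ Finset.Ioc m N, max (f n - f m) 0 := by
  classical
  set M := max N m with hM
  have hmM : m ≤ M := le_max_right _ _
  let t := Nat.findGreatest (fun n => f m ≤ f n) M
  have hmt : m ≤ t := Nat.le_findGreatest hmM le_rfl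
  have htM : t ≤ M := Nat.findGreatest_le M
  have ht : f m ≤ f t := Nat.findGreatest_spec (P := fun n => f m ≤ f n) hmM le_rfl
  have hgt : ∀ n, t < n → n ≤ M → f n < f m := fun n h1 h2 =>
    lt_of_not_ge (Nat.findGreatest_is_greatest h1 h2)
  refine ⟨t - m + 1, by omega, by omega, ?_⟩
  have e1 : m + (t - m + 1) = t + 1 := by omega
  rw [e1]
  have e2 : ∑ n ∈ Finset.Ico m (t + 1), (f n - f m) =
      ∑ n ∈ Finset.Ico m (t + 1), max (f n - f m) 0 := by
    refine Finset.sum_congr rfl fun n hn => ?_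
    rw [Finset.mem_Ico] at hn
    have h3 := min_le hf hn.1 (Nat.lt_succ_iff.mp hn.2)
    rw [min_eq_left ht] at h3
    rw [max_eq_left (by linarith)]
  have e3 : ∑ n ∈ Finset.Ico m (t + 1), max (f n - f m) 0 =
      ∑ n ∈ Finset.Ico m (M + 1), max (f n - f m) 0 := by
    refine Finset.sum_subset ?_ fun n hn hn2 => ?_
    · intro n hn
      rw [Finset.mem_Ico] at hn ⊢
      omega
    · rw [Finset.mem_Ico] at hn hn2
      have h3 := hgt n (by omega) (by omega)
      exact max_eq_right (by linarith)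
  have e4 : ∑ n ∈ Finset.Ioc m N, max (f n - f m) 0 =
      ∑ n ∈ Finset.Ico m (M + 1), max (f n - f m) 0 := by
    refine Finset.sum_subset ?_ fun n hn hn2 => ?_
    · intro n hn
      rw [Finset.mem_Ioc] at hn
      rw [Finset.mem_Ico]
      omega
    · rw [Finset.mem_Ico] at hn
      rw [Finset.mem_Ioc] at hn2
      have h3 : n = m := by omega
      rw [h3, sub_self, max_self]
  rw [e2, e3, e4]

theorem dec_Lg (A : ℝ) : Dec (fun n => Lg n A) := by
  have hinc : ∀ n : ℕ, Lg (n + 1) A - Lg n A = Real.log A - Real.log ((n : ℝ) + 1) / 2 := by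
    intro n
    have h1 : ((n + 1).factorial : ℝ) = ((n : ℝ) + 1) * (n.factorial : ℝ) := by
      rw [Nat.factorial_succ]
      push_cast
      ring
    have h2 : (n.factorial : ℝ) ≠ 0 := by positivity
    have h3 : ((n : ℝ) + 1) ≠ 0 := by positivity
    rw [Lg, Lg, h1, Real.log_mul h3 h2]
    push_cast
    ring
  intro i j hij
  show Lg (j + 1) A - Lg j A ≤ Lg (i + 1) A - Lg i A
  rw [hinc, hinc]
  have h4 : Real.log ((i : ℝ) + 1) ≤ Real.log ((j : ℝ) + 1) := by
    apply Real.log_le_log (by positivity)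
    have : (i : ℝ) ≤ j := by exact_mod_cast hij
    linarith
  linarith

end WIN

open WIN in
theorem WIN_thm : WIN_Stmt :=
  ⟨fun A m _ => below (dec_Lg A) m, fun B m N _ => above (dec_Lg B) m N⟩

end Pool.Agent.HA
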