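import Pool.Agent.HA.GSB
import Pool.Agent.HA.EXI
import Pool.Agent.HA.BOX
import Pool.Agent.HA.TLP
import Pool.Agent.HA.GRO
import Pool.Agent.HA.DOM
import Pool.Agent.HA.LBF
import Pool.Agent.HA.LBA
import Pool.Agent.HA.LGA
import Pool.Agent.HA.PHS
import Pool.Agent.HA.RSU
import Pool.Agent.HA.RIE
import Pool.Agent.HA.PHC
import Pool.Agent.HA.CMP
import Pool.Agent.HA.POS
import Pool.Agent.HA.JEN
import Pool.Agent.HA.JEB
import Pool.Agent.HA.ROT
import Pool.Agent.HA.HIN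
import Pool.Agent.HA.RJC
import Pool.Agent.HA.FIN
import Pool.Agent.HA.CRT
import Pool.Agent.HA.MKV
import Pool.Agent.HA.VDT
import Pool.Agent.HA.UBE
import Pool.Agent.HA.WIN
import Pool.Agent.HA.UBT
import Pool.Agent.HA.SMM
import Pool.Agent.HA.LRM
import Pool.Agent.HA.UBA
import Pool.Agent.HA.CPA
import Pool.Agent.HA.TOP
import Pool.Agent.HA.HAN
import Pool.Agent.GH.INDT
import Pool.Agent.GH.TAILE
import Pool.Agent.GH.CAPA
import Pool.Agent.GH.ROU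

/-!
The modules put together.
-/

namespace Pool.Agent.HA

open MeasureTheory ProbabilityTheory Filter Topology Pool.Agent.GH

universe u

theorem an_LGA : LGA_Stmt := LGA_thm
theorem an_PHS : PHS_Stmt := PHS_thm
theorem an_RIE : RIE_Stmt := RIE_thm LGA_thm PHS_thm RSU_thm
theorem an_CMP : CMP_Stmt := CMP_thm PHS_thm
theorem an_POS : POS_Stmt := POS_thm an_CMP PHS_thm
theorem an_LBA : LBA_Stmt.{u} :=
  LBA_thm (LBF_thm (BOX_thm GSB_thm INDT_thm) (DOM_thm GRO_thm)) TAILE_thm an_RIE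
    (PHC_thm PHS_thm) LGA_thm PHS_thm
theorem an_MKV : MKV_Stmt.{u} :=
  MKV_thm (FIN_thm GSB_thm HIN_thm RJC_thm) ROT_thm CRT_thm HIN_thm
theorem an_UBE : UBE_Stmt.{u} := UBE_thm an_MKV VDT_thm GRO_thm
theorem an_SMM : SMM_Stmt.{u} :=
  SMM_thm (UBT_thm an_UBE WIN_thm) an_RIE LGA_thm PHS_thm an_CMP
theorem an_UBA : UBA_Stmt.{u} :=
  UBA_thm (TLP_thm GSB_thm) (JEB_thm JEN_thm GRO_thm) an_SMM (LRM_thm an_UBE)
theorem an_CPA : CPA_Stmt := CPA_thm (CAPA_thm ROU_thm) ROU_thm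
theorem an_HAN : HAN_Stmt.{u} := HAN_thm an_LBA an_UBA

end Pool.Agent.HA
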