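import Pool.Agent.HA.Stmts

/-!
# GSB: the standard complex Gaussian
-/

namespace Pool.Agent.HA

open MeasureTheory ProbabilityTheory Filter Topology Pool.Agent.GH

universe u

namespace GSB

open scoped ENNReal

/-- The density. -/
noncomputable def dens (w : ℂ) : ℝ := Real.exp (-‖w‖ ^ 2) / Real.pi

theorem continuous_dens : Continuous dens := by
  unfold dens
  fun_prop

theorem dens_nonneg (w : ℂ) : 0 ≤ dens w := by
  unfold dens
  positivity

theorem radial {t : ℝ} (ht : 0 ≤ t) :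
    ∫ y in Set.Ioi t, y * (Real.exp (-y ^ 2) / Real.pi) = Real.exp (-t ^ 2) / (2 * Real.pi) := by
  have hpi := Real.pi_pos
  have h1 : ∀ y ∈ Set.Ici t, HasDerivAt (fun y : ℝ => -(Real.exp (-y ^ 2) / (2 * Real.pi)))
      (y * (Real.exp (-y ^ 2) / Real.pi)) y := by
    intro y _
    have h2 : HasDerivAt (fun y : ℝ => -y ^ 2) (-(2 * y)) y := by
      have h0 := (hasDerivAt_pow 2 y).neg
      convert! h0 using 1
      norm_num
    have h3 := (h2.exp.div_const (2 * Real.pi)).neg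
    convert! h3 using 1
    field_simp
  have h4 : Tendsto (fun y : ℝ => -(Real.exp (-y ^ 2) / (2 * Real.pi))) atTop (𝓝 0) := by
    have h5 : Tendsto (fun y : ℝ => Real.exp (-y ^ 2)) atTop (𝓝 0) :=
      Real.tendsto_exp_neg_atTop_nhds_zero.comp (tendsto_pow_atTop two_ne_zero)
    have h6 := (h5.div_const (2 * Real.pi)).neg
    simpa using h6
  rw [integral_Ioi_of_hasDerivAt_of_nonneg' h1 _ h4]
  · ring
  · intro y hy
    have hy' : t < y := hy
    have : 0 ≤ y := ht.trans hy'.le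
    positivity

theorem toReal_eq (A : Set ℝ) (hA : MeasurableSet A) :
    (stdC {w : ℂ | ‖w‖ ∈ A}).toReal = 2 * Real.pi *
      ∫ y in Set.Ioi (0 : ℝ), y * A.indicator (fun y => Real.exp (-y ^ 2) / Real.pi) y := by
  have hS : MeasurableSet {w : ℂ | ‖w‖ ∈ A} := measurable_norm hA
  unfold stdC
  rw [withDensity_apply _ hS]
  have h1 : (∫⁻ w in {w : ℂ | ‖w‖ ∈ A}, ENNReal.ofReal (Real.exp (-‖w‖ ^ 2) / Real.pi)).toReal =
      ∫ w in {w : ℂ | ‖w‖ ∈ A}, dens w := by
    rw [integral_eq_lintegral_of_nonneg_ae (Eventually.of_forall dens_nonneg)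
      continuous_dens.aestronglyMeasurable]
    rfl
  have h2 : ({w : ℂ | ‖w‖ ∈ A}).indicator dens =
      fun w => A.indicator (fun y => Real.exp (-y ^ 2) / Real.pi) ‖w‖ := by
    funext w
    by_cases hw : ‖w‖ ∈ A
    · rw [Set.indicator_of_mem hw, Set.indicator_of_mem (show w ∈ {w : ℂ | ‖w‖ ∈ A} from hw)]
      rfl
    · rw [Set.indicator_of_notMem hw,
        Set.indicator_of_notMem (show w ∉ {w : ℂ | ‖w‖ ∈ A} from hw)]
  rw [h1, ← integral_indicator hS, h2,
    integral_fun_norm_addHaar (μ := (volume : Measure ℂ))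
      (A.indicator (fun y => Real.exp (-y ^ 2) / Real.pi))]
  have h3 : (volume : Measure ℂ).real (Metric.ball 0 1) = Real.pi := by
    rw [measureReal_def, Complex.volume_ball]
    simp
  rw [h3, Complex.finrank_real_complex]
  simp only [Nat.add_one_sub_one, pow_one, smul_eq_mul, nsmul_eq_mul]
  push_cast
  ring

theorem toReal_lt {t : ℝ} (ht : 0 ≤ t) :
    (stdC {w : ℂ | t < ‖w‖}).toReal = Real.exp (-t ^ 2) := by
  have h1 := toReal_eq (Set.Ioi t) measurableSet_Ioi
  have h2 : {w : ℂ | ‖w‖ ∈ Set.Ioi t} = {w : ℂ | t < ‖w‖} := rfl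
  rw [h2] at h1
  rw [h1]
  have h3 : (fun y : ℝ => y * (Set.Ioi t).indicator (fun y => Real.exp (-y ^ 2) / Real.pi) y) =
      (Set.Ioi t).indicator (fun y => y * (Real.exp (-y ^ 2) / Real.pi)) := by
    funext y
    by_cases hy : y ∈ Set.Ioi t
    · rw [Set.indicator_of_mem hy, Set.indicator_of_mem hy]
    · rw [Set.indicator_of_notMem hy, Set.indicator_of_notMem hy, mul_zero]
  rw [h3, setIntegral_indicator measurableSet_Ioi]
  have h4 : Set.Ioi (0 : ℝ) ∩ Set.Ioi t = Set.Ioi t :=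
    Set.inter_eq_right.2 (Set.Ioi_subset_Ioi ht)
  rw [h4, radial ht]
  have hpi := Real.pi_pos
  field_simp

theorem toReal_le {t : ℝ} (ht : 0 ≤ t) :
    (stdC {w : ℂ | t ≤ ‖w‖}).toReal = Real.exp (-t ^ 2) := by
  rw [← toReal_lt ht]
  have h1 := toReal_eq (Set.Ici t) measurableSet_Ici
  have h2 := toReal_eq (Set.Ioi t) measurableSet_Ioi
  have h3 : {w : ℂ | ‖w‖ ∈ Set.Ici t} = {w : ℂ | t ≤ ‖w‖} := rfl
  have h4 : {w : ℂ | ‖w‖ ∈ Set.Ioi t} = {w : ℂ | t < ‖w‖} := rfl
  rw [h3] at h1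
  rw [h4] at h2
  rw [h1, h2]
  congr 1
  apply integral_congr_ae
  have h5 : (Set.Ici t).indicator (fun y : ℝ => Real.exp (-y ^ 2) / Real.pi) =ᵐ[volume]
      (Set.Ioi t).indicator (fun y : ℝ => Real.exp (-y ^ 2) / Real.pi) :=
    indicator_ae_eq_of_ae_eq_set Ioi_ae_eq_Ici.symm
  have h6 := ae_restrict_of_ae (s := Set.Ioi (0 : ℝ)) h5
  filter_upwards [h6] with y hy
  rw [hy]

theorem isProb : IsProbabilityMeasure stdC := by
  constructor
  have h1 := toReal_le (le_refl (0 : ℝ))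
  have h2 : {w : ℂ | (0 : ℝ) ≤ ‖w‖} = Set.univ := by
    ext w
    simp
  rw [h2] at h1
  have h3 : (stdC Set.univ).toReal = 1 := by
    rw [h1]
    simp
  exact (ENNReal.toReal_eq_one_iff _).1 h3

end GSB

open GSB in
theorem GSB_thm : GSB_Stmt := by
  have hp := isProb
  have hc : ∀ t : ℝ, (Metric.closedBall (0 : ℂ) t)ᶜ = {w : ℂ | t < ‖w‖} := by
    intro t
    ext w
    simp
  refine ⟨hp, ?_, ?_, fun t ht => toReal_le ht, ?_⟩
  · intro t ht
    rw [hc, toReal_lt ht]
  · intro t ht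
    have h1 := probReal_compl_eq_one_sub (μ := stdC) (s := (Metric.closedBall (0 : ℂ) t)ᶜ)
      Metric.isClosed_closedBall.measurableSet.compl
    rw [compl_compl, measureReal_def, measureReal_def, hc, toReal_lt ht] at h1
    exact h1
  · intro F hF
    unfold stdC
    have hm : Measurable (fun w : ℂ => ENNReal.ofReal (Real.exp (-‖w‖ ^ 2) / Real.pi)) := by
      fun_prop
    rw [lintegral_withDensity_eq_lintegral_mul _ hm hF, ← lintegral_const_mul _ hF]
    refine lintegral_mono fun w => ?_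
    rw [Pi.mul_apply]
    refine mul_le_mul_left ?_ _
    apply ENNReal.ofReal_le_ofReal
    apply div_le_div_of_nonneg_right _ Real.pi_pos.le
    rw [Real.exp_le_one_iff]
    have := sq_nonneg ‖w‖
    linarith

end Pool.Agent.HA
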