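import Pool.Agent.HA.Stmts

/-!
# Module HIN: the integral of the cut off power
-/

namespace Pool.Agent.HA

open MeasureTheory ProbabilityTheory Filter Topology Pool.Agent.GH

/-- The integral of the cut off power. -/
theorem HIN_thm : HIN_Stmt := by
  intro η R hη hR
  refine ⟨?_, ?_⟩
  · unfold hh
    exact Measurable.ite (measurableSet_le measurable_norm measurable_const)
      (ENNReal.measurable_ofReal.comp (measurable_norm.pow_const _)) measurable_const
  · let F : ℝ → ℝ := (Set.Iic R).indicator fun y => y ^ (η - 2)
    have hF0 : ∀ w : ℂ, 0 ≤ F ‖w‖ := by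
      intro w
      simp only [F, Set.indicator]
      split_ifs
      · exact Real.rpow_nonneg (norm_nonneg _) _
      · exact le_rfl
    have e1 : (fun w : ℂ => hh η R w) = fun w : ℂ => ENNReal.ofReal (F ‖w‖) := by
      funext w
      unfold hh
      by_cases h : ‖w‖ ≤ R
      · simp [F, Set.indicator, h]
      · simp [F, Set.indicator, h]
    have e2 : ∀ y ∈ Set.Ioi (0 : ℝ), y ^ (Module.finrank ℝ ℂ - 1) • F y =
        (Set.Iic R).indicator (fun y => y ^ (η - 1)) y := by
      intro y hy
      rw [Complex.finrank_real_complex]
      by_cases hyk : y ≤ R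
      · have h1 : y ^ (η - 1) = y ^ (η - 2) * y := by
          rw [← Real.rpow_add_one (ne_of_gt hy)]
          congr 1
          ring
        simp [F, Set.indicator, hyk, h1, mul_comm]
      · simp [F, Set.indicator, hyk]
    have hio : Set.Ioi (0 : ℝ) ∩ Set.Iic R = Set.Ioc 0 R := Set.Ioi_inter_Iic
    have hi : IntegrableOn (fun y : ℝ => y ^ (η - 1)) (Set.Ioc 0 R) :=
      (intervalIntegrable_iff_integrableOn_Ioc_of_le hR.le).1
        (intervalIntegral.intervalIntegrable_rpow' (by linarith))
    have hint : Integrable (fun w : ℂ => F ‖w‖) := by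
      rw [integrable_fun_norm_addHaar, integrableOn_congr_fun e2 measurableSet_Ioi]
      unfold IntegrableOn
      rw [integrable_indicator_iff measurableSet_Iic]
      unfold IntegrableOn
      rw [Measure.restrict_restrict measurableSet_Iic, Set.inter_comm, hio]
      exact hi
    rw [e1, ← ofReal_integral_eq_lintegral_ofReal hint (ae_of_all _ hF0)]
    congr 1
    rw [integral_fun_norm_addHaar, setIntegral_congr_fun measurableSet_Ioi e2,
      setIntegral_indicator measurableSet_Iic, hio, Complex.finrank_real_complex,
      ← intervalIntegral.integral_of_le hR.le, integral_rpow (Or.inl (by linarith))]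
    have h2 : (volume : Measure ℂ).real (Metric.ball 0 1) = Real.pi := by
      rw [Measure.real, Complex.volume_ball]
      simp
    rw [h2, sub_add_cancel, Real.zero_rpow hη.ne']
    simp
    ring

end Pool.Agent.HA
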